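import Pool.Agent.UCR.Stmt

/-!
# UCT: thin monochromatic copies (MP_50aaeb_co), definitions

The order of the designed graph consists of `M` slots of `10 F + B` consecutive edges. There are
`F` families of units, `M` units in each family, and `M` cliques. Slot `s` contains, for each
family `f`, the class 1 edges of the unit `(f, s)` (positions `10 f + c`) and the class 2 edges of
the unit `(f, p)` with `σ f p = s` (positions `10 f + 5 + c`), and for each `h < B` the edge number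
`h` of the clique `p` with `τ h p = s` (position `10 F + h`).
-/

set_option autoImplicit false

namespace Pool.Agent.UCT

/-- The data of an order preserving copy of the designed graph: units `X f p`, cliques `Y p`,
ranks `R i` of the edges in their order. -/
structure IsCopy {V : Type} (E : Finset (Sym2 V)) (rk : Sym2 V → ℕ) (M t B F : ℕ)
    (σ : Fin F → Equiv.Perm (Fin M)) (τ : Fin B → Equiv.Perm (Fin M)) (ce : Fin B → Fin t × Fin t)
    (X : Fin F → Fin M → ZMod 5 → V) (Y : Fin M → Fin t → V) (R : ℕ → ℕ) : Prop where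
  Xinj : ∀ f p, Function.Injective (X f p)
  Yinj : ∀ p, Function.Injective (Y p)
  XE : ∀ f p (a b : ZMod 5), a ≠ b → s(X f p a, X f p b) ∈ E
  YE : ∀ p (a b : Fin t), a ≠ b → s(Y p a, Y p b) ∈ E
  mono : ∀ i j : ℕ, i < j → j < (10 * F + B) * M → R i < R j
  R1 : ∀ f p (c : ZMod 5), rk s(X f p c, X f p (c + 1)) =
    R ((10 * F + B) * (p : ℕ) + (10 * (f : ℕ) + c.val))
  R2 : ∀ f p (c : ZMod 5), rk s(X f p c, X f p (c + 2)) =
    R ((10 * F + B) * (σ f p : ℕ) + (10 * (f : ℕ) + 5 + c.val))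
  R3 : ∀ (h : Fin B) p, rk s(Y p (ce h).1, Y p (ce h).2) =
    R ((10 * F + B) * (τ h p : ℕ) + (10 * F + (h : ℕ)))

/-- The designed graph, on `Fin n`, and its order. -/
structure IsDesign (n M t B F : ℕ) (σ : Fin F → Equiv.Perm (Fin M))
    (τ : Fin B → Equiv.Perm (Fin M)) (ce : Fin B → Fin t × Fin t)
    (H : SimpleGraph (Fin n)) (g : Sym2 (Fin n) → ℕ) (u : Fin F → Fin M → ZMod 5 → Fin n)
    (v : Fin M → Fin t → Fin n) : Prop where
  uinj : ∀ f p, Function.Injective (u f p)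
  vinj : ∀ p, Function.Injective (v p)
  deg : ∀ x, (H.neighborSet x).ncard ≤ t
  ginj : Set.InjOn g H.edgeSet
  ue : ∀ f p (a b : ZMod 5), a ≠ b → s(u f p a, u f p b) ∈ H.edgeSet
  ve : ∀ p (a b : Fin t), a ≠ b → s(v p a, v p b) ∈ H.edgeSet
  g1 : ∀ f p (c : ZMod 5), g s(u f p c, u f p (c + 1)) =
    (10 * F + B) * (p : ℕ) + (10 * (f : ℕ) + c.val)
  g2 : ∀ f p (c : ZMod 5), g s(u f p c, u f p (c + 2)) =
    (10 * F + B) * (σ f p : ℕ) + (10 * (f : ℕ) + 5 + c.val)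
  g3 : ∀ (h : Fin B) p, g s(v p (ce h).1, v p (ce h).2) =
    (10 * F + B) * (τ h p : ℕ) + (10 * F + (h : ℕ))
  glt : ∀ e ∈ H.edgeSet, g e < (10 * F + B) * M
  gsurj : ∀ i < (10 * F + B) * M, ∃ e ∈ H.edgeSet, g e = i

/-- Few pairs of short intervals share many positions. -/
def Mixing2 (k : ℕ) (σ : Equiv.Perm (Fin (2 ^ k))) : Prop :=
  ∀ Λ l h l' h' : ℕ, h ≤ l + Λ → h' ≤ l' + Λ →
    2 ^ k * (Finset.univ.filter (fun p : Fin (2 ^ k) =>
      l ≤ (p : ℕ) ∧ (p : ℕ) < h ∧ l' ≤ (σ p : ℕ) ∧ (σ p : ℕ) < h')).card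
      ≤ 2 * Λ ^ 2 + 8 * 2 ^ k

/-- the number of edges of the copy `φ` of `H` within distance `x` of the image of `e` -/
noncomputable def near {n N : ℕ} (H : SimpleGraph (Fin n)) (G : SimpleGraph (Fin N))
    (f : Sym2 (Fin N) → ℕ) (φ : Fin n → Fin N) (x : ℝ) (e : Sym2 (Fin n)) : ℕ :=
  {e' ∈ H.edgeSet | (UCR.dist G f (Sym2.map φ e) (Sym2.map φ e') : ℝ) ≤ x}.ncard

/-- the number of pairs of consecutive edges of the copy `φ` of `H` of distance more than `x` -/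
noncomputable def gaps {n N : ℕ} (H : SimpleGraph (Fin n)) (g : Sym2 (Fin n) → ℕ)
    (G : SimpleGraph (Fin N)) (f : Sym2 (Fin N) → ℕ) (φ : Fin n → Fin N) (x : ℝ) : ℕ :=
  {p : Sym2 (Fin n) × Sym2 (Fin n) | p.1 ∈ H.edgeSet ∧ p.2 ∈ H.edgeSet ∧
    g p.1 < g p.2 ∧ (∀ e ∈ H.edgeSet, ¬ (g p.1 < g e ∧ g e < g p.2)) ∧
    x < (UCR.dist G f (Sym2.map φ p.1) (Sym2.map φ p.2) : ℝ)}.ncard

end Pool.Agent.UCT
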