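import Pool.Agent.UCT.Defs

/-!
# UCT Data: the large fibres of a monotone map as a list of intervals

PROOF. Each fibre `{p' : A p' = i}` is an interval `[l_i, h_i)` (`A` monotone). There are at most
`2 ^ k / ℓ` fibres with at least `ℓ` elements; list those with size in `[ℓ, μ]` as `i_0, i_1, ..`
and put `d s = (i_s, l, h - 1)` (the last element is removed); the remaining `d s` are
`(0, 0, 0)` (empty intervals; `0 < r`). Removing the last elements loses at most `2 ^ k / ℓ`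
positions. If there are no positions in question everything is trivial. For the third property: if
`(d s).1 = i` and the interval is not empty then `s` is the unique number with `i_s = i`.
-/

set_option autoImplicit false

namespace Pool.Agent.UCT

private lemma interval {M r : ℕ} (A : Fin M → Fin r) (hA : Monotone A) (i : Fin r)
    (hne : (Finset.univ.filter (fun p => A p = i)).Nonempty) :
    ∃ l h : Fin (M + 1), (∀ p : Fin M, A p = i ↔ (l : ℕ) ≤ (p : ℕ) ∧ (p : ℕ) < (h : ℕ)) ∧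
      (h : ℕ) = (l : ℕ) + (Finset.univ.filter (fun p => A p = i)).card := by
  obtain ⟨a, haS, hamin⟩ := Finset.exists_min_image
    (Finset.univ.filter (fun p => A p = i)) (fun p => (p : ℕ)) hne
  obtain ⟨b, hbS, hbmax⟩ := Finset.exists_max_image
    (Finset.univ.filter (fun p => A p = i)) (fun p => (p : ℕ)) hne
  have ha : A a = i := (Finset.mem_filter.1 haS).2
  have hb : A b = i := (Finset.mem_filter.1 hbS).2
  have hab : (a : ℕ) ≤ (b : ℕ) := hamin b hbS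
  have key : ∀ p : Fin M, A p = i ↔ (a : ℕ) ≤ (p : ℕ) ∧ (p : ℕ) < (b : ℕ) + 1 := by
    intro p
    constructor
    · intro hp
      have hm : p ∈ Finset.univ.filter (fun p => A p = i) :=
        Finset.mem_filter.2 ⟨Finset.mem_univ _, hp⟩
      exact ⟨hamin p hm, Nat.lt_succ_of_le (hbmax p hm)⟩
    · rintro ⟨h1, h2⟩
      have h3 : A a ≤ A p := hA (by exact Fin.le_def.2 h1)
      have h4 : A p ≤ A b := hA (by exact Fin.le_def.2 (Nat.lt_succ_iff.1 h2))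
      rw [ha] at h3
      rw [hb] at h4
      exact le_antisymm h4 h3
  refine ⟨⟨a, by omega⟩, ⟨(b : ℕ) + 1, by omega⟩, key, ?_⟩
  have hS : Finset.univ.filter (fun p => A p = i) = Finset.Icc a b := by
    ext p
    rw [Finset.mem_filter, Finset.mem_Icc, Fin.le_def, Fin.le_def, key p]
    simp
  rw [hS, Fin.card_Icc]
  show (b : ℕ) + 1 = (a : ℕ) + ((b : ℕ) + 1 - (a : ℕ))
  omega

open Classical in
private lemma data_aux (M r ℓ μ : ℕ) (hr : 0 < r) (hℓ : 0 < ℓ) (A : Fin M → Fin r)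
    (hA : Monotone A) :
    ∃ d : Fin (M / ℓ) → Fin r × Fin (M + 1) × Fin (M + 1),
      (∀ s (p : Fin M), ((d s).2.1 : ℕ) ≤ (p : ℕ) → (p : ℕ) < ((d s).2.2 : ℕ) →
        A p = (d s).1 ∧ ∃ p' : Fin M, (p' : ℕ) = (p : ℕ) + 1 ∧ A p' = (d s).1) ∧
      (∀ i, ∃ l h : ℕ, h ≤ l + μ ∧ ∀ s (p : Fin M), (d s).1 = i →
        ((d s).2.1 : ℕ) ≤ (p : ℕ) → (p : ℕ) < ((d s).2.2 : ℕ) → l ≤ (p : ℕ) ∧ (p : ℕ) < h) ∧
      (Finset.univ.filter (fun p =>
        ℓ ≤ (Finset.univ.filter (fun p' => A p' = A p)).card ∧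
        (Finset.univ.filter (fun p' => A p' = A p)).card ≤ μ)).card ≤
      (Finset.univ.filter (fun p : Fin M => ∃ s, ((d s).2.1 : ℕ) ≤ (p : ℕ) ∧
        (p : ℕ) < ((d s).2.2 : ℕ))).card + M / ℓ := by
  set J : Finset (Fin r) := Finset.univ.filter (fun i =>
    ℓ ≤ (Finset.univ.filter (fun p => A p = i)).card ∧
      (Finset.univ.filter (fun p => A p = i)).card ≤ μ) with hJ
  have hJm : ∀ i, i ∈ J ↔ ℓ ≤ (Finset.univ.filter (fun p => A p = i)).card ∧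
      (Finset.univ.filter (fun p => A p = i)).card ≤ μ := by
    intro i
    rw [hJ, Finset.mem_filter]
    simp
  have hcard : J.card ≤ M / ℓ := by
    rw [Nat.le_div_iff_mul_le hℓ]
    have e1 : J.card * ℓ ≤ ∑ i ∈ J, (Finset.univ.filter (fun p => A p = i)).card := by
      rw [← smul_eq_mul]
      exact Finset.card_nsmul_le_sum _ _ _ (fun i hi => ((hJm i).1 hi).1)
    have e2 : ∑ i ∈ J, (Finset.univ.filter (fun p => A p = i)).card ≤
        ∑ i : Fin r, (Finset.univ.filter (fun p => A p = i)).card :=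
      Finset.sum_le_sum_of_subset (Finset.subset_univ _)
    have e3 : (Finset.univ : Finset (Fin M)).card =
        ∑ i : Fin r, (Finset.univ.filter (fun p => A p = i)).card :=
      Finset.card_eq_sum_card_fiberwise (fun x _ => Finset.mem_coe.2 (Finset.mem_univ (A x)))
    rw [Finset.card_univ, Fintype.card_fin] at e3
    omega
  have hpos : ∀ i ∈ J, (Finset.univ.filter (fun p => A p = i)).Nonempty := by
    intro i hi
    rw [← Finset.card_pos]
    have := ((hJm i).1 hi).1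
    omega
  choose! l h hlh using fun i (hi : i ∈ J) => interval A hA i (hpos i hi)
  let d : Fin (M / ℓ) → Fin r × Fin (M + 1) × Fin (M + 1) := fun s =>
    if hs : (s : ℕ) < J.card then
      (((J.equivFin.symm ⟨s, hs⟩ : J) : Fin r), l (J.equivFin.symm ⟨s, hs⟩ : J),
        ⟨(h (J.equivFin.symm ⟨s, hs⟩ : J) : ℕ) - 1,
          lt_of_le_of_lt (Nat.sub_le _ _) (h (J.equivFin.symm ⟨s, hs⟩ : J)).2⟩)
    else (⟨0, hr⟩, 0, 0)
  -- the form of a nonempty interval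
  have hd : ∀ s (p : Fin M), ((d s).2.1 : ℕ) ≤ (p : ℕ) → (p : ℕ) < ((d s).2.2 : ℕ) →
      ∃ i ∈ J, (d s).1 = i ∧ ((l i : Fin (M + 1)) : ℕ) ≤ (p : ℕ) ∧
        (p : ℕ) + 1 < ((h i : Fin (M + 1)) : ℕ) := by
    intro s p h1 h2
    by_cases hs : (s : ℕ) < J.card
    · have e : d s = (((J.equivFin.symm ⟨s, hs⟩ : J) : Fin r), l (J.equivFin.symm ⟨s, hs⟩ : J),
        ⟨(h (J.equivFin.symm ⟨s, hs⟩ : J) : ℕ) - 1,
          lt_of_le_of_lt (Nat.sub_le _ _) (h (J.equivFin.symm ⟨s, hs⟩ : J)).2⟩) := by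
        simp only [d]
        rw [dif_pos hs]
      rw [e] at h1 h2 ⊢
      refine ⟨(J.equivFin.symm ⟨s, hs⟩ : J), (J.equivFin.symm ⟨s, hs⟩ : J).2, rfl, h1, ?_⟩
      have h2' : (p : ℕ) < (h (J.equivFin.symm ⟨s, hs⟩ : J) : ℕ) - 1 := h2
      omega
    · have e : d s = (⟨0, hr⟩, 0, 0) := by
        simp only [d]
        rw [dif_neg hs]
      rw [e] at h2
      simp at h2
  have hd' : ∀ i ∈ J, ∃ s, ((d s).2.1 : ℕ) = ((l i : Fin (M + 1)) : ℕ) ∧
      ((d s).2.2 : ℕ) = ((h i : Fin (M + 1)) : ℕ) - 1 := by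
    intro i hi
    refine ⟨⟨(J.equivFin ⟨i, hi⟩ : ℕ), lt_of_lt_of_le (J.equivFin ⟨i, hi⟩).2 hcard⟩, ?_⟩
    have hs : (J.equivFin ⟨i, hi⟩ : ℕ) < J.card := (J.equivFin ⟨i, hi⟩).2
    simp only [d]
    rw [dif_pos hs]
    simp
  refine ⟨d, ?_, ?_, ?_⟩
  · intro s p h1 h2
    obtain ⟨i, hi, e1, e2, e3⟩ := hd s p h1 h2
    obtain ⟨q1, q2⟩ := hlh i hi
    have hlt : (p : ℕ) + 1 < M := by
      have := (h i).2
      omega
    refine ⟨?_, ⟨(p : ℕ) + 1, hlt⟩, rfl, ?_⟩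
    · rw [e1]
      exact (q1 p).2 ⟨e2, by omega⟩
    · rw [e1]
      refine (q1 ⟨(p : ℕ) + 1, hlt⟩).2 ⟨?_, ?_⟩
      · show ((l i : Fin (M + 1)) : ℕ) ≤ (p : ℕ) + 1
        omega
      · exact e3
  · intro i
    by_cases hi : i ∈ J
    · refine ⟨(l i : Fin (M + 1)), (h i : Fin (M + 1)), ?_, ?_⟩
      · have h3 := (hlh i hi).2
        have h4 := ((hJm i).1 hi).2
        omega
      · intro s p e0 h1 h2
        obtain ⟨i', _, e1, e2, e3⟩ := hd s p h1 h2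
        have : i' = i := by rw [← e1, e0]
        subst this
        exact ⟨e2, by omega⟩
    · refine ⟨0, 0, by omega, ?_⟩
      intro s p e0 h1 h2
      obtain ⟨i', hi', e1, _, _⟩ := hd s p h1 h2
      exact absurd (by rw [← e0, e1]; exact hi') hi
  · have hsub : (Finset.univ.filter (fun p =>
        ℓ ≤ (Finset.univ.filter (fun p' => A p' = A p)).card ∧
        (Finset.univ.filter (fun p' => A p' = A p)).card ≤ μ)) ⊆
        (Finset.univ.filter (fun p : Fin M => ∃ s, ((d s).2.1 : ℕ) ≤ (p : ℕ) ∧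
        (p : ℕ) < ((d s).2.2 : ℕ))) ∪
        (Finset.univ.filter (fun p : Fin M => A p ∈ J ∧
          (p : ℕ) + 1 = ((h (A p) : Fin (M + 1)) : ℕ))) := by
      intro p hp
      rw [Finset.mem_filter] at hp
      have hi : A p ∈ J := (hJm _).2 hp.2
      obtain ⟨q1, q2⟩ := hlh _ hi
      obtain ⟨h1, h2⟩ := (q1 p).1 rfl
      rw [Finset.mem_union, Finset.mem_filter, Finset.mem_filter]
      by_cases hlast : (p : ℕ) + 1 = ((h (A p) : Fin (M + 1)) : ℕ)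
      · exact Or.inr ⟨Finset.mem_univ _, hi, hlast⟩
      · obtain ⟨s, hs1, hs2⟩ := hd' _ hi
        refine Or.inl ⟨Finset.mem_univ _, s, ?_, ?_⟩
        · rw [hs1]
          exact h1
        · rw [hs2]
          omega
    have hlastcard : (Finset.univ.filter (fun p : Fin M => A p ∈ J ∧
          (p : ℕ) + 1 = ((h (A p) : Fin (M + 1)) : ℕ))).card ≤ J.card := by
      refine Finset.card_le_card_of_injOn A ?_ ?_
      · intro p hp
        rw [Finset.mem_coe, Finset.mem_filter] at hp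
        exact hp.2.1
      · intro p hp q hq hpq
        rw [Finset.mem_coe, Finset.mem_filter] at hp hq
        have e1 := hp.2.2
        have e2 := hq.2.2
        rw [hpq] at e1
        ext
        omega
    calc _ ≤ _ := Finset.card_le_card hsub
      _ ≤ _ := Finset.card_union_le _ _
      _ ≤ _ := Nat.add_le_add_left (hlastcard.trans hcard) _

open Classical in
theorem exists_data (k r ℓ μ : ℕ) (hr : 0 < r) (hℓ : 0 < ℓ) (A : Fin (2 ^ k) → Fin r)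
    (hA : Monotone A) :
    ∃ d : Fin (2 ^ k / ℓ) → Fin r × Fin (2 ^ k + 1) × Fin (2 ^ k + 1),
      (∀ s (p : Fin (2 ^ k)), ((d s).2.1 : ℕ) ≤ (p : ℕ) → (p : ℕ) < ((d s).2.2 : ℕ) →
        A p = (d s).1 ∧ ∃ p' : Fin (2 ^ k), (p' : ℕ) = (p : ℕ) + 1 ∧ A p' = (d s).1) ∧
      (∀ i, ∃ l h : ℕ, h ≤ l + μ ∧ ∀ s (p : Fin (2 ^ k)), (d s).1 = i →
        ((d s).2.1 : ℕ) ≤ (p : ℕ) → (p : ℕ) < ((d s).2.2 : ℕ) → l ≤ (p : ℕ) ∧ (p : ℕ) < h) ∧
      (Finset.univ.filter (fun p =>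
        ℓ ≤ (Finset.univ.filter (fun p' => A p' = A p)).card ∧
        (Finset.univ.filter (fun p' => A p' = A p)).card ≤ μ)).card ≤
      (Finset.univ.filter (fun p : Fin (2 ^ k) => ∃ s, ((d s).2.1 : ℕ) ≤ (p : ℕ) ∧
        (p : ℕ) < ((d s).2.2 : ℕ))).card + 2 ^ k / ℓ :=
  data_aux (2 ^ k) r ℓ μ hr hℓ A hA

/-- consequence of mixing for such a list -/
theorem wt_le (k r x μ : ℕ) (σ : Equiv.Perm (Fin (2 ^ k))) (hσ : Mixing2 k σ)
    (d : Fin x → Fin r × Fin (2 ^ k + 1) × Fin (2 ^ k + 1))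
    (hd : ∀ i, ∃ l h : ℕ, h ≤ l + μ ∧ ∀ s (p : Fin (2 ^ k)), (d s).1 = i →
        ((d s).2.1 : ℕ) ≤ (p : ℕ) → (p : ℕ) < ((d s).2.2 : ℕ) → l ≤ (p : ℕ) ∧ (p : ℕ) < h)
    (T : Fin r × Fin r) :
    (UCR.wt d d σ T : ℝ) ≤ 2 * (μ : ℝ) ^ 2 / 2 ^ k + 8 := by
  classical
  obtain ⟨l, h, h1, h2⟩ := hd T.1
  obtain ⟨l', h', h1', h2'⟩ := hd T.2
  have hmix := hσ μ l h l' h' h1 h1'
  have hle : UCR.wt d d σ T ≤ (Finset.univ.filter (fun p : Fin (2 ^ k) =>
      l ≤ (p : ℕ) ∧ (p : ℕ) < h ∧ l' ≤ (σ p : ℕ) ∧ (σ p : ℕ) < h')).card := by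
    rw [UCR.wt]
    refine Finset.card_le_card ?_
    intro p hp
    rw [Finset.mem_filter] at hp ⊢
    obtain ⟨_, ⟨s, hs1, hs2, hs3⟩, ⟨t, ht1, ht2, ht3⟩⟩ := hp
    obtain ⟨a1, a2⟩ := h2 s p hs1 hs2 hs3
    obtain ⟨b1, b2⟩ := h2' t (σ p) ht1 ht2 ht3
    exact ⟨Finset.mem_univ _, a1, a2, b1, b2⟩
  have h3 : 2 ^ k * UCR.wt d d σ T ≤ 2 * μ ^ 2 + 8 * 2 ^ k :=
    (Nat.mul_le_mul_left _ hle).trans hmix
  have h4 : (2 : ℝ) ^ k * (UCR.wt d d σ T : ℝ) ≤ 2 * (μ : ℝ) ^ 2 + 8 * 2 ^ k := by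
    exact_mod_cast h3
  have hpos : (0 : ℝ) < 2 ^ k := by positivity
  rw [← mul_le_mul_iff_right₀ hpos]
  calc (2 : ℝ) ^ k * (UCR.wt d d σ T : ℝ) ≤ 2 * (μ : ℝ) ^ 2 + 8 * 2 ^ k := h4
    _ = 2 ^ k * (2 * (μ : ℝ) ^ 2 / 2 ^ k + 8) := by
      field_simp

end Pool.Agent.UCT
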