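import Pool.Agent.UCT.Defs

/-!
# UCT Design: the graph `H` and its order

PROOF. Adapt `Pool/Agent/UCR/Design.lean` (helper61). Vertices:
`u f p c = 5 (M f + p) + c.val` (less than `5 F M`), `v p s = 5 F M + t p + s`; all these numbers
are distinct and less than `(5 F + t) M ≤ n`. Index type of the edges:
`(Fin F × Fin M × ZMod 5) ⊕ (Fin F × Fin M × ZMod 5) ⊕ (Fin B × Fin M)`, position and edge as in
`g1`, `g2`, `g3`; the position map is a bijection onto `[0, (10 F + B) M)` (`w = 10 F + B`,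
`i = w s + o`, `o < w`; `o < 10 F`: `o = 10 f + c` or `o = 10 f + 5 + c`; `o ≥ 10 F`:
`o = 10 F + h`).
If `F = 0` the first two index types are empty, no problem.
-/

set_option autoImplicit false

namespace Pool.Agent.UCT

section Design

variable {M t B F n : ℕ}

/-- index type of the edges -/
private abbrev Ix (M B F : ℕ) : Type :=
  (Fin F × Fin M × ZMod 5) ⊕ (Fin F × Fin M × ZMod 5) ⊕ (Fin B × Fin M)

private theorem val5 (c : ZMod 5) : c.val < 5 := ZMod.val_lt c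

private theorem madd {t p s p' s' : ℕ} (hs : s < t) (hs' : s' < t) (h : t * p + s = t * p' + s') :
    p = p' ∧ s = s' := by
  rcases lt_trichotomy p p' with h1 | h1 | h1
  · have h2 : t * (p + 1) ≤ t * p' := Nat.mul_le_mul_left _ h1
    rw [Nat.mul_succ] at h2
    omega
  · subst h1
    exact ⟨rfl, by omega⟩
  · have h2 : t * (p' + 1) ≤ t * p := Nat.mul_le_mul_left _ h1
    rw [Nat.mul_succ] at h2
    omega

private theorem mf_lt (f : Fin F) (p : Fin M) : M * (f : ℕ) + (p : ℕ) < F * M := by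
  have h1 : M * ((f : ℕ) + 1) ≤ M * F := Nat.mul_le_mul_left _ f.2
  rw [Nat.mul_succ, Nat.mul_comm M F] at h1
  have h2 := p.2
  omega

private theorem nsplit (hn : (5 * F + t) * M ≤ n) : 5 * (F * M) + t * M ≤ n := by
  have h3 : (5 * F + t) * M = 5 * F * M + t * M := Nat.add_mul _ _ _
  rw [Nat.mul_assoc] at h3
  omega

private theorem ulta (hn : (5 * F + t) * M ≤ n) (f : Fin F) (p : Fin M) (c : ZMod 5) :
    5 * (M * (f : ℕ) + (p : ℕ)) + c.val < n := by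
  have h1 := mf_lt f p
  have h2 := val5 c
  have h3 := nsplit hn
  omega

private theorem vlta (hn : (5 * F + t) * M ≤ n) (p : Fin M) (s : Fin t) :
    5 * (F * M) + t * (p : ℕ) + (s : ℕ) < n := by
  have h1 : t * ((p : ℕ) + 1) ≤ t * M := Nat.mul_le_mul_left _ p.2
  rw [Nat.mul_succ] at h1
  have h2 := s.2
  have h3 := nsplit hn
  omega

/-- vertices of the units -/
private def uu (hn : (5 * F + t) * M ≤ n) (f : Fin F) (p : Fin M) (c : ZMod 5) : Fin n :=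
  ⟨5 * (M * (f : ℕ) + (p : ℕ)) + c.val, ulta hn f p c⟩

/-- vertices of the cliques -/
private def vv (hn : (5 * F + t) * M ≤ n) (p : Fin M) (s : Fin t) : Fin n :=
  ⟨5 * (F * M) + t * (p : ℕ) + (s : ℕ), vlta hn p s⟩

private theorem uu_inj (hn : (5 * F + t) * M ≤ n) {f f' : Fin F} {p p' : Fin M} {c c' : ZMod 5}
    (h : uu hn f p c = uu hn f' p' c') : f = f' ∧ p = p' ∧ c = c' := by
  have h1 : 5 * (M * (f : ℕ) + (p : ℕ)) + c.val = 5 * (M * (f' : ℕ) + (p' : ℕ)) + c'.val :=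
    congrArg Fin.val h
  obtain ⟨h2, h3⟩ := madd (val5 c) (val5 c') h1
  obtain ⟨h4, h5⟩ := madd p.2 p'.2 h2
  exact ⟨Fin.ext h4, Fin.ext h5, ZMod.val_injective 5 h3⟩

private theorem vv_inj (hn : (5 * F + t) * M ≤ n) {p p' : Fin M} {s s' : Fin t}
    (h : vv hn p s = vv hn p' s') : p = p' ∧ s = s' := by
  have h1 : 5 * (F * M) + t * (p : ℕ) + (s : ℕ) = 5 * (F * M) + t * (p' : ℕ) + (s' : ℕ) :=
    congrArg Fin.val h
  obtain ⟨h2, h3⟩ := madd s.2 s'.2 (show t * (p : ℕ) + s = t * (p' : ℕ) + s' by omega)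
  exact ⟨Fin.ext h2, Fin.ext h3⟩

private theorem uv_ne (hn : (5 * F + t) * M ≤ n) {f : Fin F} {p p' : Fin M} {c : ZMod 5}
    {s : Fin t} (h : uu hn f p c = vv hn p' s) : False := by
  have h1 : 5 * (M * (f : ℕ) + (p : ℕ)) + c.val = 5 * (F * M) + t * (p' : ℕ) + (s : ℕ) :=
    congrArg Fin.val h
  have h2 := val5 c
  have h3 := mf_lt f p
  omega

/-- the edges -/
private def ed (hn : (5 * F + t) * M ≤ n) (ce : Fin B → Fin t × Fin t) : Ix M B F → Sym2 (Fin n)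
  | Sum.inl (f, p, c) => s(uu hn f p c, uu hn f p (c + 1))
  | Sum.inr (Sum.inl (f, p, c)) => s(uu hn f p c, uu hn f p (c + 2))
  | Sum.inr (Sum.inr (h, p)) => s(vv hn p (ce h).1, vv hn p (ce h).2)

/-- the slots -/
private def sl (σ : Fin F → Equiv.Perm (Fin M)) (τ : Fin B → Equiv.Perm (Fin M)) : Ix M B F → ℕ
  | Sum.inl (_, p, _) => (p : ℕ)
  | Sum.inr (Sum.inl (f, p, _)) => (σ f p : ℕ)
  | Sum.inr (Sum.inr (h, p)) => (τ h p : ℕ)

/-- the offsets -/
private def os : Ix M B F → ℕ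
  | Sum.inl (f, _, c) => 10 * (f : ℕ) + c.val
  | Sum.inr (Sum.inl (f, _, c)) => 10 * (f : ℕ) + 5 + c.val
  | Sum.inr (Sum.inr (h, _)) => 10 * F + (h : ℕ)

/-- the positions -/
private def po (σ : Fin F → Equiv.Perm (Fin M)) (τ : Fin B → Equiv.Perm (Fin M))
    (i : Ix M B F) : ℕ := (10 * F + B) * sl σ τ i + os i

private theorem sl_lt (σ : Fin F → Equiv.Perm (Fin M)) (τ : Fin B → Equiv.Perm (Fin M))
    (i : Ix M B F) : sl σ τ i < M := by
  rcases i with ⟨f, p, c⟩ | ⟨f, p, c⟩ | ⟨h, p⟩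
  · exact p.2
  · exact (σ f p).2
  · exact (τ h p).2

private theorem os_lt (i : Ix M B F) : os i < 10 * F + B := by
  rcases i with ⟨f, p, c⟩ | ⟨f, p, c⟩ | ⟨h, p⟩
  · change 10 * (f : ℕ) + c.val < _
    have h1 := val5 c
    have h2 := f.2
    omega
  · change 10 * (f : ℕ) + 5 + c.val < _
    have h1 := val5 c
    have h2 := f.2
    omega
  · change 10 * F + (h : ℕ) < _
    have h2 := h.2
    omega

private theorem z5 : ∀ c : ZMod 5, c = c + 1 → False := by decide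

private theorem z6 : ∀ c : ZMod 5, c = c + 2 → False := by decide

private theorem ed_diag (hn : (5 * F + t) * M ≤ n) {ce : Fin B → Fin t × Fin t}
    (hce1 : ∀ h, (ce h).1 < (ce h).2) (i : Ix M B F) : ¬ (ed hn ce i).IsDiag := by
  rcases i with ⟨f, p, c⟩ | ⟨f, p, c⟩ | ⟨h, p⟩
  · change ¬ (s(uu hn f p c, uu hn f p (c + 1)) : Sym2 (Fin n)).IsDiag
    rw [Sym2.mk_isDiag_iff]
    intro h
    exact z5 _ (uu_inj hn h).2.2
  · change ¬ (s(uu hn f p c, uu hn f p (c + 2)) : Sym2 (Fin n)).IsDiag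
    rw [Sym2.mk_isDiag_iff]
    intro h
    exact z6 _ (uu_inj hn h).2.2
  · change ¬ (s(vv hn p (ce h).1, vv hn p (ce h).2) : Sym2 (Fin n)).IsDiag
    rw [Sym2.mk_isDiag_iff]
    intro h'
    have h1 := (vv_inj hn h').2
    exact absurd h1 (hce1 h).ne

private theorem z1 : ∀ c c' : ZMod 5, c = c' + 1 → c + 1 = c' → False := by decide

private theorem z2 : ∀ c c' : ZMod 5, c = c' + 2 → c + 2 = c' → False := by decide

private theorem z3 : ∀ c c' : ZMod 5, c = c' → c + 1 = c' + 2 → False := by decide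

private theorem z4 : ∀ c c' : ZMod 5, c = c' + 2 → c + 1 = c' → False := by decide

private theorem uvs (hn : (5 * F + t) * M ≤ n) {f : Fin F} {p p' : Fin M} {c d : ZMod 5}
    {s r : Fin t}
    (h : (s(uu hn f p c, uu hn f p d) : Sym2 (Fin n)) = s(vv hn p' s, vv hn p' r)) : False := by
  rw [Sym2.eq_iff] at h
  rcases h with h | h
  · exact uv_ne hn h.1
  · exact uv_ne hn h.1

private theorem ed_inj (hn : (5 * F + t) * M ≤ n) {ce : Fin B → Fin t × Fin t}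
    (hce : Function.Injective ce) (hce1 : ∀ h, (ce h).1 < (ce h).2) :
    Function.Injective (ed hn ce : Ix M B F → Sym2 (Fin n)) := by
  rintro (⟨f, p, c⟩ | ⟨f, p, c⟩ | ⟨h, p⟩) (⟨f', p', c'⟩ | ⟨f', p', c'⟩ | ⟨h', p'⟩) he
  · have h1 : (s(uu hn f p c, uu hn f p (c + 1)) : Sym2 (Fin n)) =
      s(uu hn f' p' c', uu hn f' p' (c' + 1)) := he
    rw [Sym2.eq_iff] at h1
    rcases h1 with ⟨h1, h2⟩ | ⟨h1, h2⟩
    · obtain ⟨rfl, rfl, rfl⟩ := uu_inj hn h1
      rfl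
    · exact (z1 _ _ (uu_inj hn h1).2.2 (uu_inj hn h2).2.2).elim
  · have h1 : (s(uu hn f p c, uu hn f p (c + 1)) : Sym2 (Fin n)) =
      s(uu hn f' p' c', uu hn f' p' (c' + 2)) := he
    rw [Sym2.eq_iff] at h1
    rcases h1 with ⟨h1, h2⟩ | ⟨h1, h2⟩
    · exact (z3 _ _ (uu_inj hn h1).2.2 (uu_inj hn h2).2.2).elim
    · exact (z4 _ _ (uu_inj hn h1).2.2 (uu_inj hn h2).2.2).elim
  · exact (uvs hn he).elim
  · have h1 : (s(uu hn f' p' c', uu hn f' p' (c' + 1)) : Sym2 (Fin n)) =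
      s(uu hn f p c, uu hn f p (c + 2)) := he.symm
    rw [Sym2.eq_iff] at h1
    rcases h1 with ⟨h1, h2⟩ | ⟨h1, h2⟩
    · exact (z3 _ _ (uu_inj hn h1).2.2 (uu_inj hn h2).2.2).elim
    · exact (z4 _ _ (uu_inj hn h1).2.2 (uu_inj hn h2).2.2).elim
  · have h1 : (s(uu hn f p c, uu hn f p (c + 2)) : Sym2 (Fin n)) =
      s(uu hn f' p' c', uu hn f' p' (c' + 2)) := he
    rw [Sym2.eq_iff] at h1
    rcases h1 with ⟨h1, h2⟩ | ⟨h1, h2⟩
    · obtain ⟨rfl, rfl, rfl⟩ := uu_inj hn h1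
      rfl
    · exact (z2 _ _ (uu_inj hn h1).2.2 (uu_inj hn h2).2.2).elim
  · exact (uvs hn he).elim
  · exact (uvs hn he.symm).elim
  · exact (uvs hn he.symm).elim
  · have h1 : (s(vv hn p (ce h).1, vv hn p (ce h).2) : Sym2 (Fin n)) =
      s(vv hn p' (ce h').1, vv hn p' (ce h').2) := he
    rw [Sym2.eq_iff] at h1
    rcases h1 with ⟨h1, h2⟩ | ⟨h1, h2⟩
    · obtain ⟨rfl, h3⟩ := vv_inj hn h1
      have h4 := (vv_inj hn h2).2
      have h5 : h = h' := hce (Prod.ext h3 h4)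
      rw [h5]
    · have h3 := (vv_inj hn h1).2
      have h4 := (vv_inj hn h2).2
      have h5 := hce1 h
      rw [h3, h4] at h5
      exact absurd h5 (hce1 h').asymm

private theorem so_inj (σ : Fin F → Equiv.Perm (Fin M)) (τ : Fin B → Equiv.Perm (Fin M))
    (i j : Ix M B F) (h1 : sl σ τ i = sl σ τ j) (h2 : os i = os j) : i = j := by
  rcases i with ⟨f, p, c⟩ | ⟨f, p, c⟩ | ⟨h, p⟩ <;>
    rcases j with ⟨f', p', c'⟩ | ⟨f', p', c'⟩ | ⟨h', p'⟩
  · have h3 : (p : ℕ) = (p' : ℕ) := h1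
    have h4 : 10 * (f : ℕ) + c.val = 10 * (f' : ℕ) + c'.val := h2
    have h5 := val5 c
    have h6 := val5 c'
    have h7 : (f : ℕ) = (f' : ℕ) := by omega
    have h8 : c.val = c'.val := by omega
    rw [Fin.ext h3, Fin.ext h7, ZMod.val_injective 5 h8]
  · have h4 : 10 * (f : ℕ) + c.val = 10 * (f' : ℕ) + 5 + c'.val := h2
    have h5 := val5 c
    have h6 := val5 c'
    omega
  · have h4 : 10 * (f : ℕ) + c.val = 10 * F + (h' : ℕ) := h2
    have h5 := val5 c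
    have h6 := f.2
    omega
  · have h4 : 10 * (f : ℕ) + 5 + c.val = 10 * (f' : ℕ) + c'.val := h2
    have h5 := val5 c
    have h6 := val5 c'
    omega
  · have h3 : (σ f p : ℕ) = (σ f' p' : ℕ) := h1
    have h4 : 10 * (f : ℕ) + 5 + c.val = 10 * (f' : ℕ) + 5 + c'.val := h2
    have h5 := val5 c
    have h6 := val5 c'
    have h7 : (f : ℕ) = (f' : ℕ) := by omega
    have h8 : c.val = c'.val := by omega
    obtain rfl := Fin.ext h7
    rw [(σ f).injective (Fin.ext h3), ZMod.val_injective 5 h8]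
  · have h4 : 10 * (f : ℕ) + 5 + c.val = 10 * F + (h' : ℕ) := h2
    have h5 := val5 c
    have h6 := f.2
    omega
  · have h4 : 10 * F + (h : ℕ) = 10 * (f' : ℕ) + c'.val := h2
    have h5 := val5 c'
    have h6 := f'.2
    omega
  · have h4 : 10 * F + (h : ℕ) = 10 * (f' : ℕ) + 5 + c'.val := h2
    have h5 := val5 c'
    have h6 := f'.2
    omega
  · have h3 : (τ h p : ℕ) = (τ h' p' : ℕ) := h1
    have h4 : 10 * F + (h : ℕ) = 10 * F + (h' : ℕ) := h2
    have h7 : (h : ℕ) = (h' : ℕ) := by omega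
    obtain rfl := Fin.ext h7
    rw [(τ h).injective (Fin.ext h3)]

private theorem po_inj (σ : Fin F → Equiv.Perm (Fin M)) (τ : Fin B → Equiv.Perm (Fin M)) :
    Function.Injective (po σ τ : Ix M B F → ℕ) := by
  intro i j h
  obtain ⟨h1, h2⟩ := madd (os_lt i) (os_lt j) h
  exact so_inj σ τ i j h1 h2

private theorem po_lt (σ : Fin F → Equiv.Perm (Fin M)) (τ : Fin B → Equiv.Perm (Fin M))
    (i : Ix M B F) : po σ τ i < (10 * F + B) * M := by
  have h1 := os_lt i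
  have h2 : (10 * F + B) * (sl σ τ i + 1) ≤ (10 * F + B) * M :=
    Nat.mul_le_mul_left _ (sl_lt σ τ i)
  rw [Nat.mul_succ] at h2
  unfold po
  omega

private theorem so_surj (σ : Fin F → Equiv.Perm (Fin M)) (τ : Fin B → Equiv.Perm (Fin M))
    {s o : ℕ} (hs : s < M) (ho : o < 10 * F + B) :
    ∃ j : Ix M B F, sl σ τ j = s ∧ os j = o := by
  have hc : ∀ x : ℕ, x < 5 → ((x : ℕ) : ZMod 5).val = x := by
    intro x hx
    rw [ZMod.val_natCast]
    omega
  by_cases h1 : o < 10 * F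
  · have hf : o / 10 < F := by omega
    by_cases h2 : o % 10 < 5
    · refine ⟨Sum.inl (⟨o / 10, hf⟩, ⟨s, hs⟩, ((o % 10 : ℕ) : ZMod 5)), rfl, ?_⟩
      change 10 * (o / 10) + ((o % 10 : ℕ) : ZMod 5).val = o
      rw [hc _ h2]
      omega
    · refine ⟨Sum.inr (Sum.inl (⟨o / 10, hf⟩, (σ ⟨o / 10, hf⟩).symm ⟨s, hs⟩,
        ((o % 10 - 5 : ℕ) : ZMod 5))), ?_, ?_⟩
      · change ((σ ⟨o / 10, hf⟩ ((σ ⟨o / 10, hf⟩).symm ⟨s, hs⟩) : Fin M) : ℕ) = s
        rw [Equiv.apply_symm_apply]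
      · change 10 * (o / 10) + 5 + ((o % 10 - 5 : ℕ) : ZMod 5).val = o
        rw [hc _ (by omega)]
        omega
  · have hh : o - 10 * F < B := by omega
    refine ⟨Sum.inr (Sum.inr (⟨o - 10 * F, hh⟩, (τ ⟨o - 10 * F, hh⟩).symm ⟨s, hs⟩)), ?_, ?_⟩
    · change ((τ ⟨o - 10 * F, hh⟩ ((τ ⟨o - 10 * F, hh⟩).symm ⟨s, hs⟩) : Fin M) : ℕ) = s
      rw [Equiv.apply_symm_apply]
    · change 10 * F + (o - 10 * F) = o
      omega

private theorem po_surj (σ : Fin F → Equiv.Perm (Fin M)) (τ : Fin B → Equiv.Perm (Fin M))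
    {i : ℕ} (hi : i < (10 * F + B) * M) : ∃ j : Ix M B F, po σ τ j = i := by
  have hw : 0 < 10 * F + B := by
    rcases Nat.eq_zero_or_pos (10 * F + B) with h | h
    · rw [h] at hi
      simp at hi
    · exact h
  have h1 : i / (10 * F + B) < M := by
    rw [Nat.div_lt_iff_lt_mul hw, Nat.mul_comm]
    exact hi
  obtain ⟨j, h2, h3⟩ := so_surj σ τ h1 (Nat.mod_lt i hw)
  refine ⟨j, ?_⟩
  unfold po
  rw [h2, h3]
  exact Nat.div_add_mod i (10 * F + B)

/-- the order -/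
private noncomputable def gg (hn : (5 * F + t) * M ≤ n) (ce : Fin B → Fin t × Fin t)
    (σ : Fin F → Equiv.Perm (Fin M)) (τ : Fin B → Equiv.Perm (Fin M)) (e : Sym2 (Fin n)) : ℕ := by
  classical
  exact if h : ∃ i : Ix M B F, ed hn ce i = e then po σ τ h.choose else 0

private theorem gg_ed (hn : (5 * F + t) * M ≤ n) {ce : Fin B → Fin t × Fin t}
    (hce : Function.Injective ce) (hce1 : ∀ h, (ce h).1 < (ce h).2)
    (σ : Fin F → Equiv.Perm (Fin M)) (τ : Fin B → Equiv.Perm (Fin M)) (i : Ix M B F) :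
    gg hn ce σ τ (ed hn ce i) = po σ τ i := by
  classical
  have h : ∃ j : Ix M B F, ed hn ce j = ed hn ce i := ⟨i, rfl⟩
  unfold gg
  rw [dif_pos h]
  rw [ed_inj hn hce hce1 h.choose_spec]

private theorem zne : ∀ a b : ZMod 5, a ≠ b →
    b = a + 1 ∨ a = b + 1 ∨ b = a + 2 ∨ a = b + 2 := by decide

private theorem mem_ed (hn : (5 * F + t) * M ≤ n) {ce : Fin B → Fin t × Fin t}
    (hce1 : ∀ h, (ce h).1 < (ce h).2) (e : Sym2 (Fin n)) :
    e ∈ (SimpleGraph.fromEdgeSet (Set.range (ed hn ce : Ix M B F → Sym2 (Fin n)))).edgeSet ↔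
      ∃ i, ed hn ce i = e := by
  rw [SimpleGraph.edgeSet_fromEdgeSet]
  constructor
  · rintro ⟨h, -⟩
    exact h
  · rintro ⟨i, rfl⟩
    exact ⟨⟨i, rfl⟩, ed_diag hn hce1 i⟩

private theorem adj_block (hn : (5 * F + t) * M ≤ n) {ce : Fin B → Fin t × Fin t}
    (hce1 : ∀ h, (ce h).1 < (ce h).2) {x y : Fin n}
    (h : s(x, y) ∈
      (SimpleGraph.fromEdgeSet (Set.range (ed hn ce : Ix M B F → Sym2 (Fin n)))).edgeSet) :
    (∃ f p, x ∈ Set.range (uu hn f p) ∧ y ∈ Set.range (uu hn f p)) ∨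
      ∃ p, x ∈ Set.range (vv hn p) ∧ y ∈ Set.range (vv hn p) := by
  rw [mem_ed hn hce1] at h
  obtain ⟨i, hi⟩ := h
  rcases i with ⟨f, p, c⟩ | ⟨f, p, c⟩ | ⟨h, p⟩
  · left
    have h1 : (s(uu hn f p c, uu hn f p (c + 1)) : Sym2 (Fin n)) = s(x, y) := hi
    rw [Sym2.eq_iff] at h1
    rcases h1 with ⟨h1, h2⟩ | ⟨h1, h2⟩
    · exact ⟨f, p, ⟨_, h1⟩, ⟨_, h2⟩⟩
    · exact ⟨f, p, ⟨_, h2⟩, ⟨_, h1⟩⟩
  · left
    have h1 : (s(uu hn f p c, uu hn f p (c + 2)) : Sym2 (Fin n)) = s(x, y) := hi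
    rw [Sym2.eq_iff] at h1
    rcases h1 with ⟨h1, h2⟩ | ⟨h1, h2⟩
    · exact ⟨f, p, ⟨_, h1⟩, ⟨_, h2⟩⟩
    · exact ⟨f, p, ⟨_, h2⟩, ⟨_, h1⟩⟩
  · right
    have h1 : (s(vv hn p (ce h).1, vv hn p (ce h).2) : Sym2 (Fin n)) = s(x, y) := hi
    rw [Sym2.eq_iff] at h1
    rcases h1 with ⟨h1, h2⟩ | ⟨h1, h2⟩
    · exact ⟨p, ⟨_, h1⟩, ⟨_, h2⟩⟩
    · exact ⟨p, ⟨_, h2⟩, ⟨_, h1⟩⟩

private theorem rangecard {α : Type} [Fintype α] {m : ℕ} (f : α → Fin m) (A : Set (Fin m))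
    (h : A ⊆ Set.range f) : A.ncard ≤ Fintype.card α := by
  classical
  calc A.ncard ≤ (Set.range f).ncard := Set.ncard_le_ncard h (Set.toFinite _)
    _ = (f '' Set.univ).ncard := by rw [Set.image_univ]
    _ ≤ (Set.univ : Set α).ncard := Set.ncard_image_le (Set.toFinite _)
    _ = Fintype.card α := by rw [Set.ncard_univ, Nat.card_eq_fintype_card]

private theorem deg_le (hn : (5 * F + t) * M ≤ n) (ht : 5 ≤ t) {ce : Fin B → Fin t × Fin t}
    (hce1 : ∀ h, (ce h).1 < (ce h).2) (x : Fin n) :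
    ((SimpleGraph.fromEdgeSet
      (Set.range (ed hn ce : Ix M B F → Sym2 (Fin n)))).neighborSet x).ncard ≤ t := by
  by_cases h1 : ∃ f p, x ∈ Set.range (uu hn f p)
  · obtain ⟨f, p, c, hc⟩ := h1
    have h2 : ((SimpleGraph.fromEdgeSet
      (Set.range (ed hn ce : Ix M B F → Sym2 (Fin n)))).neighborSet x) ⊆
        Set.range (uu hn f p) := by
      intro y hy
      rcases adj_block hn hce1 (show s(x, y) ∈ _ from hy) with ⟨g, q, hq, hy'⟩ | ⟨q, hq, hy'⟩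
      · obtain ⟨d, hd⟩ := hq
        have h3 := uu_inj hn (hc.trans hd.symm)
        rw [h3.1, h3.2.1]
        exact hy'
      · obtain ⟨d, hd⟩ := hq
        exact (uv_ne hn (hc.trans hd.symm)).elim
    refine (rangecard (uu hn f p) _ h2).trans ?_
    rw [ZMod.card]
    exact ht
  by_cases h2 : ∃ p, x ∈ Set.range (vv hn p)
  · obtain ⟨p, c, hc⟩ := h2
    have h2 : ((SimpleGraph.fromEdgeSet
      (Set.range (ed hn ce : Ix M B F → Sym2 (Fin n)))).neighborSet x) ⊆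
        Set.range (vv hn p) := by
      intro y hy
      rcases adj_block hn hce1 (show s(x, y) ∈ _ from hy) with ⟨g, q, hq, hy'⟩ | ⟨q, hq, hy'⟩
      · exact absurd ⟨g, q, hq⟩ h1
      · obtain ⟨d, hd⟩ := hq
        have h3 := (vv_inj hn (hc.trans hd.symm)).1
        rw [h3]
        exact hy'
    refine (rangecard (vv hn p) _ h2).trans ?_
    rw [Fintype.card_fin]
  · have h3 : ((SimpleGraph.fromEdgeSet
      (Set.range (ed hn ce : Ix M B F → Sym2 (Fin n)))).neighborSet x) = ∅ := by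
      rw [Set.eq_empty_iff_forall_notMem]
      intro y hy
      rcases adj_block hn hce1 (show s(x, y) ∈ _ from hy) with ⟨g, q, hq, -⟩ | ⟨q, hq, -⟩
      · exact h1 ⟨g, q, hq⟩
      · exact h2 ⟨q, hq⟩
    rw [h3, Set.ncard_empty]
    exact Nat.zero_le _

end Design

theorem exists_design (M t B F n : ℕ) (ht : 5 ≤ t) (hn : (5 * F + t) * M ≤ n)
    (σ : Fin F → Equiv.Perm (Fin M)) (τ : Fin B → Equiv.Perm (Fin M))
    (ce : Fin B → Fin t × Fin t) (hce : Function.Injective ce)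
    (hce1 : ∀ h, (ce h).1 < (ce h).2) (hce2 : ∀ a b : Fin t, a < b → ∃ h, ce h = (a, b)) :
    ∃ (H : SimpleGraph (Fin n)) (g : Sym2 (Fin n) → ℕ) (u : Fin F → Fin M → ZMod 5 → Fin n)
      (v : Fin M → Fin t → Fin n), IsDesign n M t B F σ τ ce H g u v := by
  refine ⟨SimpleGraph.fromEdgeSet (Set.range (ed hn ce)), gg hn ce σ τ, uu hn, vv hn, ?_⟩
  have hg := gg_ed hn hce hce1 σ τ
  have hm := mem_ed hn hce1
  refine ⟨fun f p c c' h => (uu_inj hn h).2.2, fun p s s' h => (vv_inj hn h).2,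
    deg_le hn ht hce1, ?_, ?_, ?_, ?_, ?_, ?_, ?_, ?_⟩
  · intro e he e' he' h
    rw [hm] at he he'
    obtain ⟨i, rfl⟩ := he
    obtain ⟨i', rfl⟩ := he'
    rw [hg, hg] at h
    rw [po_inj σ τ h]
  · intro f p a b hab
    rw [hm]
    rcases zne a b hab with rfl | rfl | rfl | rfl
    · exact ⟨Sum.inl (f, p, a), rfl⟩
    · exact ⟨Sum.inl (f, p, b), Sym2.eq_swap⟩
    · exact ⟨Sum.inr (Sum.inl (f, p, a)), rfl⟩
    · exact ⟨Sum.inr (Sum.inl (f, p, b)), Sym2.eq_swap⟩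
  · intro p a b hab
    rw [hm]
    rcases lt_or_gt_of_ne hab with h | h
    · obtain ⟨h', hh⟩ := hce2 a b h
      refine ⟨Sum.inr (Sum.inr (h', p)), ?_⟩
      change (s(vv hn p (ce h').1, vv hn p (ce h').2) : Sym2 (Fin n)) = _
      rw [hh]
    · obtain ⟨h', hh⟩ := hce2 b a h
      refine ⟨Sum.inr (Sum.inr (h', p)), ?_⟩
      change (s(vv hn p (ce h').1, vv hn p (ce h').2) : Sym2 (Fin n)) = _
      rw [hh]
      exact Sym2.eq_swap
  · intro f p c
    exact hg (Sum.inl (f, p, c))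
  · intro f p c
    exact hg (Sum.inr (Sum.inl (f, p, c)))
  · intro h p
    exact hg (Sum.inr (Sum.inr (h, p)))
  · intro e he
    rw [hm] at he
    obtain ⟨i, rfl⟩ := he
    rw [hg]
    exact po_lt σ τ i
  · intro i hi
    obtain ⟨j, hj⟩ := po_surj σ τ hi
    refine ⟨ed hn ce j, (hm _).2 ⟨j, rfl⟩, ?_⟩
    rw [hg, hj]

end Pool.Agent.UCT
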