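import Pool.Agent.UCT.Defs

/-!
# UCT Fat: edges with many near edges, and slots in large windows

PROOF. `c_g` = the number of `i < w M` with `R i / L = g`. If more than `Y` indices `i'` have
`|R i - R i'| ≤ x ≤ L` then (their windows are `g - 1`, `g`, `g + 1`, `g = R i / L`) one of the
three windows `g - 1`, `g`, `g + 1` is heavy: `3 c > Y`. The number of these `i` is at most
`3 * ∑ c_g` over the heavy `g`: an `i` in a heavy window is counted there; the window of another
such `i` is not heavy, so it has `c ≤ Y / 3`, less than the heavy window next to it, and each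
heavy window has two neighbours. For a heavy window, `c_g > Y / 3 ≥ 2 w`, the indices are
consecutive (`R` increasing below `w M`), so at least `c_g / w - 1 ≥ c_g / (2 w)` of them are multiples `w s`
(precisely: the number `n_g` of slots `s < M` with `R (w s) / L = g` satisfies
`c_g ≤ w (n_g + 1)`, so `2 w n_g ≥ 2 c_g - 2 w ≥ c_g`). These slots have
`6 w * (size of the class of s) = 6 w n_g ≥ 3 c_g > Y`.
-/

set_option autoImplicit false

namespace Pool.Agent.UCT

/-- the window of an index is monotone -/
private lemma win_mono {N L : ℕ} {R : ℕ → ℕ} (hR : ∀ i j : ℕ, i < j → j < N → R i < R j)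
    {i j : ℕ} (hij : i ≤ j) (hj : j < N) : R i / L ≤ R j / L := by
  rcases Nat.lt_or_eq_of_le hij with h | h
  · exact Nat.div_le_div_right (hR i j h hj).le
  · rw [h]

/-- a class of indices is covered by the blocks of its slots and one more block -/
private lemma class_le (M w L h : ℕ) (R : ℕ → ℕ)
    (hR : ∀ i j : ℕ, i < j → j < w * M → R i < R j) (hw : 0 < w) :
    ((Finset.range (w * M)).filter (fun i => R i / L = h)).card ≤
      w * (Finset.univ.filter (fun s : Fin M => R (w * (s : ℕ)) / L = h)).card + w := by
  classical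
  set K := (Finset.range (w * M)).filter (fun i => R i / L = h) with hK
  rcases K.eq_empty_or_nonempty with he | hne
  · rw [he]; simp
  obtain ⟨a, haK, hamin⟩ := K.exists_min_image id hne
  have ha : a < w * M ∧ R a / L = h := by
    rw [hK, Finset.mem_filter, Finset.mem_range] at haK
    exact haK
  have hsub : K ⊆ (Finset.univ.filter (fun s : Fin M => R (w * (s : ℕ)) / L = h)).biUnion
      (fun s => Finset.Ico (w * (s : ℕ)) (w * (s : ℕ) + w)) ∪
      Finset.Ico (w * (a / w)) (w * (a / w) + w) := by
    intro i hi
    have hiK := hi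
    rw [hK, Finset.mem_filter, Finset.mem_range] at hi
    obtain ⟨hiN, hih⟩ := hi
    have hdm : w * (i / w) + i % w = i := Nat.div_add_mod i w
    have hml : i % w < w := Nat.mod_lt i hw
    have hsM : i / w < M := Nat.div_lt_of_lt_mul hiN
    by_cases hs : R (w * (i / w)) / L = h
    · apply Finset.mem_union_left
      rw [Finset.mem_biUnion]
      refine ⟨⟨i / w, hsM⟩, ?_, ?_⟩
      · rw [Finset.mem_filter]
        exact ⟨Finset.mem_univ _, hs⟩
      · rw [Finset.mem_Ico]
        simp only
        omega
    · apply Finset.mem_union_right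
      have hlt : w * (i / w) < a := by
        by_contra hcon
        have h1 : a ≤ w * (i / w) := Nat.le_of_not_lt hcon
        have h2 : w * (i / w) < w * M := by omega
        have h3 : R a / L ≤ R (w * (i / w)) / L := win_mono hR h1 h2
        have h4 : R (w * (i / w)) / L ≤ R i / L := win_mono hR (by omega) hiN
        apply hs
        rw [ha.2] at h3
        rw [hih] at h4
        omega
      have hai : a ≤ i := hamin i hiK
      have haw : a / w = i / w := by
        apply Nat.div_eq_of_lt_le
        · rw [Nat.mul_comm]; exact hlt.le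
        · rw [Nat.succ_mul, Nat.mul_comm]; omega
      rw [haw, Finset.mem_Ico]
      omega
  calc K.card ≤ _ := Finset.card_le_card hsub
    _ ≤ ((Finset.univ.filter (fun s : Fin M => R (w * (s : ℕ)) / L = h)).biUnion
      (fun s => Finset.Ico (w * (s : ℕ)) (w * (s : ℕ) + w))).card +
      (Finset.Ico (w * (a / w)) (w * (a / w) + w)).card := Finset.card_union_le _ _
    _ ≤ (Finset.univ.filter (fun s : Fin M => R (w * (s : ℕ)) / L = h)).card * w + w := by
      apply Nat.add_le_add
      · apply Finset.card_biUnion_le_card_mul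
        intro s _
        rw [Nat.card_Ico]
        omega
      · rw [Nat.card_Ico]
        omega
    _ = _ := by rw [Nat.mul_comm]

/-- indices with many near indices lie in or next to a heavy window -/
private lemma near_heavy (N L Y : ℕ) (x : ℝ) (R : ℕ → ℕ) (hL : 0 < L) (hx : x ≤ (L : ℝ))
    (i : ℕ)
    (hY : Y < ((Finset.range N).filter (fun i' =>
      (((R i - R i') + (R i' - R i) : ℕ) : ℝ) ≤ x)).card) :
    ∃ h, Y < 3 * ((Finset.range N).filter (fun k => R k / L = h)).card ∧
      (R i / L = h ∨ R i / L = h + 1 ∨ R i / L + 1 = h) := by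
  classical
  set g := R i / L with hg
  set near := (Finset.range N).filter (fun i' =>
      (((R i - R i') + (R i' - R i) : ℕ) : ℝ) ≤ x) with hnear
  have hsub : near ⊆ ((Finset.range N).filter (fun k => R k / L = g)) ∪
      (((Finset.range N).filter (fun k => R k / L = g + 1)) ∪
        ((Finset.range N).filter (fun k => R k / L + 1 = g))) := by
    intro k hk
    rw [hnear, Finset.mem_filter] at hk
    obtain ⟨hkN, hkx⟩ := hk
    have h1 : (R i - R k) + (R k - R i) ≤ L := by
      have := hkx.trans hx
      exact_mod_cast this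
    have h2 : R k / L ≤ g + 1 := by
      have : R k ≤ R i + L := by omega
      calc R k / L ≤ (R i + L) / L := Nat.div_le_div_right this
        _ = g + 1 := by rw [Nat.add_div_right _ hL]
    have h3 : g ≤ R k / L + 1 := by
      have : R i ≤ R k + L := by omega
      calc g ≤ (R k + L) / L := Nat.div_le_div_right this
        _ = R k / L + 1 := by rw [Nat.add_div_right _ hL]
    simp only [Finset.mem_union, Finset.mem_filter]
    have h4 : R k / L = g ∨ R k / L = g + 1 ∨ R k / L + 1 = g := by omega
    rcases h4 with h4 | h4 | h4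
    · exact Or.inl ⟨hkN, h4⟩
    · exact Or.inr (Or.inl ⟨hkN, h4⟩)
    · exact Or.inr (Or.inr ⟨hkN, h4⟩)
  have hc := (Finset.card_le_card hsub).trans (Finset.card_union_le _ _)
  have hc2 := Finset.card_union_le ((Finset.range N).filter (fun k => R k / L = g + 1))
    ((Finset.range N).filter (fun k => R k / L + 1 = g))
  by_cases hA : Y < 3 * ((Finset.range N).filter (fun k => R k / L = g)).card
  · exact ⟨g, hA, Or.inl rfl⟩
  by_cases hB : Y < 3 * ((Finset.range N).filter (fun k => R k / L = g + 1)).card
  · exact ⟨g + 1, hB, Or.inr (Or.inr rfl)⟩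
  have hC : Y < 3 * ((Finset.range N).filter (fun k => R k / L + 1 = g)).card := by omega
  have hpos : 0 < ((Finset.range N).filter (fun k => R k / L + 1 = g)).card := by omega
  obtain ⟨k0, hk0⟩ := Finset.card_pos.mp hpos
  rw [Finset.mem_filter] at hk0
  refine ⟨R k0 / L, ?_, Or.inr (Or.inl hk0.2.symm)⟩
  have he : (Finset.range N).filter (fun k => R k / L = R k0 / L) =
      (Finset.range N).filter (fun k => R k / L + 1 = g) := by
    ext k
    simp only [Finset.mem_filter]
    have := hk0.2
    constructor
    · rintro ⟨h1, h2⟩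
      exact ⟨h1, by omega⟩
    · rintro ⟨h1, h2⟩
      exact ⟨h1, by omega⟩
  rw [he]
  exact hC

open Classical in
theorem fat (M w L Y : ℕ) (x : ℝ) (R : ℕ → ℕ) (hR : ∀ i j : ℕ, i < j → j < w * M → R i < R j)
    (hw : 0 < w) (hL : 0 < L) (hx : x ≤ (L : ℝ)) (hY : 6 * w ≤ Y) :
    ((Finset.range (w * M)).filter (fun i => Y < ((Finset.range (w * M)).filter (fun i' =>
      (((R i - R i') + (R i' - R i) : ℕ) : ℝ) ≤ x)).card)).card ≤
    6 * w * (Finset.univ.filter (fun s : Fin M => Y ≤ 6 * w *
      (Finset.univ.filter (fun s' : Fin M =>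
        R (w * (s' : ℕ)) / L = R (w * (s : ℕ)) / L)).card)).card := by
  set N := w * M with hN
  let c : ℕ → ℕ := fun g => ((Finset.range N).filter (fun i => R i / L = g)).card
  let n : ℕ → ℕ := fun g =>
    (Finset.univ.filter (fun s : Fin M => R (w * (s : ℕ)) / L = g)).card
  let H : Finset ℕ := ((Finset.range N).image (fun i => R i / L)).filter (fun g => Y < 3 * c g)
  set B := (Finset.range N).filter (fun i => Y < ((Finset.range N).filter (fun i' =>
      (((R i - R i') + (R i' - R i) : ℕ) : ℝ) ≤ x)).card) with hB
  have hHmem : ∀ h, Y < 3 * c h → h ∈ H := by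
    intro h hh
    have hpos : 0 < c h := by omega
    obtain ⟨k0, hk0⟩ := Finset.card_pos.mp hpos
    rw [Finset.mem_filter] at hk0
    show h ∈ ((Finset.range N).image (fun i => R i / L)).filter (fun g => Y < 3 * c g)
    rw [Finset.mem_filter, Finset.mem_image]
    exact ⟨⟨k0, hk0.1, hk0.2⟩, hh⟩
  have hcover : B ⊆ H.biUnion (fun h => (Finset.range N).filter (fun i => R i / L = h) ∪
      ((Finset.range N).filter (fun i => R i / L = h + 1 ∧ 3 * c (h + 1) ≤ Y) ∪
        (Finset.range N).filter (fun i => R i / L + 1 = h ∧ 3 * c (h - 1) ≤ Y))) := by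
    intro i hi
    rw [hB, Finset.mem_filter] at hi
    obtain ⟨hiN, hiY⟩ := hi
    rw [Finset.mem_biUnion]
    by_cases hg : Y < 3 * c (R i / L)
    · refine ⟨R i / L, hHmem _ hg, ?_⟩
      apply Finset.mem_union_left
      rw [Finset.mem_filter]
      exact ⟨hiN, rfl⟩
    · obtain ⟨h, hh, hcase⟩ := near_heavy N L Y x R hL hx i hiY
      have hgle : 3 * c (R i / L) ≤ Y := Nat.le_of_not_lt hg
      refine ⟨h, hHmem h hh, ?_⟩
      rcases hcase with h1 | h1 | h1
      · apply Finset.mem_union_left
        rw [Finset.mem_filter]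
        exact ⟨hiN, h1⟩
      · apply Finset.mem_union_right
        apply Finset.mem_union_left
        rw [Finset.mem_filter]
        refine ⟨hiN, h1, ?_⟩
        rw [← h1]
        exact hgle
      · apply Finset.mem_union_right
        apply Finset.mem_union_right
        rw [Finset.mem_filter]
        refine ⟨hiN, h1, ?_⟩
        have : h - 1 = R i / L := by rw [← h1]; exact Nat.add_sub_cancel _ _
        rw [this]
        exact hgle
  have hHY : ∀ h ∈ H, Y < 3 * c h := by
    intro h hh
    have hh' : h ∈ ((Finset.range N).image (fun i => R i / L)).filter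
      (fun g => Y < 3 * c g) := hh
    rw [Finset.mem_filter] at hh'
    exact hh'.2
  have hpiece : ∀ h ∈ H, ((Finset.range N).filter (fun i => R i / L = h) ∪
      ((Finset.range N).filter (fun i => R i / L = h + 1 ∧ 3 * c (h + 1) ≤ Y) ∪
        (Finset.range N).filter (fun i => R i / L + 1 = h ∧ 3 * c (h - 1) ≤ Y))).card
      ≤ 6 * w * n h := by
    intro h hh
    have hY3 := hHY h hh
    have h0 : ((Finset.range N).filter (fun i => R i / L = h)).card = c h := rfl
    have h1 : ((Finset.range N).filter
        (fun i => R i / L = h + 1 ∧ 3 * c (h + 1) ≤ Y)).card ≤ c h := by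
      by_cases hle : 3 * c (h + 1) ≤ Y
      · have : ((Finset.range N).filter
            (fun i => R i / L = h + 1 ∧ 3 * c (h + 1) ≤ Y)).card ≤ c (h + 1) := by
          apply Finset.card_le_card
          intro i hi
          rw [Finset.mem_filter] at hi ⊢
          exact ⟨hi.1, hi.2.1⟩
        omega
      · have he : (Finset.range N).filter
            (fun i => R i / L = h + 1 ∧ 3 * c (h + 1) ≤ Y) = ∅ := by
          apply Finset.filter_eq_empty_iff.mpr
          intro i _ hcon
          exact hle hcon.2
        rw [he]
        exact Nat.zero_le _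
    have h2 : ((Finset.range N).filter
        (fun i => R i / L + 1 = h ∧ 3 * c (h - 1) ≤ Y)).card ≤ c h := by
      by_cases hle : 3 * c (h - 1) ≤ Y
      · have : ((Finset.range N).filter
            (fun i => R i / L + 1 = h ∧ 3 * c (h - 1) ≤ Y)).card ≤ c (h - 1) := by
          apply Finset.card_le_card
          intro i hi
          rw [Finset.mem_filter] at hi ⊢
          refine ⟨hi.1, ?_⟩
          rw [← hi.2.1]
          exact (Nat.add_sub_cancel _ _).symm
        omega
      · have he : (Finset.range N).filter
            (fun i => R i / L + 1 = h ∧ 3 * c (h - 1) ≤ Y) = ∅ := by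
          apply Finset.filter_eq_empty_iff.mpr
          intro i _ hcon
          exact hle hcon.2
        rw [he]
        exact Nat.zero_le _
    have hcl : c h ≤ w * n h + w := class_le M w L h R hR hw
    have hu := Finset.card_union_le ((Finset.range N).filter (fun i => R i / L = h))
      ((Finset.range N).filter (fun i => R i / L = h + 1 ∧ 3 * c (h + 1) ≤ Y) ∪
        (Finset.range N).filter (fun i => R i / L + 1 = h ∧ 3 * c (h - 1) ≤ Y))
    have hu2 := Finset.card_union_le
      ((Finset.range N).filter (fun i => R i / L = h + 1 ∧ 3 * c (h + 1) ≤ Y))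
      ((Finset.range N).filter (fun i => R i / L + 1 = h ∧ 3 * c (h - 1) ≤ Y))
    have hmul : 6 * w * n h = 6 * (w * n h) := by ring
    rw [hmul]
    omega
  have hslots : ∑ h ∈ H, n h ≤ (Finset.univ.filter (fun s : Fin M => Y ≤ 6 * w *
      (Finset.univ.filter (fun s' : Fin M =>
        R (w * (s' : ℕ)) / L = R (w * (s : ℕ)) / L)).card)).card := by
    have hdisj : ∀ h ∈ H, ∀ h' ∈ H, h ≠ h' → Disjoint
        (Finset.univ.filter (fun s : Fin M => R (w * (s : ℕ)) / L = h))
        (Finset.univ.filter (fun s : Fin M => R (w * (s : ℕ)) / L = h')) := by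
      intro h _ h' _ hne
      rw [Finset.disjoint_left]
      intro s hs hs'
      rw [Finset.mem_filter] at hs hs'
      exact hne (hs.2.symm.trans hs'.2)
    have hcard := Finset.card_biUnion hdisj
    have hsum : ∑ h ∈ H, n h = (H.biUnion (fun h =>
        Finset.univ.filter (fun s : Fin M => R (w * (s : ℕ)) / L = h))).card := hcard.symm
    rw [hsum]
    apply Finset.card_le_card
    intro s hs
    rw [Finset.mem_biUnion] at hs
    obtain ⟨h, hh, hsh⟩ := hs
    rw [Finset.mem_filter] at hsh ⊢
    refine ⟨Finset.mem_univ _, ?_⟩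
    have hY3 := hHY h hh
    have hcl : c h ≤ w * n h + w := class_le M w L h R hR hw
    have hne : (Finset.univ.filter (fun s' : Fin M =>
        R (w * (s' : ℕ)) / L = R (w * (s : ℕ)) / L)).card = n h := by
      rw [hsh.2]
    rw [hne]
    have hmul : 6 * w * n h = 6 * (w * n h) := by ring
    rw [hmul]
    omega
  calc B.card ≤ _ := Finset.card_le_card hcover
    _ ≤ ∑ h ∈ H, _ := Finset.card_biUnion_le
    _ ≤ ∑ h ∈ H, 6 * w * n h := Finset.sum_le_sum hpiece
    _ = 6 * w * ∑ h ∈ H, n h := by rw [Finset.mul_sum]
    _ ≤ _ := Nat.mul_le_mul_left _ hslots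

end Pool.Agent.UCT
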