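import Pool.Agent.UCT.NumDefs

/-!
# UCT NumBase: parameters, the basic inequalities

PROOF. For `n ≥ v`: `4 ^ l ≤ n / v < 4 ^ (l + 1)` with `l = Nat.log 4 (n / v)`,
`2 ^ kk v n = 4 ^ l` (`Nat.pow_log_le_self`, `Nat.lt_pow_succ_log_self`); `l → ∞`. With
`M = 2 ^ kk v n`:
`n / (16 v B) < M / (4 B)`, and `w (M / B - 1) ≥ M / B - 2 ≥ M / (4 B)` in reals for large `n`
(floor division: `M / B > M / B (real) - 1`); `M / (4 B) < M`. `b ≤ n ^ d`, `b ^ K ≤ n ^ (K d)`.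
`y_j ≥ n ^ (4 d) ≥ 2` for large `n`, all `j` (the exponent is at least `4 d`).
-/

set_option autoImplicit false

namespace Pool.Agent.UCT

open Filter

private theorem two_pow_kk (v n : ℕ) : 2 ^ kk v n = 4 ^ Nat.log 4 (n / v) := by
  unfold kk
  rw [pow_mul]
  norm_num

private theorem kk_le (v n : ℕ) (hv : 0 < v) (hn : v ≤ n) : v * 2 ^ kk v n ≤ n := by
  rw [two_pow_kk]
  have h1 : n / v ≠ 0 := (Nat.div_pos hn hv).ne'
  have h2 : 4 ^ Nat.log 4 (n / v) ≤ n / v := Nat.pow_log_le_self 4 h1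
  calc v * 4 ^ Nat.log 4 (n / v) ≤ v * (n / v) := Nat.mul_le_mul_left v h2
    _ ≤ n := Nat.mul_div_le n v

private theorem lt_kk (v n : ℕ) (hv : 0 < v) : n < 4 * v * 2 ^ kk v n := by
  rw [two_pow_kk]
  have h2 : n / v < 4 ^ (Nat.log 4 (n / v) + 1) :=
    Nat.lt_pow_succ_log_self (by norm_num) (n / v)
  have h3 : n < v * (n / v + 1) := Nat.lt_mul_div_succ n hv
  calc n < v * (n / v + 1) := h3
    _ ≤ v * 4 ^ (Nat.log 4 (n / v) + 1) := Nat.mul_le_mul_left v h2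
    _ = 4 * v * 4 ^ Nat.log 4 (n / v) := by rw [pow_succ]; ring

private theorem log_large (v z : ℕ) (hv : 0 < v) :
    ∀ᶠ n : ℕ in atTop, z + 1 ≤ 2 ^ Nat.log 4 (n / v) := by
  refine eventually_atTop.2 ⟨v * 4 ^ (z + 1), fun n hn => ?_⟩
  have h1 : 4 ^ (z + 1) ≤ n / v := by
    rw [Nat.le_div_iff_mul_le hv, mul_comm]
    exact hn
  have h2 : z + 1 ≤ Nat.log 4 (n / v) := by
    apply Nat.le_log_of_pow_le (by norm_num) h1
  calc z + 1 ≤ Nat.log 4 (n / v) := h2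
    _ ≤ 2 ^ Nat.log 4 (n / v) := Nat.lt_two_pow_self.le

theorem num_base (A ω d : ℝ) (K z v B w : ℕ) (hA : 0 < A) (hd : 0 < d) (hv : 0 < v) (hB : 0 < B)
    (hw : 0 < w) (hK : (K : ℝ) * d ≤ 1 + ω) :
    ∀ᶠ n : ℕ in atTop, 1 ≤ n ∧ v * 2 ^ kk v n ≤ n ∧ z + 1 ≤ 2 ^ Nat.log 4 (n / v) ∧
      0 < ⌊(n : ℝ) ^ A⌋₊ ∧ (∀ j : ℕ, 2 ≤ yj d n j) ∧
      ((bb d n ^ K : ℕ) : ℝ) ≤ (n : ℝ) ^ (1 + ω) ∧
      1 / (16 * (v : ℝ) * B) * n ≤ ((w * (2 ^ kk v n / B - 1) : ℕ) : ℝ) ∧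
      1 / (16 * (v : ℝ) * B) * n < (2 : ℝ) ^ kk v n := by
  filter_upwards [log_large v z hv, eventually_ge_atTop (2 + v + 16 * v * B)] with n h1 h2
  have hn2 : 2 ≤ n := by omega
  have hn1 : (1 : ℝ) < n := by exact_mod_cast hn2
  have hn1' : (1 : ℝ) ≤ n := hn1.le
  have hvn : v ≤ n := by omega
  have hlt := lt_kk v n hv
  have hvR : (0 : ℝ) < v := by exact_mod_cast hv
  have hBR : (0 : ℝ) < B := by exact_mod_cast hB
  set M : ℕ := 2 ^ kk v n with hM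
  have hltR : (n : ℝ) < 4 * v * M := by exact_mod_cast hlt
  have hMR : ((2 : ℝ) ^ kk v n) = (M : ℝ) := by rw [hM]; push_cast; rfl
  have hM0 : (0 : ℝ) < M := by
    rw [← hMR]
    positivity
  have hM4 : 4 * B ≤ M := by
    have h3 : 4 * v * (4 * B) ≤ n := by
      calc 4 * v * (4 * B) = 16 * v * B := by ring
        _ ≤ n := by omega
    have h4 : 4 * v * (4 * B) < 4 * v * M := lt_of_le_of_lt h3 hlt
    exact (Nat.lt_of_mul_lt_mul_left h4).le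
  refine ⟨by omega, kk_le v n hv hvn, h1, ?_, ?_, ?_, ?_, ?_⟩
  · rw [Nat.floor_pos]
    exact Real.one_le_rpow hn1' hA.le
  · intro j
    have h3 : (1 : ℝ) < (n : ℝ) ^ ((j : ℝ) * d / 3 + 4 * d) := by
      apply Real.one_lt_rpow hn1
      positivity
    have h4 : 1 < ⌈(n : ℝ) ^ ((j : ℝ) * d / 3 + 4 * d)⌉₊ := by
      rw [Nat.lt_ceil]
      exact_mod_cast h3
    exact h4
  · have h3 : ((bb d n : ℕ) : ℝ) ≤ (n : ℝ) ^ d :=
      Nat.floor_le (Real.rpow_nonneg (by positivity) d)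
    calc ((bb d n ^ K : ℕ) : ℝ) = ((bb d n : ℕ) : ℝ) ^ K := by push_cast; rfl
      _ ≤ ((n : ℝ) ^ d) ^ K := pow_le_pow_left₀ (by positivity) h3 K
      _ = (n : ℝ) ^ (d * K) := by
          rw [Real.rpow_mul (by positivity), Real.rpow_natCast]
      _ ≤ (n : ℝ) ^ (1 + ω) := by
          apply Real.rpow_le_rpow_of_exponent_le hn1'
          linarith [mul_comm (K : ℝ) d]
  · have h5 : (M : ℝ) < B * ((M / B : ℕ) : ℝ) + B := by
      have h := Nat.lt_mul_div_succ M hB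
      have h' : (M : ℝ) < (B : ℝ) * (((M / B : ℕ) : ℝ) + 1) := by exact_mod_cast h
      linarith
    have h6 : 1 ≤ M / B := by
      rw [Nat.le_div_iff_mul_le hB]
      omega
    have h7 : (((w * (M / B - 1) : ℕ)) : ℝ) = (w : ℝ) * (((M / B : ℕ) : ℝ) - 1) := by
      rw [Nat.cast_mul, Nat.cast_sub h6, Nat.cast_one]
    rw [h7]
    have hw1 : (1 : ℝ) ≤ w := by exact_mod_cast hw
    have h8 : (0 : ℝ) ≤ ((M / B : ℕ) : ℝ) - 1 := by
      have : (1 : ℝ) ≤ ((M / B : ℕ) : ℝ) := by exact_mod_cast h6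
      linarith
    have h9 : ((M / B : ℕ) : ℝ) - 1 ≤ (w : ℝ) * (((M / B : ℕ) : ℝ) - 1) := by
      nlinarith
    have h10 : (4 : ℝ) * B ≤ M := by exact_mod_cast hM4
    have h11 : 1 / (16 * (v : ℝ) * B) * n ≤ (M : ℝ) / (4 * B) := by
      rw [div_mul_eq_mul_div, one_mul, div_le_div_iff₀ (by positivity) (by positivity)]
      nlinarith
    have h12 : (M : ℝ) / (4 * B) ≤ ((M / B : ℕ) : ℝ) - 1 := by
      rw [div_le_iff₀ (by positivity)]
      nlinarith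
    linarith
  · rw [hMR]
    have h11 : 1 / (16 * (v : ℝ) * B) * n < (M : ℝ) / (4 * B) := by
      rw [div_mul_eq_mul_div, one_mul, div_lt_div_iff₀ (by positivity) (by positivity)]
      nlinarith
    have h12 : (M : ℝ) / (4 * B) ≤ M := by
      apply div_le_self hM0.le
      have : (1 : ℝ) ≤ B := by exact_mod_cast hB
      linarith
    linarith

end Pool.Agent.UCT
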