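import Pool.Agent.UCT.NumDefs

/-!
# UCT NumBlue: parameters, conditions for the blue union bound

PROOF. (See `Pool/Agent/UCR/NumC.lean`, helper25, for similar estimates.) Let `k = kk v n`,
`M = 2 ^ k`, `v M ≤ n < 4 v M`, `Fz = (z + 1) z`. For large `n` and all `j ≤ K` (finitely many):
`Q ≤ n ^ (j d / 3 + 2 d)`, `μ ≤ n ^ (1 - j d / 3 - 6 d)`, so `8 Q μ ≤ 8 n ^ (1 - 4 d) ≤ M / Fz`.
Let `ℓ = y b ^ c ≤ Z ≤ 2 n ^ (1 - j d / 3 - 8 d)` (exponent `≥ 1 / 2 - 2 d / 3 > 0`, as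
`j d / 3 ≤ 1 / 2 - 20 d / 3`), `ℓ ≥ n ^ (j d / 3 + 4 d)` (`b ≥ 1`), `b ≤ n ^ d`, `μ' = ℓ b`. Then
`4 Q (2 μ' ^ 2 / M + 8) * (M / ℓ) ≤ 8 Q ℓ b ^ 2 + 32 Q M / ℓ`
`≤ 16 n ^ (1 - 4 d) + 32 n ^ (1 - 2 d)`; the logarithms are at most `C' log n`:
`log (⌊n ^ A⌋ (M + 1) ^ 2) ≤ (A + 4) log n` (`M + 1 ≤ n + 1 ≤ n ^ 2`), the term with `log 4` is
`4 Q (2 μ' ^ 2 / M + 8) log 4` and `M / ℓ ≥ 1 / 2` as `ℓ ≤ Z ≤ M` for large `n`, so it is at most
`log 4 * 2` times the main term. Right hand side `M / Fz ≥ n / (4 v Fz)`.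
-/

set_option autoImplicit false

namespace Pool.Agent.UCT

open Filter

private theorem nb_ev_log (C s : ℝ) (hC : 0 < C) (hs : 0 < s) :
    ∀ᶠ n : ℕ in atTop, C * Real.log n ≤ (n : ℝ) ^ s := by
  have h := (isLittleO_log_rpow_atTop (r := s) hs).def (c := 1 / C) (by positivity)
  have h' := tendsto_natCast_atTop_atTop (R := ℝ) |>.eventually h
  filter_upwards [h', eventually_ge_atTop 1] with n hn hn1
  have hn1' : (1 : ℝ) ≤ n := by exact_mod_cast hn1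
  have hl : 0 ≤ Real.log n := Real.log_nonneg hn1'
  rw [Real.norm_of_nonneg hl, Real.norm_of_nonneg (by positivity)] at hn
  calc C * Real.log n ≤ C * (1 / C * (n : ℝ) ^ s) := by gcongr
    _ = (n : ℝ) ^ s := by field_simp

/-- the first estimate: `E = x ^ (j d / 3)`, `D = x ^ d` -/
private theorem nb_alg1 (x E D M Q μ F v : ℝ) (hx : 1 ≤ x) (hE : 1 ≤ E) (hD : 1 ≤ D)
    (hv : 0 < v) (hF : 0 < F) (hM : x ≤ 4 * v * M) (hQ : Q ≤ E * D ^ 2)
    (hμ : μ * (E * D ^ 6) ≤ x) (hμ0 : 0 ≤ μ) (h0 : 32 * v * F ≤ D ^ 4) :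
    4 * Q * (2 * μ) ≤ M / F := by
  have hx0 : 0 < x := by linarith
  have hE0 : 0 < E := by linarith
  have hD0 : 0 < D := by linarith
  rw [le_div_iff₀ hF]
  have e1 : Q * μ * D ^ 4 ≤ x := by
    calc Q * μ * D ^ 4 ≤ E * D ^ 2 * μ * D ^ 4 := by gcongr
      _ = μ * (E * D ^ 6) := by ring
      _ ≤ x := hμ
  have e2 : 4 * Q * (2 * μ) * F * (4 * v * D ^ 4) ≤ M * (4 * v * D ^ 4) := by
    calc 4 * Q * (2 * μ) * F * (4 * v * D ^ 4) = 32 * v * F * (Q * μ * D ^ 4) := by ring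
      _ ≤ 32 * v * F * x := by gcongr
      _ ≤ D ^ 4 * x := by gcongr
      _ ≤ D ^ 4 * (4 * v * M) := by gcongr
      _ = M * (4 * v * D ^ 4) := by ring
  exact le_of_mul_le_mul_right e2 (by positivity)

/-- the second estimate -/
private theorem nb_alg2 (x E D M Q ℓ b F v W G r : ℝ) (hx : 1 ≤ x) (hE : 1 ≤ E) (hD : 1 ≤ D)
    (hv : 0 < v) (hF : 0 < F) (hM : x ≤ 4 * v * M) (hMx : M ≤ x) (hQ : Q ≤ E * D ^ 2)
    (hQ0 : 0 ≤ Q) (hℓ : E * D ^ 4 ≤ ℓ) (hℓ' : ℓ * (E * D ^ 8) ≤ 2 * x) (hb0 : 0 ≤ b)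
    (hb : b ≤ D) (hr : r ≤ M / ℓ) (hG0 : 0 ≤ G) (hG : G ≤ W)
    (h1 : 8 * v ≤ D ^ 8) (h2 : 192 * v * F * (W + 2) ≤ D ^ 2) :
    4 * Q * (2 * (ℓ * b) ^ 2 / M + 8) * (r * G + Real.log 4) ≤ M / F := by
  have hx0 : 0 < x := by linarith
  have hE0 : 0 < E := by linarith
  have hD0 : 0 < D := by linarith
  have hM0 : 0 < M := by
    by_contra h
    have : 4 * v * M ≤ 0 := mul_nonpos_of_nonneg_of_nonpos (by positivity) (not_lt.mp h)
    linarith
  have hℓ0 : 0 < ℓ := lt_of_lt_of_le (by positivity) hℓ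
  have hW0 : 0 ≤ W := hG0.trans hG
  have hlog4 : Real.log 4 ≤ 2 := by
    have : Real.log 4 = 2 * Real.log 2 := by
      rw [show (4 : ℝ) = 2 ^ 2 by norm_num, Real.log_pow]; norm_num
    have h2 := Real.log_two_lt_d9
    linarith
  -- `1 ≤ M / ℓ`
  have hMl : 1 ≤ M / ℓ := by
    rw [le_div_iff₀ hℓ0, one_mul]
    have e1 : ℓ * D ^ 8 ≤ 2 * x := by
      calc ℓ * D ^ 8 = ℓ * (1 * D ^ 8) := by ring
        _ ≤ ℓ * (E * D ^ 8) := by gcongr
        _ ≤ 2 * x := hℓ'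
    have e2 : ℓ * D ^ 8 ≤ M * D ^ 8 := by
      calc ℓ * D ^ 8 ≤ 2 * x := e1
        _ ≤ 2 * (4 * v * M) := by gcongr
        _ = 8 * v * M := by ring
        _ ≤ D ^ 8 * M := by gcongr
        _ = M * D ^ 8 := by ring
    exact le_of_mul_le_mul_right e2 (by positivity)
  have hfac : r * G + Real.log 4 ≤ M / ℓ * (W + 2) := by
    have e1 : r * G ≤ M / ℓ * W := mul_le_mul hr hG hG0 (by positivity)
    nlinarith
  have e3 : Q * ℓ * b ^ 2 * D ^ 4 ≤ 2 * x := by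
    calc Q * ℓ * b ^ 2 * D ^ 4 ≤ (E * D ^ 2) * ℓ * D ^ 2 * D ^ 4 := by gcongr
      _ = ℓ * (E * D ^ 8) := by ring
      _ ≤ 2 * x := hℓ'
  have e3' : Q * ℓ * b ^ 2 * D ^ 2 ≤ 2 * x := by
    refine le_trans ?_ e3
    apply mul_le_mul_of_nonneg_left _ (by positivity)
    exact pow_le_pow_right₀ hD (by norm_num)
  have e4 : Q * (M / ℓ) * D ^ 2 ≤ x := by
    calc Q * (M / ℓ) * D ^ 2 ≤ (E * D ^ 2) * (x / (E * D ^ 4)) * D ^ 2 := by gcongr
      _ = x := by field_simp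
  have e5 : 4 * Q * (2 * (ℓ * b) ^ 2 / M + 8) * (M / ℓ) * D ^ 2 ≤ 48 * x := by
    have : 4 * Q * (2 * (ℓ * b) ^ 2 / M + 8) * (M / ℓ) * D ^ 2
        = 8 * (Q * ℓ * b ^ 2 * D ^ 2) + 32 * (Q * (M / ℓ) * D ^ 2) := by
      field_simp
      ring
    rw [this]
    linarith
  rw [le_div_iff₀ hF]
  have e6 : 4 * Q * (2 * (ℓ * b) ^ 2 / M + 8) * (r * G + Real.log 4) * F * (4 * v * D ^ 2)
      ≤ M * (4 * v * D ^ 2) := by
    calc 4 * Q * (2 * (ℓ * b) ^ 2 / M + 8) * (r * G + Real.log 4) * F * (4 * v * D ^ 2)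
        ≤ 4 * Q * (2 * (ℓ * b) ^ 2 / M + 8) * (M / ℓ * (W + 2)) * F * (4 * v * D ^ 2) := by
          gcongr
      _ = (4 * Q * (2 * (ℓ * b) ^ 2 / M + 8) * (M / ℓ) * D ^ 2) * (4 * v * F * (W + 2)) := by
          ring
      _ ≤ (48 * x) * (4 * v * F * (W + 2)) := by gcongr
      _ = (192 * v * F * (W + 2)) * x := by ring
      _ ≤ D ^ 2 * x := by gcongr
      _ ≤ D ^ 2 * (4 * v * M) := by gcongr
      _ = M * (4 * v * D ^ 2) := by ring
  exact le_of_mul_le_mul_right e6 (by positivity)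

theorem num_blue (A d : ℝ) (K C z v : ℕ) (hA : 0 < A) (hd : 0 < d)
    (hK : (K : ℝ) * d ≤ 3 / 2 - 20 * d) (hz : 0 < z) (hv : 0 < v) :
    ∀ᶠ n : ℕ in atTop, ∀ j ≤ K,
      4 * (Qj d n j : ℝ) * (2 * muj d n j) ≤ 2 ^ kk v n / (((z + 1) * z : ℕ) : ℝ) ∧
      ∀ c ≤ C, yj d n j * bb d n ^ c ≤ Zj d n j →
        4 * (Qj d n j : ℝ) * (2 * ((yj d n j * bb d n ^ (c + 1) : ℕ) : ℝ) ^ 2 / 2 ^ kk v n + 8) *
          ((2 ^ kk v n / (yj d n j * bb d n ^ c) : ℕ) *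
            Real.log (⌊(n : ℝ) ^ A⌋₊ * (2 ^ kk v n + 1) ^ 2) + Real.log 4)
          ≤ 2 ^ kk v n / (((z + 1) * z : ℕ) : ℝ) := by
  have hv' : (0 : ℝ) < v := by exact_mod_cast hv
  have hF : (0 : ℝ) < (((z + 1) * z : ℕ) : ℝ) := by
    have : 0 < (z + 1) * z := by positivity
    exact_mod_cast this
  have hlog : ∀ᶠ n : ℕ in atTop, (1 : ℝ) ≤ Real.log n :=
    (Real.tendsto_log_atTop.comp tendsto_natCast_atTop_atTop).eventually_ge_atTop 1
  filter_upwards [hlog, nb_ev_log (192 * v * (((z + 1) * z : ℕ) : ℝ) * (A + 6)) (2 * d)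
    (by positivity) (by positivity), nb_ev_log (8 * v) (8 * d) (by positivity) (by positivity),
    eventually_ge_atTop (v + 2)] with n hL h2 h1 hn
  intro j hj
  set F : ℝ := (((z + 1) * z : ℕ) : ℝ) with hFdef
  set x : ℝ := (n : ℝ) with hxdef
  have hx2 : (2 : ℝ) ≤ x := by rw [hxdef]; exact_mod_cast (by omega : 2 ≤ n)
  have hx0 : 0 < x := by linarith
  have hx1 : 1 ≤ x := by linarith
  set E : ℝ := x ^ ((j : ℝ) * d / 3) with hEdef
  set D : ℝ := x ^ d with hDdef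
  have hE : 1 ≤ E := Real.one_le_rpow hx1 (by positivity)
  have hD : 1 ≤ D := Real.one_le_rpow hx1 hd.le
  have hE0 : 0 < E := by linarith
  have hD0 : 0 < D := by linarith
  have pD : ∀ i : ℕ, x ^ ((i : ℝ) * d) = D ^ i := by
    intro i; rw [mul_comm, Real.rpow_mul hx0.le, Real.rpow_natCast]
  have p2 : x ^ ((j : ℝ) * d / 3 + 2 * d) = E * D ^ 2 := by
    have := pD 2; push_cast at this
    rw [Real.rpow_add hx0, this]
  have p4 : x ^ ((j : ℝ) * d / 3 + 4 * d) = E * D ^ 4 := by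
    have := pD 4; push_cast at this
    rw [Real.rpow_add hx0, this]
  have p6 : x ^ (1 - (j : ℝ) * d / 3 - 6 * d) = x / (E * D ^ 6) := by
    have := pD 6; push_cast at this
    rw [Real.rpow_sub hx0, Real.rpow_sub hx0, this, Real.rpow_one, div_div]
  have p8 : x ^ (1 - (j : ℝ) * d / 3 - 8 * d) = x / (E * D ^ 8) := by
    have := pD 8; push_cast at this
    rw [Real.rpow_sub hx0, Real.rpow_sub hx0, this, Real.rpow_one, div_div]
  have q2 : x ^ (2 * d) = D ^ 2 := by have := pD 2; push_cast at this; exact this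
  have q8 : x ^ (8 * d) = D ^ 8 := by have := pD 8; push_cast at this; exact this
  rw [q2] at h2
  rw [q8] at h1
  have hjK : (j : ℝ) ≤ K := by exact_mod_cast hj
  have hjd : (j : ℝ) * d ≤ 3 / 2 - 20 * d := (mul_le_mul_of_nonneg_right hjK hd.le).trans hK
  have hexp : 0 ≤ 1 - (j : ℝ) * d / 3 - 8 * d := by
    have : 0 ≤ (j : ℝ) * d := by positivity
    linarith
  -- `M`
  have hnv : n / v ≠ 0 := by
    have : 0 < n / v := Nat.div_pos (by omega) hv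
    omega
  have h4 : 2 ^ kk v n = 4 ^ Nat.log 4 (n / v) := by
    rw [kk, pow_mul]; norm_num
  have hk1 : 2 ^ kk v n ≤ n / v := by rw [h4]; exact Nat.pow_log_le_self 4 hnv
  have hk2 : n / v < 4 * 2 ^ kk v n := by
    have := Nat.lt_pow_succ_log_self (b := 4) (by norm_num) (n / v)
    rw [h4]
    calc n / v < 4 ^ (Nat.log 4 (n / v) + 1) := this
      _ = 4 * 4 ^ Nat.log 4 (n / v) := by ring
  have hkn : 2 ^ kk v n ≤ n := hk1.trans (Nat.div_le_self _ _)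
  have hMx : (2 : ℝ) ^ kk v n ≤ x := by rw [hxdef]; exact_mod_cast hkn
  have hM : x ≤ 4 * v * 2 ^ kk v n := by
    rw [Nat.div_lt_iff_lt_mul hv] at hk2
    have h6 : x ≤ 4 * 2 ^ kk v n * v := by
      rw [hxdef]; exact_mod_cast hk2.le
    linarith
  have hM1 : (1 : ℝ) ≤ 2 ^ kk v n := one_le_pow₀ (by norm_num)
  -- the parameters
  have hQ : (Qj d n j : ℝ) ≤ E * D ^ 2 := by
    rw [Qj, ← hxdef, p2]; exact Nat.floor_le (by positivity)
  have hμ : (muj d n j : ℝ) * (E * D ^ 6) ≤ x := by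
    have : (muj d n j : ℝ) ≤ x / (E * D ^ 6) := by
      rw [muj, ← hxdef, p6]; exact Nat.floor_le (by positivity)
    rwa [le_div_iff₀ (by positivity)] at this
  have hy : E * D ^ 4 ≤ (yj d n j : ℝ) := by
    rw [yj, ← hxdef, p4]; exact Nat.le_ceil _
  have hZ : (Zj d n j : ℝ) * (E * D ^ 8) ≤ 2 * x := by
    have e1 : (Zj d n j : ℝ) ≤ x / (E * D ^ 8) + 1 := by
      rw [Zj, ← hxdef, p8]; push_cast
      gcongr
      exact Nat.floor_le (by positivity)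
    have e2 : 1 ≤ x / (E * D ^ 8) := by
      rw [← p8]; exact Real.one_le_rpow hx1 hexp
    have e3 : (Zj d n j : ℝ) ≤ 2 * x / (E * D ^ 8) := by
      have : 2 * x / (E * D ^ 8) = 2 * (x / (E * D ^ 8)) := by ring
      rw [this]; linarith
    rwa [le_div_iff₀ (by positivity)] at e3
  have hb1 : 1 ≤ bb d n := by
    rw [bb, ← hxdef]; exact Nat.le_floor (by simpa using hD)
  have hbD : (bb d n : ℝ) ≤ D := by
    rw [bb, ← hxdef]; exact Nat.floor_le (by positivity)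
  have hlogx : Real.log x ≤ D ^ 2 := by
    have : (1 : ℝ) ≤ 192 * v * F * (A + 6) := by
      have a1 : (1 : ℝ) ≤ v := by exact_mod_cast hv
      have a2 : (1 : ℝ) ≤ F := by
        rw [hFdef]; exact_mod_cast (by positivity : 0 < (z + 1) * z)
      have a3 : (1 : ℝ) ≤ v * F := one_le_mul_of_one_le_of_one_le a1 a2
      nlinarith
    nlinarith
  refine ⟨?_, ?_⟩
  · apply nb_alg1 x E D (2 ^ kk v n) (Qj d n j) (muj d n j) F v hx1 hE hD hv' hF hM hQ hμ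
      (Nat.cast_nonneg _)
    have hD2 : (1 : ℝ) ≤ D ^ 2 := one_le_pow₀ hD
    have a1 : 0 < (v : ℝ) * F := by positivity
    calc 32 * (v : ℝ) * F ≤ 192 * v * F * (A + 6) * Real.log x := by
          have : (1 : ℝ) ≤ (A + 6) * Real.log x := by nlinarith
          nlinarith
      _ ≤ D ^ 2 := h2
      _ ≤ D ^ 4 := pow_le_pow_right₀ hD (by norm_num)
  · intro c _ hc
    have hℓ0 : yj d n j ≤ yj d n j * bb d n ^ c :=
      Nat.le_mul_of_pos_right _ (Nat.pow_pos hb1)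
    set ℓ : ℕ := yj d n j * bb d n ^ c with hℓdef
    have hℓ1 : E * D ^ 4 ≤ (ℓ : ℝ) := hy.trans (by exact_mod_cast hℓ0)
    have hℓ2 : (ℓ : ℝ) * (E * D ^ 8) ≤ 2 * x := by
      have : (ℓ : ℝ) ≤ (Zj d n j : ℝ) := by exact_mod_cast hc
      calc (ℓ : ℝ) * (E * D ^ 8) ≤ (Zj d n j : ℝ) * (E * D ^ 8) := by gcongr
        _ ≤ 2 * x := hZ
    have hℓb : ((yj d n j * bb d n ^ (c + 1) : ℕ) : ℝ) = (ℓ : ℝ) * (bb d n : ℝ) := by
      rw [hℓdef]; push_cast; ring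
    rw [hℓb]
    have hfl1 : (1 : ℝ) ≤ (⌊x ^ A⌋₊ : ℝ) := by
      have : 1 ≤ ⌊x ^ A⌋₊ := Nat.le_floor (by simpa using Real.one_le_rpow hx1 hA.le)
      exact_mod_cast this
    have hfl2 : (⌊x ^ A⌋₊ : ℝ) ≤ x ^ A := Nat.floor_le (by positivity)
    have hr : ((2 ^ kk v n / ℓ : ℕ) : ℝ) ≤ 2 ^ kk v n / (ℓ : ℝ) := by
      have := Nat.cast_div_le (α := ℝ) (m := 2 ^ kk v n) (n := ℓ)
      push_cast at this
      exact this
    have hG0 : 0 ≤ Real.log (⌊x ^ A⌋₊ * (2 ^ kk v n + 1) ^ 2) := by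
      apply Real.log_nonneg
      exact one_le_mul_of_one_le_of_one_le hfl1 (one_le_pow₀ (by linarith))
    have hG : Real.log (⌊x ^ A⌋₊ * (2 ^ kk v n + 1) ^ 2) ≤ (A + 4) * Real.log x := by
      have c1 : Real.log (⌊x ^ A⌋₊ * (2 ^ kk v n + 1) ^ 2) ≤ Real.log (x ^ A * (x ^ 2) ^ 2) := by
        apply Real.log_le_log (by positivity)
        gcongr
        nlinarith
      have c2 : Real.log (x ^ A * (x ^ 2) ^ 2) = (A + 4) * Real.log x := by
        rw [Real.log_mul (by positivity) (by positivity), Real.log_rpow hx0, ← pow_mul,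
          Real.log_pow]
        push_cast; ring
      linarith
    apply nb_alg2 x E D (2 ^ kk v n) (Qj d n j) ℓ (bb d n) F v ((A + 4) * Real.log x) _ _
      hx1 hE hD hv' hF hM hMx hQ (Nat.cast_nonneg _) hℓ1 hℓ2 (Nat.cast_nonneg _) hbD
      hr hG0 hG
    · nlinarith
    · have a1 : 0 < (v : ℝ) * F := by positivity
      calc 192 * (v : ℝ) * F * ((A + 4) * Real.log x + 2)
          ≤ 192 * v * F * ((A + 6) * Real.log x) := by
            apply mul_le_mul_of_nonneg_left _ (by positivity)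
            nlinarith
        _ = 192 * v * F * (A + 6) * Real.log x := by ring
        _ ≤ D ^ 2 := h2

end Pool.Agent.UCT
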