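import Pool.Agent.UCT.NumDefs

/-!
# UCT NumGap: choice of the level for a real `x`, gappy part

PROOF. `b = ⌊n ^ d⌋`, `n ^ d / 2 ≤ b ≤ n ^ d`, `b ^ K ≥ n ^ (1 + ω - 21 d) / 2 ^ K`. `⌈x⌉ ≤ 2 x`,
`4 ⌈x⌉ ≤ 8 x ≤ 8 n ^ (3 ω - 3 δ) ≤ b ^ K` for large `n`, as
`1 + ω - 21 d - (3 ω - 3 δ) = 1 - 2 ω + 3 δ - 21 d > 0`. Let `j ≤ K` be the least number with
`4 ⌈x⌉ ≤ b ^ j`; `j ≥ 1` since `4 ⌈x⌉ ≥ 4 > 1`; so `b ^ (j - 1) < 8 x`, i.e.
`n ^ ((j - 1) d) ≤ 2 ^ K * 8 x`. (a) `x ^ (1 / 3) ≥ n ^ ((j - 1) d / 3) / (2 * 2 ^ K)`, so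
`n ^ (1 - δ) / x ^ (1 / 3) ≤ 2 * 2 ^ K * n ^ (1 - δ - (j - 1) d / 3) ≤ n ^ (1 - j d / 3 - 6 d)`
for large `n`. (b) With `x ≤ n ^ (3 ω - 3 δ)`: `n ^ (j d / 3) ≤ 2 * 2 ^ K * n ^ (d / 3 + ω - δ)`,
`y_j ≤ 2 n ^ (j d / 3 + 4 d)`, `e / b ^ K + 1 ≤ 2 ^ K n ^ (2 + d - (1 + ω - 21 d)) + 1`, so the
product is at most `C' (n ^ (1 + d - ω + 21 d) + 1) n ^ (13 d / 3 + ω - δ)`, exponents
`1 + (1 + 21 + 13 / 3) d - δ < 1` and `13 d / 3 + ω - δ < 1`. Finally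
`2 T1 ≤ η 2 ^ k / 3 ≤ 2 ^ k / 3`, `2 ^ k > n / (4 v)`.
-/

set_option autoImplicit false

namespace Pool.Agent.UCT

open Filter

private theorem ev_pow (a C : ℝ) (ha : 0 < a) : ∀ᶠ n : ℕ in atTop, C ≤ (n : ℝ) ^ a :=
  ((tendsto_rpow_atTop ha).comp tendsto_natCast_atTop_atTop).eventually_ge_atTop C

private theorem kk_lower (v n : ℕ) (hv : 0 < v) : (n : ℝ) ≤ 4 * v * 2 ^ kk v n := by
  have h1 : n < v * (n / v + 1) := Nat.lt_mul_div_succ n hv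
  have h2 : n / v < 4 ^ (Nat.log 4 (n / v)).succ := Nat.lt_pow_succ_log_self (by norm_num) _
  have h3 : (2 : ℕ) ^ kk v n = 4 ^ Nat.log 4 (n / v) := by
    unfold kk
    rw [pow_mul]
    norm_num
  have h4 : n ≤ 4 * v * 2 ^ kk v n := by
    rw [h3]
    calc n ≤ v * (n / v + 1) := h1.le
      _ ≤ v * 4 ^ (Nat.log 4 (n / v)).succ := Nat.mul_le_mul_left v h2
      _ = 4 * v * 4 ^ Nat.log 4 (n / v) := by
        rw [Nat.succ_eq_add_one, pow_succ]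
        ring
  exact_mod_cast h4

theorem num_gap (ω δ d η : ℝ) (K v : ℕ) (hω : -1 < ω) (hω2 : ω ≤ 1 / 2) (hd : 0 < d)
    (hδ : 50 * d ≤ δ) (hη : 0 < η) (hη1 : η ≤ 1) (hv : 0 < v)
    (hK : 1 + ω - 21 * d ≤ (K : ℝ) * d) :
    ∀ᶠ n : ℕ in atTop, ∀ x : ℝ, 1 ≤ x → x ≤ (n : ℝ) ^ (3 * ω - 3 * δ) →
      ∃ j ≤ K, 4 * ⌈x⌉₊ ≤ bb d n ^ j ∧
        ⌊(n : ℝ) ^ (1 - δ) / x ^ (1 / 3 : ℝ)⌋₊ ≤ muj d n j ∧
        ∀ e : ℕ, (e : ℝ) ≤ (n : ℝ) ^ (2 + d) →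
          2 * TT1 η (kk v n) + (e / bb d n ^ K + 1) * yj d n j ≤ 2 ^ kk v n := by
  rcases lt_or_ge (3 * ω - 3 * δ) 0 with hneg | hpos
  · filter_upwards [eventually_ge_atTop 2] with n hn x hx1 hx2
    exfalso
    have h1 : (1 : ℝ) < n := by exact_mod_cast hn
    have h2 := Real.rpow_lt_one_of_one_lt_of_neg h1 hneg
    linarith
  have hv' : (0 : ℝ) < v := by exact_mod_cast hv
  filter_upwards [eventually_ge_atTop 2, ev_pow d 2 hd,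
    ev_pow (1 - 2 * ω + 3 * δ - 21 * d) (8 * 2 ^ K) (by linarith),
    ev_pow (δ - d / 3 - 6 * d) (2 * 2 ^ K) (by linarith),
    ev_pow (δ - 22 * d - 13 * d / 3) (48 * v * 4 ^ K) (by linarith),
    ev_pow (1 - (13 * d / 3 + ω - δ)) (48 * v * 2 ^ K) (by linarith)]
    with n hn h2 h3 h4 h5 h6 x hx1 hx2
  have hn1 : (1 : ℝ) ≤ n := by exact_mod_cast (by omega : 1 ≤ n)
  have hn0 : (0 : ℝ) < n := by linarith
  have hx0 : 0 < x := by linarith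
  -- the base
  have hb2 : (n : ℝ) ^ d / 2 ≤ (bb d n : ℝ) := by
    have := Nat.lt_floor_add_one ((n : ℝ) ^ d)
    unfold bb
    linarith
  have hbpow : ∀ i : ℕ, (n : ℝ) ^ ((i : ℝ) * d) ≤ 2 ^ i * (bb d n : ℝ) ^ i := by
    intro i
    have e1 : (n : ℝ) ^ ((i : ℝ) * d) = ((n : ℝ) ^ d) ^ i := by
      rw [mul_comm, Real.rpow_mul_natCast hn0.le]
    rw [e1, ← mul_pow]
    exact pow_le_pow_left₀ (Real.rpow_nonneg hn0.le _) (by linarith) i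
  have hbK : (n : ℝ) ^ (1 + ω - 21 * d) ≤ 2 ^ K * (bb d n : ℝ) ^ K :=
    (Real.rpow_le_rpow_of_exponent_le hn1 hK).trans (hbpow K)
  have hceil : (4 : ℝ) * (⌈x⌉₊ : ℝ) ≤ 8 * x := by
    have := (Nat.ceil_lt_add_one hx0.le).le
    linarith
  have h2K : (0 : ℝ) < 2 ^ K := by positivity
  have hKx : 4 * ⌈x⌉₊ ≤ bb d n ^ K := by
    have e1 : (n : ℝ) ^ (1 + ω - 21 * d)
        = (n : ℝ) ^ (3 * ω - 3 * δ) * (n : ℝ) ^ (1 - 2 * ω + 3 * δ - 21 * d) := by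
      rw [← Real.rpow_add hn0]
      ring_nf
    have e2 : 8 * x * 2 ^ K ≤ 2 ^ K * (bb d n : ℝ) ^ K := by
      calc 8 * x * 2 ^ K = x * (8 * 2 ^ K) := by ring
        _ ≤ (n : ℝ) ^ (3 * ω - 3 * δ) * (n : ℝ) ^ (1 - 2 * ω + 3 * δ - 21 * d) :=
          mul_le_mul hx2 h3 (by positivity) (Real.rpow_nonneg hn0.le _)
        _ = (n : ℝ) ^ (1 + ω - 21 * d) := e1.symm
        _ ≤ _ := hbK
    have e3 : 8 * x ≤ (bb d n : ℝ) ^ K := by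
      rw [mul_comm (8 * x)] at e2
      exact le_of_mul_le_mul_left e2 h2K
    have e4 : (4 : ℝ) * (⌈x⌉₊ : ℝ) ≤ (bb d n : ℝ) ^ K := hceil.trans e3
    exact_mod_cast e4
  have hex : ∃ j, 4 * ⌈x⌉₊ ≤ bb d n ^ j := ⟨K, hKx⟩
  classical
  obtain ⟨i, hi⟩ : ∃ i, Nat.find hex = i + 1 := by
    rcases Nat.eq_zero_or_pos (Nat.find hex) with h0 | h0
    · exfalso
      have h7 := Nat.find_spec hex
      rw [h0, pow_zero] at h7
      have h8 : 1 ≤ ⌈x⌉₊ := Nat.one_le_iff_ne_zero.2 (by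
        have := Nat.ceil_pos.2 hx0
        omega)
      omega
    · exact ⟨Nat.find hex - 1, by omega⟩
  have hjK : i + 1 ≤ K := hi ▸ Nat.find_min' hex hKx
  have hj1 : 4 * ⌈x⌉₊ ≤ bb d n ^ (i + 1) := hi ▸ Nat.find_spec hex
  have hj2 : bb d n ^ i < 4 * ⌈x⌉₊ := not_le.1 (Nat.find_min hex (by omega))
  have hkey : (n : ℝ) ^ ((i : ℝ) * d) ≤ 8 * 2 ^ K * x := by
    have e1 : (bb d n : ℝ) ^ i ≤ 4 * (⌈x⌉₊ : ℝ) := by exact_mod_cast hj2.le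
    have e2 : (2 : ℝ) ^ i ≤ 2 ^ K := pow_le_pow_right₀ (by norm_num) (by omega)
    calc (n : ℝ) ^ ((i : ℝ) * d) ≤ 2 ^ i * (bb d n : ℝ) ^ i := hbpow i
      _ ≤ 2 ^ K * (8 * x) := mul_le_mul e2 (e1.trans hceil) (by positivity) h2K.le
      _ = _ := by ring
  -- cube roots
  set X : ℝ := x ^ (1 / 3 : ℝ) with hX
  set M : ℝ := (n : ℝ) ^ ((i : ℝ) * d / 3) with hM
  have hX0 : 0 < X := Real.rpow_pos_of_pos hx0 _
  have hM0 : 0 < M := Real.rpow_pos_of_pos hn0 _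
  have hX3 : X ^ 3 = x := by
    rw [hX, ← Real.rpow_natCast, ← Real.rpow_mul hx0.le]
    norm_num
  have hM3 : M ^ 3 = (n : ℝ) ^ ((i : ℝ) * d) := by
    rw [hM, ← Real.rpow_natCast, ← Real.rpow_mul hn0.le]
    congr 1
    push_cast
    ring
  have hMX : M ≤ 2 * 2 ^ K * X := by
    have e1 : (1 : ℝ) ≤ 2 ^ K := one_le_pow₀ (by norm_num)
    have e2 : (2 : ℝ) ^ K ≤ (2 ^ K) ^ 3 := le_self_pow₀ e1 (by norm_num)
    have e3 : M ^ 3 ≤ (2 * 2 ^ K * X) ^ 3 := by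
      rw [hM3]
      calc (n : ℝ) ^ ((i : ℝ) * d) ≤ 8 * 2 ^ K * x := hkey
        _ ≤ 8 * (2 ^ K) ^ 3 * x := by gcongr
        _ = (2 * 2 ^ K * X) ^ 3 := by
          rw [mul_pow, mul_pow, hX3]
          norm_num
    exact (pow_le_pow_iff_left₀ hM0.le (by positivity) (by norm_num)).1 e3
  have hXle : X ≤ (n : ℝ) ^ (ω - δ) := by
    have e1 := Real.rpow_le_rpow hx0.le hx2 (by norm_num : (0 : ℝ) ≤ 1 / 3)
    rw [← Real.rpow_mul hn0.le] at e1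
    have e2 : (3 * ω - 3 * δ) * (1 / 3) = ω - δ := by ring
    rwa [e2] at e1
  refine ⟨i + 1, hjK, hj1, ?_, ?_⟩
  · unfold muj
    apply Nat.floor_le_floor
    rw [div_le_iff₀ hX0]
    have e1 : (n : ℝ) ^ (1 - ((i + 1 : ℕ) : ℝ) * d / 3 - 6 * d) * M
        = (n : ℝ) ^ (1 - δ) * (n : ℝ) ^ (δ - d / 3 - 6 * d) := by
      rw [hM, ← Real.rpow_add hn0, ← Real.rpow_add hn0]
      congr 1
      push_cast
      ring
    have e2 : (n : ℝ) ^ (1 - δ) * (2 * 2 ^ K)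
        ≤ (n : ℝ) ^ (1 - ((i + 1 : ℕ) : ℝ) * d / 3 - 6 * d) * X * (2 * 2 ^ K) := by
      calc (n : ℝ) ^ (1 - δ) * (2 * 2 ^ K)
          ≤ (n : ℝ) ^ (1 - δ) * (n : ℝ) ^ (δ - d / 3 - 6 * d) := by gcongr
        _ = (n : ℝ) ^ (1 - ((i + 1 : ℕ) : ℝ) * d / 3 - 6 * d) * M := e1.symm
        _ ≤ (n : ℝ) ^ (1 - ((i + 1 : ℕ) : ℝ) * d / 3 - 6 * d) * (2 * 2 ^ K * X) := by gcongr
        _ = _ := by ring
    exact le_of_mul_le_mul_right e2 (by positivity)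
  · intro e he
    have hnp : ∀ a : ℝ, 0 < (n : ℝ) ^ a := fun a => Real.rpow_pos_of_pos hn0 a
    have hbK0 : (0 : ℝ) < (bb d n : ℝ) ^ K := by
      have : (0 : ℝ) < (bb d n : ℝ) := by linarith
      positivity
    have g1 : ((e / bb d n ^ K : ℕ) : ℝ) ≤ 2 ^ K * (n : ℝ) ^ (1 - ω + 22 * d) := by
      have f1 : ((e / bb d n ^ K : ℕ) : ℝ) ≤ (e : ℝ) / (bb d n : ℝ) ^ K := by
        have := @Nat.cast_div_le ℝ _ _ _ e (bb d n ^ K)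
        rwa [Nat.cast_pow] at this
      refine f1.trans ?_
      rw [div_le_iff₀ hbK0]
      calc (e : ℝ) ≤ (n : ℝ) ^ (2 + d) := he
        _ = (n : ℝ) ^ (1 - ω + 22 * d) * (n : ℝ) ^ (1 + ω - 21 * d) := by
          rw [← Real.rpow_add hn0]
          congr 1
          ring
        _ ≤ (n : ℝ) ^ (1 - ω + 22 * d) * (2 ^ K * (bb d n : ℝ) ^ K) := by
          gcongr
        _ = _ := by ring
    have g2 : (yj d n (i + 1) : ℝ) ≤ 4 * 2 ^ K * (n : ℝ) ^ (13 * d / 3 + ω - δ) := by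
      unfold yj
      have f1 : (1 : ℝ) ≤ (n : ℝ) ^ (((i + 1 : ℕ) : ℝ) * d / 3 + 4 * d) :=
        Real.one_le_rpow hn1 (by positivity)
      have f2 := (Nat.ceil_lt_add_one (zero_le_one.trans f1)).le
      have f3 : (n : ℝ) ^ (((i + 1 : ℕ) : ℝ) * d / 3 + 4 * d)
          = M * (n : ℝ) ^ (13 * d / 3) := by
        rw [hM, ← Real.rpow_add hn0]
        congr 1
        push_cast
        ring
      have f4 : M * (n : ℝ) ^ (13 * d / 3)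
          ≤ 2 * 2 ^ K * (n : ℝ) ^ (13 * d / 3 + ω - δ) := by
        calc M * (n : ℝ) ^ (13 * d / 3) ≤ 2 * 2 ^ K * X * (n : ℝ) ^ (13 * d / 3) := by
              gcongr
          _ ≤ 2 * 2 ^ K * (n : ℝ) ^ (ω - δ) * (n : ℝ) ^ (13 * d / 3) := by
              gcongr
          _ = 2 * 2 ^ K * (n : ℝ) ^ (13 * d / 3 + ω - δ) := by
              rw [mul_assoc, ← Real.rpow_add hn0]
              congr 2
              ring
      rw [f3] at f1 f2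
      rw [f3]
      linarith
    have g3 : (2 : ℝ) * (TT1 η (kk v n) : ℝ) ≤ 2 ^ kk v n / 3 := by
      have f0 : (0 : ℝ) < 2 ^ kk v n := by positivity
      have f1 : (TT1 η (kk v n) : ℝ) ≤ η * 2 ^ kk v n / 6 := Nat.floor_le (by positivity)
      have f2 : η * 2 ^ kk v n ≤ 1 * 2 ^ kk v n := by gcongr
      linarith
    have g4 : 48 * (v : ℝ) * (4 ^ K * (n : ℝ) ^ (1 + 22 * d + 13 * d / 3 - δ)) ≤ n := by
      have f1 : (n : ℝ) = (n : ℝ) ^ (δ - 22 * d - 13 * d / 3)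
          * (n : ℝ) ^ (1 + 22 * d + 13 * d / 3 - δ) := by
        rw [← Real.rpow_add hn0]
        have : δ - 22 * d - 13 * d / 3 + (1 + 22 * d + 13 * d / 3 - δ) = 1 := by ring
        rw [this, Real.rpow_one]
      calc 48 * (v : ℝ) * (4 ^ K * (n : ℝ) ^ (1 + 22 * d + 13 * d / 3 - δ))
          = 48 * v * 4 ^ K * (n : ℝ) ^ (1 + 22 * d + 13 * d / 3 - δ) := by ring
        _ ≤ (n : ℝ) ^ (δ - 22 * d - 13 * d / 3) * (n : ℝ) ^ (1 + 22 * d + 13 * d / 3 - δ) := by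
          gcongr
        _ = n := f1.symm
    have g5 : 48 * (v : ℝ) * (2 ^ K * (n : ℝ) ^ (13 * d / 3 + ω - δ)) ≤ n := by
      have f1 : (n : ℝ) = (n : ℝ) ^ (1 - (13 * d / 3 + ω - δ))
          * (n : ℝ) ^ (13 * d / 3 + ω - δ) := by
        rw [← Real.rpow_add hn0]
        have : 1 - (13 * d / 3 + ω - δ) + (13 * d / 3 + ω - δ) = 1 := by ring
        rw [this, Real.rpow_one]
      calc 48 * (v : ℝ) * (2 ^ K * (n : ℝ) ^ (13 * d / 3 + ω - δ))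
          = 48 * v * 2 ^ K * (n : ℝ) ^ (13 * d / 3 + ω - δ) := by ring
        _ ≤ (n : ℝ) ^ (1 - (13 * d / 3 + ω - δ)) * (n : ℝ) ^ (13 * d / 3 + ω - δ) := by
          gcongr
        _ = n := f1.symm
    have g6 : (((e / bb d n ^ K : ℕ) : ℝ) + 1) * (yj d n (i + 1) : ℝ)
        ≤ 4 * (4 ^ K * (n : ℝ) ^ (1 + 22 * d + 13 * d / 3 - δ))
          + 4 * (2 ^ K * (n : ℝ) ^ (13 * d / 3 + ω - δ)) := by
      have f1 : (n : ℝ) ^ (1 + 22 * d + 13 * d / 3 - δ)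
          = (n : ℝ) ^ (1 - ω + 22 * d) * (n : ℝ) ^ (13 * d / 3 + ω - δ) := by
        rw [← Real.rpow_add hn0]
        congr 1
        ring
      have f2 : (4 : ℝ) ^ K = 2 ^ K * 2 ^ K := by
        rw [← mul_pow]
        norm_num
      calc (((e / bb d n ^ K : ℕ) : ℝ) + 1) * (yj d n (i + 1) : ℝ)
          ≤ (2 ^ K * (n : ℝ) ^ (1 - ω + 22 * d) + 1)
            * (4 * 2 ^ K * (n : ℝ) ^ (13 * d / 3 + ω - δ)) :=
          mul_le_mul (by linarith) g2 (by positivity) (by positivity)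
        _ = _ := by
          rw [f1, f2]
          ring
    have g7 := kk_lower v n hv
    have g8 : 12 * (v : ℝ) * (4 * (4 ^ K * (n : ℝ) ^ (1 + 22 * d + 13 * d / 3 - δ))
          + 4 * (2 ^ K * (n : ℝ) ^ (13 * d / 3 + ω - δ))) ≤ 12 * v * (2 / 3 * 2 ^ kk v n) := by
      nlinarith [g4, g5, g7]
    have g9 := le_of_mul_le_mul_left g8 (by positivity)
    have g10 : (2 : ℝ) * (TT1 η (kk v n) : ℝ)
        + (((e / bb d n ^ K : ℕ) : ℝ) + 1) * (yj d n (i + 1) : ℝ) ≤ 2 ^ kk v n := by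
      linarith
    exact_mod_cast g10

end Pool.Agent.UCT
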