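import Pool.Agent.UCT.NumDefs

/-!
# UCT NumLevels: parameters, elementary part

PROOF. (See `Pool/Agent/UCS/NumE1.lean`, helper72, for similar estimates.) Let `k = kk v n`,
`v 2 ^ k ≤ n < 4 v 2 ^ k` for `n ≥ v`; `2 ^ k → ∞`. For large `n` (there are only finitely many
`j ≤ K`, so eventually for all of them, `Filter.eventually_all_finite` or induction):
`b = ⌊n ^ d⌋`, `n ^ d / 2 ≤ b ≤ n ^ d`, so `b ^ j ≤ n ^ (j d)`,
`108 n ^ (j d) < n ^ (j d + 3 d)`.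
`y_j ≤ 2 n ^ (j d / 3 + 4 d)`, `Z_j ≥ n ^ (1 - j d / 3 - 8 d)`: the difference of the exponents is
`1 - 2 j d / 3 - 12 d ≥ 4 d / 3`. `Z_j ≤ 2 n < y_j b ^ (C + 1)` as
`b ^ (C + 1) ≥ n ^ ((C + 1) d) / 2 ^ (C + 1)`, `(C + 1) d ≥ 1 + d`, `y_j ≥ n ^ (4 d)`.
`T1 = ⌊η 2 ^ k / 6⌋ ≥ η 2 ^ k / 7`; the two conditions with `2 K (2 ^ k (b y_j))` follow from
`4 K n ^ (j d / 3 + 5 d) * 7 / η ≤ n ^ (1 - (j + 1) d / 3 - 8 d)` for `j + 1 ≤ K` (exponents: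
`1 - (2 j + 1) d / 3 - 13 d ≥ 1 - (2 K - 1) d / 3 - 13 d ≥ 2 d / 3`) and
`4 K n ^ (j d / 3 + 5 d) * 7 / η ≤ n ^ (1 - j d / 3 - 8 d)` for `j ≤ K` (exponents:
`1 - 2 j d / 3 - 13 d ≥ d / 3`).
Last: `T2 ≤ 2 * 2 ^ k / (z + 1) + 1`, `2 K (C + 1) * 2 * 2 ^ k / (z + 1) ≤ η 2 ^ k / 12` by `hz`,
`2 ^ k / y_j ≤ 2 ^ k / n ^ (4 d)`, and `T1 ≥ η 2 ^ k / 6 - 1`.
-/

set_option autoImplicit false

namespace Pool.Agent.UCT

open Filter

private theorem half_le_floor {x : ℝ} (hx : 1 ≤ x) : x / 2 ≤ (⌊x⌋₊ : ℝ) := by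
  have h1 : x < (⌊x⌋₊ : ℝ) + 1 := Nat.lt_floor_add_one x
  have h2 : 1 ≤ ⌊x⌋₊ := Nat.floor_pos.2 hx
  have h3 : (1 : ℝ) ≤ (⌊x⌋₊ : ℝ) := by exact_mod_cast h2
  linarith

private theorem ceil_le_two {x : ℝ} (hx : 1 ≤ x) : (⌈x⌉₊ : ℝ) ≤ 2 * x := by
  have h1 : (⌈x⌉₊ : ℝ) < x + 1 := Nat.ceil_lt_add_one (by linarith)
  linarith

private theorem ev_ge (e B : ℝ) (he : 0 < e) : ∀ᶠ n : ℕ in atTop, B < (n : ℝ) ^ e := by
  have h1 : Tendsto (fun n : ℕ => (n : ℝ) ^ e) atTop atTop :=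
    (tendsto_rpow_atTop he).comp tendsto_natCast_atTop_atTop
  exact h1.eventually_gt_atTop B

/-- `B x ^ a ≤ x ^ b` if `B < x ^ e` and `a + e ≤ b` -/
private theorem pow_cmp {x a b e B : ℝ} (hx : 1 ≤ x) (hB : B < x ^ e) (h : a + e ≤ b) :
    B * x ^ a ≤ x ^ b := by
  have hx0 : 0 < x := by linarith
  calc B * x ^ a ≤ x ^ e * x ^ a :=
        mul_le_mul_of_nonneg_right hB.le (Real.rpow_pos_of_pos hx0 a).le
    _ = x ^ (e + a) := (Real.rpow_add hx0 e a).symm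
    _ ≤ x ^ b := Real.rpow_le_rpow_of_exponent_le hx (by linarith)

private theorem kk_ge {v n : ℕ} (hv : 0 < v) : n < 4 * v * 2 ^ kk v n := by
  have h1 : n / v < 4 ^ (Nat.log 4 (n / v) + 1) := Nat.lt_pow_succ_log_self (by norm_num) _
  have h2 : (2 : ℕ) ^ kk v n = 4 ^ Nat.log 4 (n / v) := by
    unfold kk
    rw [pow_mul]
    norm_num
  have h3 := (Nat.div_lt_iff_lt_mul hv).1 h1
  rw [h2]
  calc n < 4 ^ (Nat.log 4 (n / v) + 1) * v := h3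
    _ = 4 * v * 4 ^ Nat.log 4 (n / v) := by rw [pow_succ]; ring

theorem num_levels (η d : ℝ) (K C z v : ℕ) (hη : 0 < η) (hη1 : η ≤ 1) (hd : 0 < d)
    (hK : (K : ℝ) * d ≤ 3 / 2 - 20 * d) (hK0 : 0 < K) (hC : 1 ≤ (C : ℝ) * d)
    (hz : 48 * (K : ℝ) * (C + 1) ≤ η * (z + 1)) (hv : 0 < v) :
    ∀ᶠ n : ℕ in atTop, ∀ j ≤ K,
      0 < bb d n ∧ 108 * bb d n ^ j < lamj d n j ^ 3 ∧ 0 < Qj d n j ∧
      yj d n j ≤ Zj d n j ∧ Zj d n j < yj d n j * bb d n ^ (C + 1) ∧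
      (j < K → 2 * K * (2 ^ kk v n * (bb d n * yj d n j)) ≤ TT1 η (kk v n) * Zj d n (j + 1)) ∧
      2 * K * (2 ^ kk v n * (bb d n * yj d n j)) ≤ TT1 η (kk v n) * Zj d n j ∧
      2 * K * (C + 1) * (TT2 z (kk v n) + 2 ^ kk v n / yj d n j) ≤ TT1 η (kk v n) ∧
      0 < TT1 η (kk v n) := by
  have hKr : (1 : ℝ) ≤ K := by exact_mod_cast hK0
  have hCr : (0 : ℝ) ≤ (C : ℝ) := Nat.cast_nonneg C
  have hvr : (0 : ℝ) < v := by exact_mod_cast hv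
  have hKC : (1 : ℝ) ≤ (K : ℝ) * (C + 1) := by nlinarith
  set B : ℝ := 24 * (2 * (K * (C + 1)) + 1) / η with hBd
  have hBpos : 0 < B := by rw [hBd]; positivity
  have e1 := ev_ge (3 * d) 108 (by linarith)
  have e2 := ev_ge (4 * d / 3) 2 (by linarith)
  have e3 := ev_ge (5 * d) (2 * 2 ^ (C + 1)) (by linarith)
  have e4 := ev_ge (2 * d / 3) (48 * K / η) (by linarith)
  have e5 := ev_ge (d / 3) (48 * K / η) (by linarith)
  have e6 := ev_ge (4 * d) (48 * (K * (C + 1)) / η) (by linarith)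
  filter_upwards [e1, e2, e3, e4, e5, e6, eventually_ge_atTop 1,
    eventually_ge_atTop ⌈4 * v * B⌉₊] with n h1 h2 h3 h4 h5 h6 hn hnB
  intro j hj
  have hn1 : (1 : ℝ) ≤ n := by exact_mod_cast hn
  have hn0 : (0 : ℝ) < n := by linarith
  have hge : ∀ a : ℝ, 0 ≤ a → (1 : ℝ) ≤ (n : ℝ) ^ a := fun a ha => Real.one_le_rpow hn1 ha
  have hrp : ∀ a : ℝ, 0 < (n : ℝ) ^ a := fun a => Real.rpow_pos_of_pos hn0 a
  have hj0 : (0 : ℝ) ≤ (j : ℝ) := Nat.cast_nonneg j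
  have hjK : (j : ℝ) ≤ K := by exact_mod_cast hj
  have hjd0 : 0 ≤ (j : ℝ) * d := mul_nonneg hj0 hd.le
  have hjd : (j : ℝ) * d ≤ 3 / 2 - 20 * d := le_trans (mul_le_mul_of_nonneg_right hjK hd.le) hK
  -- the power of two
  have hPn := kk_ge (n := n) hv
  set k := kk v n with hk
  have hPr : (n : ℝ) < 4 * v * 2 ^ k := by exact_mod_cast hPn
  have hPB : B < (2 : ℝ) ^ k := by
    have h7 : 4 * v * B ≤ n := le_trans (Nat.le_ceil _) (by exact_mod_cast hnB)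
    have h8 : 4 * (v : ℝ) * B < 4 * v * 2 ^ k := lt_of_le_of_lt h7 hPr
    exact lt_of_mul_lt_mul_left h8 (by positivity)
  have hP0 : (0 : ℝ) < (2 : ℝ) ^ k := by positivity
  have hηP : 24 * (2 * (K * (C + 1)) + 1) < η * (2 : ℝ) ^ k := by
    have h7 : 24 * (2 * ((K : ℝ) * (C + 1)) + 1) = η * B := by
      rw [hBd]
      field_simp
    rw [h7]
    exact mul_lt_mul_of_pos_left hPB hη
  have hT1a : (1 : ℝ) ≤ η * 2 ^ k / 6 := by
    rw [le_div_iff₀ (by norm_num : (0 : ℝ) < 6)]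
    linarith
  have hT1l : η * 2 ^ k / 12 ≤ (TT1 η k : ℝ) := by
    have := half_le_floor hT1a
    unfold TT1
    linarith
  have hT1m : η * 2 ^ k / 6 - 1 ≤ (TT1 η k : ℝ) := by
    have := Nat.lt_floor_add_one (η * 2 ^ k / 6)
    unfold TT1
    linarith
  -- the parameters
  have hbu : (bb d n : ℝ) ≤ (n : ℝ) ^ d := Nat.floor_le (hrp _).le
  have hbl : (n : ℝ) ^ d / 2 ≤ (bb d n : ℝ) := half_le_floor (hge _ hd.le)
  have hb0 : 0 < bb d n := Nat.floor_pos.2 (hge _ hd.le)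
  have hyu : ∀ i : ℕ, (yj d n i : ℝ) ≤ 2 * (n : ℝ) ^ ((i : ℝ) * d / 3 + 4 * d) := fun i =>
    ceil_le_two (hge _ (by have : 0 ≤ (i : ℝ) * d := mul_nonneg (Nat.cast_nonneg i) hd.le
                           linarith))
  have hyl : ∀ i : ℕ, (n : ℝ) ^ ((i : ℝ) * d / 3 + 4 * d) ≤ (yj d n i : ℝ) := fun i =>
    Nat.le_ceil _
  have hZl : ∀ i : ℕ, (n : ℝ) ^ (1 - (i : ℝ) * d / 3 - 8 * d) ≤ (Zj d n i : ℝ) := fun i => by
    have := Nat.lt_floor_add_one ((n : ℝ) ^ (1 - (i : ℝ) * d / 3 - 8 * d))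
    unfold Zj
    push_cast
    exact this.le
  have hby : 2 * (K : ℝ) * (2 ^ k * (bb d n * yj d n j)) ≤
      4 * K * 2 ^ k * (n : ℝ) ^ ((j : ℝ) * d / 3 + 5 * d) := by
    have h7 : (bb d n : ℝ) * yj d n j ≤
        (n : ℝ) ^ d * (2 * (n : ℝ) ^ ((j : ℝ) * d / 3 + 4 * d)) :=
      mul_le_mul hbu (hyu j) (Nat.cast_nonneg _) (hrp _).le
    have h8 : (n : ℝ) ^ ((j : ℝ) * d / 3 + 5 * d) =
        (n : ℝ) ^ d * (n : ℝ) ^ ((j : ℝ) * d / 3 + 4 * d) := by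
      rw [← Real.rpow_add hn0]
      congr 1
      ring
    rw [h8]
    have h9 : 0 ≤ 2 * (K : ℝ) * 2 ^ k := by positivity
    have h10 := mul_le_mul_of_nonneg_left h7 h9
    linarith
  -- the common estimate of the sixth and the seventh condition
  have key : ∀ (i : ℕ) (e : ℝ), 48 * K / η < (n : ℝ) ^ e →
      (j : ℝ) * d / 3 + 5 * d + e ≤ 1 - (i : ℝ) * d / 3 - 8 * d →
      2 * K * (2 ^ k * (bb d n * yj d n j)) ≤ TT1 η k * Zj d n i := by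
    intro i e he1 he2
    have h7 := pow_cmp hn1 he1 he2
    have h8 : 4 * K * 2 ^ k * (n : ℝ) ^ ((j : ℝ) * d / 3 + 5 * d) =
        (η * 2 ^ k / 12) * (48 * K / η * (n : ℝ) ^ ((j : ℝ) * d / 3 + 5 * d)) := by
      field_simp
      ring
    have h9 : 2 * (K : ℝ) * (2 ^ k * (bb d n * yj d n j)) ≤ (TT1 η k : ℝ) * Zj d n i := by
      refine le_trans hby ?_
      rw [h8]
      refine mul_le_mul hT1l (le_trans h7 (hZl i)) ?_ (Nat.cast_nonneg _)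
      have := hrp ((j : ℝ) * d / 3 + 5 * d)
      positivity
    exact_mod_cast h9
  refine ⟨hb0, ?_, ?_, ?_, ?_, ?_, ?_, ?_, ?_⟩
  · have h7 : (bb d n : ℝ) ^ j ≤ ((n : ℝ) ^ d) ^ j := pow_le_pow_left₀ (Nat.cast_nonneg _) hbu j
    have h8 : ((n : ℝ) ^ ((j : ℝ) * d / 3 + d)) ^ 3 ≤ (lamj d n j : ℝ) ^ 3 :=
      pow_le_pow_left₀ (hrp _).le (Nat.le_ceil _) 3
    have h9 : ((n : ℝ) ^ ((j : ℝ) * d / 3 + d)) ^ 3 = (n : ℝ) ^ (3 * d) * ((n : ℝ) ^ d) ^ j := by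
      rw [← Real.rpow_natCast, ← Real.rpow_natCast, ← Real.rpow_mul hn0.le,
        ← Real.rpow_mul hn0.le, ← Real.rpow_add hn0]
      congr 1
      push_cast
      ring
    have h10 : (0 : ℝ) < ((n : ℝ) ^ d) ^ j := pow_pos (hrp _) j
    have h11 : 108 * ((n : ℝ) ^ d) ^ j < (n : ℝ) ^ (3 * d) * ((n : ℝ) ^ d) ^ j :=
      mul_lt_mul_of_pos_right h1 h10
    have h12 : 108 * (bb d n : ℝ) ^ j < (lamj d n j : ℝ) ^ 3 := by
      rw [h9] at h8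
      linarith
    exact_mod_cast h12
  · exact Nat.floor_pos.2 (hge _ (by linarith))
  · have h7 : 2 * (n : ℝ) ^ ((j : ℝ) * d / 3 + 4 * d) ≤
        (n : ℝ) ^ (1 - (j : ℝ) * d / 3 - 8 * d) :=
      pow_cmp hn1 h2 (by linarith)
    have h8 : (yj d n j : ℝ) ≤ (Zj d n j : ℝ) := le_trans (hyu j) (le_trans h7 (hZl j))
    exact_mod_cast h8
  · have h7 : (Zj d n j : ℝ) ≤ 2 * n := by
      have h8 : (⌊(n : ℝ) ^ (1 - (j : ℝ) * d / 3 - 8 * d)⌋₊ : ℝ) ≤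
          (n : ℝ) ^ (1 - (j : ℝ) * d / 3 - 8 * d) := Nat.floor_le (hrp _).le
      have h9 : (n : ℝ) ^ (1 - (j : ℝ) * d / 3 - 8 * d) ≤ (n : ℝ) ^ (1 : ℝ) :=
        Real.rpow_le_rpow_of_exponent_le hn1 (by linarith)
      rw [Real.rpow_one] at h9
      unfold Zj
      push_cast
      linarith
    have h8 : ((n : ℝ) ^ d / 2) ^ (C + 1) ≤ (bb d n : ℝ) ^ (C + 1) :=
      pow_le_pow_left₀ (by have := hrp d; positivity) hbl _
    have h9 : ((n : ℝ) ^ d / 2) ^ (C + 1) = (n : ℝ) ^ (((C : ℝ) + 1) * d) / 2 ^ (C + 1) := by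
      rw [div_pow, ← Real.rpow_natCast ((n : ℝ) ^ d), ← Real.rpow_mul hn0.le]
      congr 2
      push_cast
      ring
    have h10 : (n : ℝ) ^ (4 * d) ≤ (yj d n j : ℝ) :=
      le_trans (Real.rpow_le_rpow_of_exponent_le hn1 (by linarith)) (hyl j)
    have h11 : 2 * 2 ^ (C + 1) * (n : ℝ) < (n : ℝ) ^ (4 * d) * (n : ℝ) ^ (((C : ℝ) + 1) * d) := by
      calc 2 * 2 ^ (C + 1) * (n : ℝ) < (n : ℝ) ^ (5 * d) * n := mul_lt_mul_of_pos_right h3 hn0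
        _ = (n : ℝ) ^ (5 * d + 1) := by rw [Real.rpow_add hn0, Real.rpow_one]
        _ ≤ (n : ℝ) ^ (4 * d + ((C : ℝ) + 1) * d) :=
            Real.rpow_le_rpow_of_exponent_le hn1 (by linarith)
        _ = (n : ℝ) ^ (4 * d) * (n : ℝ) ^ (((C : ℝ) + 1) * d) := Real.rpow_add hn0 _ _
    have h12 : (n : ℝ) ^ (4 * d) * ((n : ℝ) ^ (((C : ℝ) + 1) * d) / 2 ^ (C + 1)) ≤
        (yj d n j : ℝ) * (bb d n : ℝ) ^ (C + 1) := by
      rw [← h9]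
      exact mul_le_mul h10 h8 (by have := hrp d; positivity) (Nat.cast_nonneg _)
    have h13 : 2 * (n : ℝ) < (n : ℝ) ^ (4 * d) * ((n : ℝ) ^ (((C : ℝ) + 1) * d) / 2 ^ (C + 1)) := by
      rw [← mul_div_assoc, lt_div_iff₀ (by positivity)]
      linarith
    have h14 : (Zj d n j : ℝ) < (yj d n j : ℝ) * (bb d n : ℝ) ^ (C + 1) := by linarith
    exact_mod_cast h14
  · intro hjK'
    have hjK1 : (j : ℝ) + 1 ≤ K := by exact_mod_cast hjK'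
    have hjd1 : ((j : ℝ) + 1) * d ≤ 3 / 2 - 20 * d :=
      le_trans (mul_le_mul_of_nonneg_right hjK1 hd.le) hK
    refine key (j + 1) (2 * d / 3) h4 ?_
    push_cast
    linarith
  · exact key j (d / 3) h5 (by linarith)
  · have h7 : (TT2 z k : ℝ) ≤ 2 * 2 ^ k / (z + 1) + 1 := by
      unfold TT2
      push_cast
      have : ((2 * 2 ^ k / (z + 1) : ℕ) : ℝ) ≤ ((2 * 2 ^ k : ℕ) : ℝ) / ((z + 1 : ℕ) : ℝ) :=
        Nat.cast_div_le
      push_cast at this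
      linarith
    have hy4 : (n : ℝ) ^ (4 * d) ≤ (yj d n j : ℝ) :=
      le_trans (Real.rpow_le_rpow_of_exponent_le hn1 (by linarith)) (hyl j)
    have h8 : ((2 ^ k / yj d n j : ℕ) : ℝ) ≤ 2 ^ k / (n : ℝ) ^ (4 * d) := by
      have h9 : ((2 ^ k / yj d n j : ℕ) : ℝ) ≤ ((2 ^ k : ℕ) : ℝ) / (yj d n j : ℝ) :=
        Nat.cast_div_le
      push_cast at h9
      exact le_trans h9 (div_le_div_of_nonneg_left hP0.le (hrp _) hy4)
    have hz0 : (0 : ℝ) < (z : ℝ) + 1 := by positivity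
    have h9 : 2 * ((K : ℝ) * (C + 1)) * (2 * 2 ^ k / (z + 1)) ≤ η * 2 ^ k / 12 := by
      rw [← mul_div_assoc, div_le_iff₀ hz0]
      have h10 := mul_le_mul_of_nonneg_right hz hP0.le
      linarith
    have h10 : 2 * ((K : ℝ) * (C + 1)) * (2 ^ k / (n : ℝ) ^ (4 * d)) ≤ η * 2 ^ k / 24 := by
      rw [← mul_div_assoc, div_le_iff₀ (hrp _)]
      have h11 : 48 * ((K : ℝ) * (C + 1)) ≤ η * (n : ℝ) ^ (4 * d) := by
        have h12 := (div_lt_iff₀ hη).1 h6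
        linarith
      have h12 := mul_le_mul_of_nonneg_right h11 hP0.le
      linarith
    have h11 : 2 * (K : ℝ) * (C + 1) * (TT2 z k + ((2 ^ k / yj d n j : ℕ) : ℝ)) ≤
        (TT1 η k : ℝ) := by
      have h12 : (TT2 z k : ℝ) + ((2 ^ k / yj d n j : ℕ) : ℝ) ≤
          2 * 2 ^ k / (z + 1) + 1 + 2 ^ k / (n : ℝ) ^ (4 * d) := by linarith
      have h13 : (0 : ℝ) ≤ 2 * ((K : ℝ) * (C + 1)) := by positivity
      have h14 := mul_le_mul_of_nonneg_left h12 h13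
      linarith
    exact_mod_cast h11
  · unfold TT1
    exact Nat.floor_pos.2 hT1a

end Pool.Agent.UCT
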