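import Mathlib

/-!
# UCT NumRed: parameters, condition for the red union bound

PROOF. As `Pool.Agent.UCR.num_red'` (`Pool/Agent/UCR/NumB2.lean`, helper78), with `2 + δ` replaced
by `A`. For `s ≥ 1` (enlarge `s`) take `t` large and `h = t (t - 1) / (4 s)` (floor), so that
`s (2 h) ≤ t (t - 1) / 2` and `h ≥ t (t - 1) / (4 s) - 1 > A t / d`, `h > 0`. For large `n`:
`⌊n ^ A⌋ ≤ n ^ A`, `⌈n ^ (α + d)⌉ ≤ 2 n ^ (α + d)`, `⌊n ^ (α + 2 d)⌋ ≥ n ^ (α + 2 d) / 2`, so it is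
enough that `4 * 2 ^ t * 4 ^ (t (t - 1) / 2) * 160 ^ h * n ^ (A t) ≤ n ^ (d h)`, where
`A t < d h`.
-/

set_option autoImplicit false

namespace Pool.Agent.UCT

open Filter

private lemma floor_half (y : ℝ) (hy : 1 ≤ y) : y / 2 ≤ (⌊y⌋₊ : ℝ) := by
  have h1 : (1 : ℝ) ≤ ⌊y⌋₊ := by
    have : 1 ≤ ⌊y⌋₊ := Nat.le_floor (by exact_mod_cast hy)
    exact_mod_cast this
  have h2 := Nat.lt_floor_add_one y
  linarith

private lemma ceil_two (y : ℝ) (hy : 1 ≤ y) : (⌈y⌉₊ : ℝ) ≤ 2 * y := by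
  have h2 := Nat.ceil_lt_add_one (le_trans zero_le_one hy)
  linarith

private lemma num_key (t h T : ℕ) (A d α x : ℝ) (hα : 0 ≤ α) (hd : 0 < d) (hx : 1 ≤ x)
    (hC : 4 * 2 ^ t * 4 ^ T * 160 ^ h ≤ x ^ (d * h - A * t)) :
    (4 : ℝ) * (2 * (⌊x ^ A⌋₊ : ℝ)) ^ t * 4 ^ T * (40 * (⌈x ^ (α + d)⌉₊ : ℝ)) ^ h ≤
      (⌊x ^ (α + 2 * d)⌋₊ : ℝ) ^ h := by
  have hx0 : (0 : ℝ) < x := by linarith
  have hA : (⌊x ^ A⌋₊ : ℝ) ≤ x ^ A := Nat.floor_le (by positivity)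
  have hB : (⌈x ^ (α + d)⌉₊ : ℝ) ≤ 2 * x ^ (α + d) :=
    ceil_two _ (Real.one_le_rpow hx (by linarith))
  have hD : x ^ (α + 2 * d) / 2 ≤ (⌊x ^ (α + 2 * d)⌋₊ : ℝ) :=
    floor_half _ (Real.one_le_rpow hx (by linarith))
  have e1 : (x ^ A) ^ t = x ^ (A * t) := by
    rw [← Real.rpow_natCast, ← Real.rpow_mul hx0.le]
  have e2 : (x ^ (α + d)) ^ h = x ^ ((α + d) * h) := by
    rw [← Real.rpow_natCast, ← Real.rpow_mul hx0.le]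
  have e3 : (x ^ (α + 2 * d)) ^ h = x ^ ((α + 2 * d) * h) := by
    rw [← Real.rpow_natCast, ← Real.rpow_mul hx0.le]
  have e4 : x ^ (d * h - A * t) * x ^ (A * t) * x ^ ((α + d) * h) =
      x ^ ((α + 2 * d) * h) := by
    rw [← Real.rpow_add hx0, ← Real.rpow_add hx0]
    congr 1
    ring
  calc (4 : ℝ) * (2 * (⌊x ^ A⌋₊ : ℝ)) ^ t * 4 ^ T * (40 * (⌈x ^ (α + d)⌉₊ : ℝ)) ^ h
      ≤ 4 * (2 * x ^ A) ^ t * 4 ^ T * (40 * (2 * x ^ (α + d))) ^ h := by gcongr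
    _ = (4 * 2 ^ t * 4 ^ T * 160 ^ h) * x ^ (A * t) * x ^ ((α + d) * h) / 2 ^ h := by
        have e5 : (160 : ℝ) ^ h = 80 ^ h * 2 ^ h := by
          rw [← mul_pow]
          norm_num
        have e6 : (40 * (2 * x ^ (α + d))) ^ h = 80 ^ h * (x ^ (α + d)) ^ h := by
          rw [← mul_pow]
          ring
        rw [mul_pow 2 (x ^ A) t, e6, e1, e2, e5]
        field_simp
    _ ≤ x ^ (d * h - A * t) * x ^ (A * t) * x ^ ((α + d) * h) / 2 ^ h := by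
        gcongr
    _ = (x ^ (α + 2 * d) / 2) ^ h := by
        rw [e4, div_pow, e3]
    _ ≤ (⌊x ^ (α + 2 * d)⌋₊ : ℝ) ^ h := by
        gcongr

theorem num_red (s : ℕ) (A d : ℝ) (hA : 0 < A) (hd : 0 < d) :
    ∃ t h : ℕ, 5 ≤ t ∧ 0 < h ∧ s * (2 * h) ≤ t * (t - 1) / 2 ∧ ∀ α : ℝ, 0 ≤ α →
      ∀ᶠ n : ℕ in atTop, 4 * (2 * ⌊(n : ℝ) ^ A⌋₊) ^ t * 4 ^ (t * (t - 1) / 2) *
        (40 * ⌈(n : ℝ) ^ (α + d)⌉₊) ^ h ≤ ⌊(n : ℝ) ^ (α + 2 * d)⌋₊ ^ h := by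
  obtain ⟨K, hK⟩ := exists_nat_gt (A / d)
  have hK1 : A < K * d := (div_lt_iff₀ hd).mp hK
  have hK0 : 0 < K := by
    have : (0 : ℝ) < K := lt_trans (by positivity) hK
    exact_mod_cast this
  have hsK : 1 ≤ (s + 1) * K := Nat.mul_pos (Nat.succ_pos s) hK0
  obtain ⟨t, ht⟩ : ∃ t : ℕ, t = 4 * ((s + 1) * K) + 1 := ⟨_, rfl⟩
  have ht0 : 0 < t := by omega
  refine ⟨t, K * t, by omega, Nat.mul_pos hK0 ht0, ?_, ?_⟩
  · have h0 : t - 1 = 4 * ((s + 1) * K) := by omega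
    have h1 : t * (t - 1) = ((s + 1) * (2 * (K * t))) * 2 := by
      rw [h0]
      ring
    rw [h1, Nat.mul_div_cancel _ (by norm_num)]
    exact Nat.mul_le_mul_right _ (Nat.le_succ s)
  · intro α hα
    have htpos : (0 : ℝ) < t := by exact_mod_cast ht0
    have hexp : 0 < d * ((K * t : ℕ) : ℝ) - A * t := by
      push_cast
      nlinarith
    have hev : ∀ᶠ n : ℕ in atTop,
        (4 * 2 ^ t * 4 ^ (t * (t - 1) / 2) * 160 ^ (K * t) : ℝ) ≤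
          (n : ℝ) ^ (d * ((K * t : ℕ) : ℝ) - A * t) :=
      ((tendsto_rpow_atTop hexp).comp tendsto_natCast_atTop_atTop).eventually_ge_atTop _
    filter_upwards [hev, eventually_ge_atTop 1] with n hn hn1
    have hx1 : (1 : ℝ) ≤ n := by exact_mod_cast hn1
    have key := num_key t (K * t) (t * (t - 1) / 2) A d α n hα hd hx1 hn
    exact_mod_cast key

end Pool.Agent.UCT
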