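import Pool.Agent.UCT.NumDefs

/-!
# UCT NumThin: choice of the level for a real `x`, thin part

PROOF. `b = ⌊n ^ d⌋`, `b ≥ n ^ d / 2`, so `b ^ K ≥ n ^ (K d) / 2 ^ K ≥ n ^ (1 + ω - 21 d) / 2 ^ K
≥ n ^ (1 + ω - δ) ≥ x` for large `n` (`δ ≥ 50 d`). Let `j ≤ K` be the least number with
`x ≤ b ^ j`. If `j = 0` then `x = 1` and `n ^ δ ≥ 6 w (2 n ^ (4 d)) + 1`. If `j ≥ 1` then
`x > b ^ (j - 1) ≥ n ^ ((j - 1) d) / 2 ^ K`, so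
`n ^ δ x ^ (1 / 3) ≥ n ^ (δ + (j - 1) d / 3) / 2 ^ K ≥ 6 w (2 n ^ (j d / 3 + 4 d)) + 1`
`≥ 6 w y_j + 1`, as `δ - d / 3 > 4 d`. The condition `6 w ≤ ..` follows from `y_j ≥ 1`.
-/

set_option autoImplicit false

namespace Pool.Agent.UCT

open Filter

private theorem pow_lt (a b C : ℝ) (h : a < b) :
    ∀ᶠ n : ℕ in atTop, C * (n : ℝ) ^ a < (n : ℝ) ^ b := by
  have h1 : Tendsto (fun n : ℕ => (n : ℝ) ^ (b - a)) atTop atTop :=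
    (tendsto_rpow_atTop (sub_pos.2 h)).comp tendsto_natCast_atTop_atTop
  filter_upwards [h1.eventually_gt_atTop C, eventually_gt_atTop 0] with n hn hn0
  have hp : (0 : ℝ) < n := by exact_mod_cast hn0
  have h2 : (n : ℝ) ^ b = (n : ℝ) ^ (b - a) * (n : ℝ) ^ a := by
    rw [← Real.rpow_add hp]; congr 1; ring
  rw [h2]
  exact mul_lt_mul_of_pos_right hn (Real.rpow_pos_of_pos hp a)

theorem num_thin (ω δ d : ℝ) (K w : ℕ) (hd : 0 < d) (hδ : 50 * d ≤ δ)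
    (hK : 1 + ω - 21 * d ≤ (K : ℝ) * d) :
    ∀ᶠ n : ℕ in atTop, ∀ x : ℝ, 1 ≤ x → x ≤ (n : ℝ) ^ (1 + ω - δ) →
      ∃ j ≤ K, x ≤ ((bb d n ^ j : ℕ) : ℝ) ∧ 6 * w ≤ ⌊(n : ℝ) ^ δ * x ^ (1 / 3 : ℝ)⌋₊ ∧
        6 * w * yj d n j ≤ ⌊(n : ℝ) ^ δ * x ^ (1 / 3 : ℝ)⌋₊ := by
  have e1 := pow_lt (1 + ω - δ) (1 + ω - 21 * d) (2 ^ K) (by linarith)
  have e2 := pow_lt 0 (45 * d) (12 * w * 2 ^ K) (by linarith)
  filter_upwards [e1, e2, eventually_ge_atTop 1] with n h1 h2 h3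
  intro x hx1 hx2
  have hn1 : (1 : ℝ) ≤ n := by exact_mod_cast h3
  have hn0 : (0 : ℝ) < n := by linarith
  rw [Real.rpow_zero, mul_one] at h2
  have hnd : (1 : ℝ) ≤ (n : ℝ) ^ d := Real.one_le_rpow hn1 hd.le
  have hb1 : 1 ≤ bb d n := Nat.le_floor (by simpa using hnd)
  have hb1r : (1 : ℝ) ≤ (bb d n : ℝ) := by exact_mod_cast hb1
  have hb2 : (n : ℝ) ^ d ≤ 2 * (bb d n : ℝ) := by
    have h4 : (n : ℝ) ^ d < (bb d n : ℝ) + 1 := Nat.lt_floor_add_one ((n : ℝ) ^ d)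
    linarith
  have hbj : ∀ j : ℕ, (n : ℝ) ^ ((j : ℝ) * d) ≤ 2 ^ j * ((bb d n ^ j : ℕ) : ℝ) := by
    intro j
    have h4 : (n : ℝ) ^ ((j : ℝ) * d) = ((n : ℝ) ^ d) ^ j := by
      rw [mul_comm, Real.rpow_mul hn0.le, Real.rpow_natCast]
    rw [h4]
    push_cast
    rw [← mul_pow]
    exact pow_le_pow_left₀ (by positivity) hb2 j
  have hxK : x ≤ ((bb d n ^ K : ℕ) : ℝ) := by
    have h4 : (n : ℝ) ^ (1 + ω - 21 * d) ≤ (n : ℝ) ^ ((K : ℝ) * d) :=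
      Real.rpow_le_rpow_of_exponent_le hn1 hK
    have h5 := hbj K
    have h6 : (2 : ℝ) ^ K * (n : ℝ) ^ (1 + ω - δ) ≤ 2 ^ K * ((bb d n ^ K : ℕ) : ℝ) := by
      linarith
    have h7 := le_of_mul_le_mul_left h6 (by positivity)
    linarith
  classical
  have hex : ∃ j, x ≤ ((bb d n ^ j : ℕ) : ℝ) := ⟨K, hxK⟩
  obtain ⟨j, hj1, hjK, hjmin⟩ : ∃ j, x ≤ ((bb d n ^ j : ℕ) : ℝ) ∧ j ≤ K ∧
      ∀ i < j, ¬ x ≤ ((bb d n ^ i : ℕ) : ℝ) :=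
    ⟨Nat.find hex, Nat.find_spec hex, Nat.find_min' hex hxK, fun i hi => Nat.find_min hex hi⟩
  have hX1 : (1 : ℝ) ≤ x ^ (1 / 3 : ℝ) := Real.one_le_rpow hx1 (by norm_num)
  have h2K : (1 : ℝ) ≤ 2 ^ K := one_le_pow₀ (by norm_num)
  have hA : (n : ℝ) ^ ((j : ℝ) * d / 3) ≤ 2 ^ K * x ^ (1 / 3 : ℝ) * (n : ℝ) ^ (d / 3) := by
    have hd3 : (1 : ℝ) ≤ (n : ℝ) ^ (d / 3) := Real.one_le_rpow hn1 (by positivity)
    rcases Nat.eq_zero_or_pos j with h0 | hpos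
    · subst h0
      simp only [Nat.cast_zero, zero_mul, zero_div, Real.rpow_zero]
      have h5 : (1 : ℝ) ≤ 2 ^ K * x ^ (1 / 3 : ℝ) := one_le_mul_of_one_le_of_one_le h2K hX1
      exact one_le_mul_of_one_le_of_one_le h5 hd3
    · obtain ⟨i, rfl⟩ : ∃ i, j = i + 1 := ⟨j - 1, by omega⟩
      have hlt : ((bb d n ^ i : ℕ) : ℝ) < x := not_le.mp (hjmin i (by omega))
      have h5 : (n : ℝ) ^ ((i : ℝ) * d) ≤ 2 ^ K * x := by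
        have h6 : (2 : ℝ) ^ i ≤ 2 ^ K := pow_le_pow_right₀ (by norm_num) (by omega)
        calc (n : ℝ) ^ ((i : ℝ) * d) ≤ 2 ^ i * ((bb d n ^ i : ℕ) : ℝ) := hbj i
          _ ≤ 2 ^ K * x := by
            apply mul_le_mul h6 hlt.le (by positivity) (by positivity)
      have h7 : ((n : ℝ) ^ ((i : ℝ) * d)) ^ (1 / 3 : ℝ) ≤ (2 ^ K * x) ^ (1 / 3 : ℝ) :=
        Real.rpow_le_rpow (by positivity) h5 (by norm_num)
      rw [← Real.rpow_mul hn0.le, Real.mul_rpow (by positivity) (by linarith)] at h7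
      have h8 : ((2 : ℝ) ^ K) ^ (1 / 3 : ℝ) ≤ 2 ^ K := by
        calc ((2 : ℝ) ^ K) ^ (1 / 3 : ℝ) ≤ ((2 : ℝ) ^ K) ^ (1 : ℝ) :=
              Real.rpow_le_rpow_of_exponent_le h2K (by norm_num)
          _ = 2 ^ K := Real.rpow_one _
      have h9 : (n : ℝ) ^ (((i + 1 : ℕ) : ℝ) * d / 3)
          = (n : ℝ) ^ ((i : ℝ) * d * (1 / 3)) * (n : ℝ) ^ (d / 3) := by
        rw [← Real.rpow_add hn0]
        congr 1
        push_cast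
        ring
      rw [h9]
      apply mul_le_mul_of_nonneg_right _ (by positivity)
      calc (n : ℝ) ^ ((i : ℝ) * d * (1 / 3)) ≤ ((2 : ℝ) ^ K) ^ (1 / 3 : ℝ) * x ^ (1 / 3 : ℝ) := h7
        _ ≤ 2 ^ K * x ^ (1 / 3 : ℝ) := mul_le_mul_of_nonneg_right h8 (by positivity)
  have key : 12 * (w : ℝ) * (n : ℝ) ^ ((j : ℝ) * d / 3 + 4 * d)
      ≤ (n : ℝ) ^ δ * x ^ (1 / 3 : ℝ) := by
    have h10 : (n : ℝ) ^ ((j : ℝ) * d / 3 + 4 * d)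
        = (n : ℝ) ^ ((j : ℝ) * d / 3) * (n : ℝ) ^ (4 * d) := Real.rpow_add hn0 _ _
    have h11 : (n : ℝ) ^ (45 * d) * ((n : ℝ) ^ (d / 3) * (n : ℝ) ^ (4 * d)) ≤ (n : ℝ) ^ δ := by
      rw [← Real.rpow_add hn0, ← Real.rpow_add hn0]
      exact Real.rpow_le_rpow_of_exponent_le hn1 (by linarith)
    rw [h10]
    calc 12 * (w : ℝ) * ((n : ℝ) ^ ((j : ℝ) * d / 3) * (n : ℝ) ^ (4 * d))
        ≤ 12 * (w : ℝ) * ((2 ^ K * x ^ (1 / 3 : ℝ) * (n : ℝ) ^ (d / 3)) * (n : ℝ) ^ (4 * d)) := by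
          apply mul_le_mul_of_nonneg_left _ (by positivity)
          exact mul_le_mul_of_nonneg_right hA (by positivity)
      _ = (12 * (w : ℝ) * 2 ^ K) * ((n : ℝ) ^ (d / 3) * (n : ℝ) ^ (4 * d))
          * x ^ (1 / 3 : ℝ) := by ring
      _ ≤ (n : ℝ) ^ (45 * d) * ((n : ℝ) ^ (d / 3) * (n : ℝ) ^ (4 * d))
          * x ^ (1 / 3 : ℝ) := by
          apply mul_le_mul_of_nonneg_right _ (by positivity)
          exact mul_le_mul_of_nonneg_right h2.le (by positivity)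
      _ ≤ (n : ℝ) ^ δ * x ^ (1 / 3 : ℝ) := mul_le_mul_of_nonneg_right h11 (by positivity)
  have hy1 : (1 : ℝ) ≤ (n : ℝ) ^ ((j : ℝ) * d / 3 + 4 * d) :=
    Real.one_le_rpow hn1 (by positivity)
  have hyc : ((yj d n j : ℕ) : ℝ) ≤ 2 * (n : ℝ) ^ ((j : ℝ) * d / 3 + 4 * d) := by
    have h12 : ((yj d n j : ℕ) : ℝ) < (n : ℝ) ^ ((j : ℝ) * d / 3 + 4 * d) + 1 :=
      Nat.ceil_lt_add_one (by positivity)
    linarith
  have hypos : 1 ≤ yj d n j := Nat.ceil_pos.2 (by positivity)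
  have hfin : 6 * w * yj d n j ≤ ⌊(n : ℝ) ^ δ * x ^ (1 / 3 : ℝ)⌋₊ := by
    apply Nat.le_floor
    push_cast
    calc 6 * (w : ℝ) * (yj d n j : ℝ)
        ≤ 6 * (w : ℝ) * (2 * (n : ℝ) ^ ((j : ℝ) * d / 3 + 4 * d)) :=
          mul_le_mul_of_nonneg_left hyc (by positivity)
      _ = 12 * (w : ℝ) * (n : ℝ) ^ ((j : ℝ) * d / 3 + 4 * d) := by ring
      _ ≤ _ := key
  exact ⟨j, hjK, hj1, le_trans (Nat.le_mul_of_pos_right _ hypos) hfin, hfin⟩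

end Pool.Agent.UCT
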