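import Pool.Agent.UCT.Defs

/-!
# UCT Plane: pairwise mixing orders, from lines in a plane

PROOF. Let `q = 2 ^ m`, `𝔽 = GaloisField 2 m` (`q` elements; if `m = 0` then `2 ^ k = 1`, treat
it separately or use any field argument that covers it: with one position everything is trivial,
`z + 1 ≤ 1` gives `z = 0` and then there are no families; see below), `e : 𝔽 ≃ Fin q`. Positions are
the pairs `(x, y) ∈ 𝔽 × 𝔽`. For `a ∈ 𝔽` let `ρ_a (x, y) = q e(a x + y) + e(x) ∈ Fin (q ^ 2)`, a
bijection. Take `z + 1` different elements `a_0, .., a_z` (`z + 1 ≤ q`). For an ordered pair `i ≠ j`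
put `σ_(i,j) = ρ_(a_j) ∘ ρ_(a_i)⁻¹`. The index set `{(i, j) : i ≠ j}` is `Fin (z + 1) × Fin z` by
`(i, j') ↦ (i, i.succAbove j')`, and `Fin ((z + 1) * z)` by `finProdFinEquiv`.
(1) `Mixing2`: `P` with `ρ_i(P) ∈ [l, h)` and `ρ_j(P) ∈ [l', h')`: the block `e(a_i x + y)` of
`ρ_i(P)` is one of at most `Λ / q + 2` values, the block `e(a_j x + y)` of `ρ_j(P)` too, and the two
blocks determine `(x, y)` as `a_i ≠ a_j`. So the number is at most `(Λ / q + 2) ^ 2` and
`q ^ 2 (Λ / q + 2) ^ 2 ≤ (Λ + 2 q) ^ 2 ≤ 2 Λ ^ 2 + 8 q ^ 2`.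
(2) Let `n(P)` = the number of `i` with `ρ_i(P) ∈ S`. The sum over all `P` of `n(P)` is
`(z + 1) |S| ≥ 2 M`. The sum over the ordered pairs `i ≠ j` of
`|{P : ρ_i(P) ∈ S, ρ_j(P) ∈ S}|` is the sum of `n(P) (n(P) - 1) ≥ n(P) - 1`, so at least `M`, and
one of the `(z + 1) z` summands is at least `M / ((z + 1) z)`. With `s = ρ_i(P)` this is
`|{s ∈ S : σ_(i,j) s ∈ S}|`.
-/

set_option autoImplicit false

namespace Pool.Agent.UCT

/-- the position of the point `(x, y)` in the order of slope `a` -/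
private noncomputable def rho {K : Type} [Field K] {q : ℕ} (e : K ≃ Fin q) (a : K) :
    K × K ≃ Fin (q * q) :=
  (Equiv.trans
    { toFun := fun P => (a * P.1 + P.2, P.1)
      invFun := fun Q => (Q.2, Q.1 - a * Q.2)
      left_inv := fun P => by
        ext
        · rfl
        · simp
      right_inv := fun Q => by
        ext
        · simp
        · rfl }
    (e.prodCongr e)).trans finProdFinEquiv

private theorem rho_div {K : Type} [Field K] {q : ℕ} (e : K ≃ Fin q) (a : K) (P : K × K) :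
    ((rho e a P : Fin (q * q)) : ℕ) / q = (e (a * P.1 + P.2) : ℕ) := by
  have hq : 0 < q := lt_of_le_of_lt (Nat.zero_le _) (e P.1).isLt
  have h : ((rho e a P : Fin (q * q)) : ℕ) = (e P.1 : ℕ) + q * (e (a * P.1 + P.2) : ℕ) := rfl
  rw [h, Nat.add_mul_div_left _ _ hq, Nat.div_eq_of_lt (e P.1).isLt, zero_add]

private theorem div_bound (q Λ l : ℕ) (hq : 0 < q) :
    (l + Λ) / q + 1 - l / q ≤ Λ / q + 2 := by
  have h1 : l < q * (l / q + 1) := Nat.lt_mul_div_succ l hq
  have h2 : Λ < q * (Λ / q + 1) := Nat.lt_mul_div_succ Λ hq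
  have h3 : (l + Λ) / q < l / q + Λ / q + 2 := by
    rw [Nat.div_lt_iff_lt_mul hq]
    nlinarith
  have h4 : ∀ x y w : ℕ, x < y + w + 2 → x + 1 - y ≤ w + 2 := by
    intro x y w h
    omega
  exact h4 _ _ _ h3

private theorem mix {K : Type} [Field K] (m : ℕ) (e : K ≃ Fin (2 ^ m))
    (R R' : K × K ≃ Fin (2 ^ (2 * m))) (a a' : K) (ha : a ≠ a')
    (h1 : ∀ P, (R P : ℕ) / 2 ^ m = (e (a * P.1 + P.2) : ℕ))
    (h2 : ∀ P, (R' P : ℕ) / 2 ^ m = (e (a' * P.1 + P.2) : ℕ)) :
    Mixing2 (2 * m) (R.symm.trans R') := by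
  intro Λ l h l' h' hh hh'
  have hM : 2 ^ (2 * m) = 2 ^ m * 2 ^ m := by rw [two_mul, pow_add]
  have hq : 0 < 2 ^ m := by positivity
  have hcard : (Finset.univ.filter (fun p : Fin (2 ^ (2 * m)) =>
      l ≤ (p : ℕ) ∧ (p : ℕ) < h ∧ l' ≤ ((R.symm.trans R') p : ℕ) ∧
        ((R.symm.trans R') p : ℕ) < h')).card ≤ (Λ / 2 ^ m + 2) * (Λ / 2 ^ m + 2) := by
    have hle : ((Finset.Icc (l / 2 ^ m) ((l + Λ) / 2 ^ m)) ×ˢ
        (Finset.Icc (l' / 2 ^ m) ((l' + Λ) / 2 ^ m))).card
        ≤ (Λ / 2 ^ m + 2) * (Λ / 2 ^ m + 2) := by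
      rw [Finset.card_product, Nat.card_Icc, Nat.card_Icc]
      exact Nat.mul_le_mul (div_bound _ _ _ hq) (div_bound _ _ _ hq)
    refine le_trans ?_ hle
    refine Finset.card_le_card_of_injOn (fun p => ((p : ℕ) / 2 ^ m,
      ((R.symm.trans R') p : ℕ) / 2 ^ m)) (fun p hp => ?_) (fun p _ p' _ hpp => ?_)
    · obtain ⟨b1, b2, b3, b4⟩ := (Finset.mem_filter.mp hp).2
      refine Finset.mem_coe.mpr (Finset.mem_product.mpr ⟨Finset.mem_Icc.mpr ⟨?_, ?_⟩,
        Finset.mem_Icc.mpr ⟨?_, ?_⟩⟩)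
      · exact Nat.div_le_div_right b1
      · exact Nat.div_le_div_right (by omega)
      · exact Nat.div_le_div_right b3
      · exact Nat.div_le_div_right (by omega)
    · obtain ⟨P, rfl⟩ := R.surjective p
      obtain ⟨P', rfl⟩ := R.surjective p'
      simp only [Equiv.trans_apply, Equiv.symm_apply_apply, h1, h2, Prod.mk.injEq] at hpp
      have e1 := e.injective (Fin.ext hpp.1)
      have e2 := e.injective (Fin.ext hpp.2)
      have e3 : (a - a') * (P.1 - P'.1) = 0 := by linear_combination e1 - e2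
      have e4 : P.1 = P'.1 := by
        rcases mul_eq_zero.mp e3 with h0 | h0
        · exact absurd (sub_eq_zero.mp h0) ha
        · exact sub_eq_zero.mp h0
      have e5 : P.2 = P'.2 := by
        rw [e4] at e1
        exact add_left_cancel e1
      rw [Prod.ext e4 e5]
  have hmul := Nat.mul_le_mul_left (2 ^ (2 * m)) hcard
  refine le_trans hmul ?_
  rw [hM]
  have hd : 2 ^ m * (Λ / 2 ^ m) ≤ Λ := Nat.mul_div_le Λ (2 ^ m)
  set q := 2 ^ m
  set c := Λ / q
  have h5 : q * q * ((c + 2) * (c + 2)) = (q * c + 2 * q) * (q * c + 2 * q) := by ring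
  rw [h5]
  have h6 : (q * c + 2 * q) * (q * c + 2 * q) ≤ (Λ + 2 * q) * (Λ + 2 * q) :=
    Nat.mul_le_mul (by omega) (by omega)
  refine le_trans h6 ?_
  zify
  nlinarith [sq_nonneg ((Λ : ℤ) - 2 * (q : ℤ))]

theorem exists_perms (z m : ℕ) (hz : z + 1 ≤ 2 ^ m) :
    ∃ σ : Fin ((z + 1) * z) → Equiv.Perm (Fin (2 ^ (2 * m))),
      (∀ f, Mixing2 (2 * m) (σ f)) ∧
      ∀ S : Finset (Fin (2 ^ (2 * m))), 2 * 2 ^ (2 * m) ≤ (z + 1) * S.card →
        ∃ f, 2 ^ (2 * m) ≤ (z + 1) * z * (S.filter (fun p => σ f p ∈ S)).card := by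
  classical
  have hM : 2 ^ m * 2 ^ m = 2 ^ (2 * m) := by rw [two_mul, pow_add]
  rcases Nat.eq_zero_or_pos m with rfl | hm
  · have hz0 : z = 0 := by simpa using hz
    subst hz0
    refine ⟨fun f => 1, fun f => ?_, fun S hS => ?_⟩
    · exact absurd f.isLt (by simp)
    · have h1 : S.card ≤ 1 := by
        have := Finset.card_le_univ S
        simpa using this
      simp at hS
      omega
  have : Fact (Nat.Prime 2) := ⟨Nat.prime_two⟩
  have : Fintype (GaloisField 2 m) := Fintype.ofFinite _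
  have hcardK : Fintype.card (GaloisField 2 m) = 2 ^ m := by
    rw [← Nat.card_eq_fintype_card]
    exact GaloisField.card 2 m (by omega)
  have e : GaloisField 2 m ≃ Fin (2 ^ m) := Fintype.equivFinOfCardEq hcardK
  let a : Fin (z + 1) → GaloisField 2 m := fun i => e.symm (Fin.castLE hz i)
  have ha : Function.Injective a := fun i j hij =>
    Fin.castLE_injective hz (e.symm.injective hij)
  let R : Fin (z + 1) → (GaloisField 2 m × GaloisField 2 m ≃ Fin (2 ^ (2 * m))) :=
    fun i => (rho e (a i)).trans (finCongr hM)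
  have hR : ∀ i P, (R i P : ℕ) / 2 ^ m = (e (a i * P.1 + P.2) : ℕ) := fun i P =>
    rho_div e (a i) P
  let pr : Fin ((z + 1) * z) → Fin (z + 1) × Fin z := finProdFinEquiv.symm
  refine ⟨fun f => (R (pr f).1).symm.trans (R ((pr f).1.succAbove (pr f).2)), fun f => ?_,
    fun S hS => ?_⟩
  · exact mix m e _ _ (a (pr f).1) (a ((pr f).1.succAbove (pr f).2))
      (fun h => (Fin.succAbove_ne _ _) (ha h).symm) (hR _) (hR _)
  · let ind : Fin (z + 1) → GaloisField 2 m × GaloisField 2 m → ℕ :=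
      fun i P => if R i P ∈ S then 1 else 0
    let C : Fin (z + 1) → Fin (z + 1) → ℕ := fun i j => ∑ P, ind i P * ind j P
    have hC : ∀ i j, (S.filter (fun p => ((R i).symm.trans (R j)) p ∈ S)).card = C i j := by
      intro i j
      rw [Finset.card_filter]
      have h1 : (∑ p ∈ S, if ((R i).symm.trans (R j)) p ∈ S then 1 else 0)
          = ∑ p, if p ∈ S then (if ((R i).symm.trans (R j)) p ∈ S then 1 else 0) else 0 := by
        rw [Finset.sum_ite_mem, Finset.univ_inter]
      rw [h1, ← Equiv.sum_comp (R i)]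
      refine Finset.sum_congr rfl (fun P _ => ?_)
      simp only [Equiv.trans_apply, Equiv.symm_apply_apply, ind]
      by_cases g1 : R i P ∈ S <;> by_cases g2 : R j P ∈ S <;> simp [g1, g2]
    have hS1 : ∀ i, ∑ P, ind i P = S.card := by
      intro i
      simp only [ind]
      rw [Equiv.sum_comp (R i) (fun p => if p ∈ S then 1 else 0)]
      simp
    have hdiag : ∀ i, C i i = S.card := by
      intro i
      rw [← hS1 i]
      refine Finset.sum_congr rfl (fun P _ => ?_)
      simp only [ind]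
      by_cases g1 : R i P ∈ S <;> simp [g1]
    have hsum : ∑ f : Fin ((z + 1) * z), C (pr f).1 ((pr f).1.succAbove (pr f).2)
        = ∑ i : Fin (z + 1), ∑ j : Fin z, C i (i.succAbove j) := by
      rw [← Equiv.sum_comp finProdFinEquiv, Fintype.sum_prod_type]
      simp only [pr, Equiv.symm_apply_apply]
    have hrow : ∀ i, S.card + ∑ j : Fin z, C i (i.succAbove j) = ∑ j, C i j := by
      intro i
      rw [Fin.sum_univ_succAbove _ i, hdiag i]
    have hall : ∑ i, ∑ j, C i j = ∑ P, (∑ i, ind i P) * (∑ j, ind j P) := by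
      simp only [C, Finset.sum_mul_sum]
      rw [Finset.sum_comm]
      have h2 : ∀ j, ∑ i, ∑ P, ind i P * ind j P = ∑ P, ∑ i, ind i P * ind j P := fun j =>
        Finset.sum_comm
      simp only [h2]
      rw [Finset.sum_comm]
      refine Finset.sum_congr rfl (fun P _ => ?_)
      rw [Finset.sum_comm]
    have hn : ∑ P, ∑ i, ind i P = (z + 1) * S.card := by
      rw [Finset.sum_comm]
      simp only [hS1]
      simp
    have hcardP : (∑ _P : GaloisField 2 m × GaloisField 2 m, 1) = 2 ^ (2 * m) := by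
      rw [Finset.sum_const, smul_eq_mul, mul_one, Finset.card_univ, Fintype.card_prod, hcardK,
        hM]
    have hsq : 2 * ∑ P, ∑ i, ind i P
        ≤ ∑ P, (∑ i, ind i P) * (∑ j, ind j P) + 2 ^ (2 * m) := by
      rw [← hcardP, ← Finset.sum_add_distrib, Finset.mul_sum]
      refine Finset.sum_le_sum (fun P _ => ?_)
      generalize ∑ i, ind i P = c
      zify
      nlinarith [sq_nonneg ((c : ℤ) - 1)]
    have hrows : (z + 1) * S.card + ∑ i : Fin (z + 1), ∑ j : Fin z, C i (i.succAbove j)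
        = ∑ i, ∑ j, C i j := by
      have h3 : (z + 1) * S.card = ∑ _i : Fin (z + 1), S.card := by simp
      rw [h3, ← Finset.sum_add_distrib]
      exact Finset.sum_congr rfl (fun i _ => hrow i)
    have hbig : 2 ^ (2 * m) ≤ ∑ f : Fin ((z + 1) * z),
        C (pr f).1 ((pr f).1.succAbove (pr f).2) := by
      rw [hsum]
      rw [← hall, ← hrows, hn] at hsq
      omega
    have hne : (Finset.univ : Finset (Fin ((z + 1) * z))).Nonempty := by
      by_contra hemp
      rw [Finset.not_nonempty_iff_eq_empty] at hemp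
      rw [hemp, Finset.sum_empty] at hbig
      have : 0 < 2 ^ (2 * m) := by positivity
      omega
    obtain ⟨f, -, hf⟩ := Finset.exists_le_of_sum_le hne
      (f := fun _ => 2 ^ (2 * m))
      (g := fun f : Fin ((z + 1) * z) => (z + 1) * z * C (pr f).1 ((pr f).1.succAbove (pr f).2))
      (by
        rw [← Finset.mul_sum, Finset.sum_const, Finset.card_univ, Fintype.card_fin, smul_eq_mul]
        exact Nat.mul_le_mul_left _ hbig)
    refine ⟨f, ?_⟩
    rw [hC]
    exact hf

end Pool.Agent.UCT
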