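import Pool.Agent.UCT.Defs

/-!
# UCT Shift: cyclic shifts

PROOF. `τ h p = (p + h D) mod M`. For `h ≠ h'`, say `h < h'`: the values are congruent to
`p + h D`, `p + h' D` mod `M`, so their difference is `(h' - h) D` or `M - (h' - h) D` (in absolute
value), and `D ≤ (h' - h) D ≤ (B - 1) D ≤ M - D`.
-/

set_option autoImplicit false

namespace Pool.Agent.UCT

private theorem mod_step {M x e : ℕ} (hx : x < M) (he : e < M) :
    (x + e) % M = x + e ∨ (x + e) % M + M = x + e := by
  rcases Nat.lt_or_ge (x + e) M with h | h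
  · left
    exact Nat.mod_eq_of_lt h
  · right
    have h1 : (x + e) % M = (x + e - M) % M := Nat.mod_eq_sub_mod h
    have h2 : x + e - M < M := by omega
    rw [h1, Nat.mod_eq_of_lt h2]
    omega

private theorem shift_core {M B D p h h' : ℕ} (hM : 0 < M) (hD : B * D ≤ M) (hh : h < h')
    (hB : h' < B) :
    D ≤ ((p + h * D) % M - (p + h' * D) % M) + ((p + h' * D) % M - (p + h * D) % M) := by
  rcases Nat.eq_zero_or_pos D with h0 | h0
  · subst h0
    exact Nat.zero_le _
  obtain ⟨e, rfl⟩ : ∃ e, h' = h + 1 + e := ⟨h' - h - 1, by omega⟩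
  have hE : D ≤ (1 + e) * D := by
    rw [Nat.add_mul, Nat.one_mul]
    exact Nat.le_add_right _ _
  have hF : (1 + e) * D + D ≤ M := by
    have h1 : (1 + e) * D + D = (1 + e + 1) * D := by ring
    rw [h1]
    refine le_trans (Nat.mul_le_mul_right D ?_) hD
    omega
  have hlt : (1 + e) * D < M := by omega
  have hx : (p + h * D) % M < M := Nat.mod_lt _ hM
  have hb : (p + (h + 1 + e) * D) % M = ((p + h * D) % M + (1 + e) * D) % M := by
    rw [Nat.mod_add_mod]
    congr 1
    ring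
  rw [hb]
  rcases mod_step hx hlt with h2 | h2 <;> omega

theorem exists_shifts (M B D : ℕ) (hM : 0 < M) (hD : B * D ≤ M) :
    ∃ τ : Fin B → Equiv.Perm (Fin M), ∀ p h h', h ≠ h' →
      D ≤ ((τ h p : ℕ) - (τ h' p : ℕ)) + ((τ h' p : ℕ) - (τ h p : ℕ)) := by
  have : NeZero M := ⟨Nat.pos_iff_ne_zero.mp hM⟩
  refine ⟨fun h => Equiv.addRight (⟨((h : ℕ) * D) % M, Nat.mod_lt _ hM⟩ : Fin M), ?_⟩
  intro p h h' hne
  have hval : ∀ k : Fin B,
      ((Equiv.addRight (⟨((k : ℕ) * D) % M, Nat.mod_lt _ hM⟩ : Fin M) p : Fin M) : ℕ)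
        = ((p : ℕ) + (k : ℕ) * D) % M := by
    intro k
    simp only [Equiv.coe_addRight, Fin.val_add, Nat.add_mod_mod]
  rw [hval h, hval h']
  rcases Nat.lt_or_ge (h : ℕ) (h' : ℕ) with h1 | h1
  · exact shift_core hM hD h1 h'.isLt
  · have h2 : (h' : ℕ) < (h : ℕ) := by
      refine lt_of_le_of_ne h1 ?_
      intro h3
      exact hne (Fin.ext h3.symm)
    rw [Nat.add_comm]
    exact shift_core hM hD h2 h.isLt

end Pool.Agent.UCT
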