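import Pool.Agent.UCR.Rank
import Pool.Agent.UCV.Transfer

/-!
# UCT Transfer: from a copy in the host to `IsCopy`

PROOF. Adapt `Pool/Agent/UCS/Transfer.lean` (helper10) and `Pool/Agent/UCR/Transfer.lean`
(helper72). `R i` is the rank in `G` of the image of the edge number `i` of `H` (the edge `e` with
`g e = i`; `gsurj`, `ginj`, `glt`), `dist` of two image edges is the difference of their ranks
(`dist_eq`). So `e ↦ g e` is a bijection from `H.edgeSet` onto `range ((10 F + B) M)` under which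
`near` becomes the number of `i'` with `|R i - R i'| ≤ x`; the pairs of consecutive edges are the
pairs `(i, i + 1)`.
-/

set_option autoImplicit false

namespace Pool.Agent.UCT

open Pool.Agent.UCR

private theorem mem_edgesT {N : ℕ} (G : SimpleGraph (Fin N)) (e : Sym2 (Fin N)) :
    e ∈ edges G ↔ e ∈ G.edgeSet := by
  simp [edges]

open Classical in
private theorem gaps_eq {n N K : ℕ} (H : SimpleGraph (Fin n)) (g : Sym2 (Fin n) → ℕ)
    (ginj : Set.InjOn g H.edgeSet) (glt : ∀ e ∈ H.edgeSet, g e < K)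
    (gsurj : ∀ i < K, ∃ e ∈ H.edgeSet, g e = i)
    (G : SimpleGraph (Fin N)) (f : Sym2 (Fin N) → ℕ) (hf : Function.Injective f)
    (φ : Fin n → Fin N) (hG : ∀ e ∈ H.edgeSet, Sym2.map φ e ∈ G.edgeSet) (R : ℕ → ℕ)
    (hR : ∀ e ∈ H.edgeSet, rank G f (Sym2.map φ e) = R (g e))
    (hmono : ∀ i j : ℕ, i < j → j < K → R i < R j) (x : ℝ) :
    gaps H g G f φ x = ((Finset.range K).filter
      (fun i => i + 1 < K ∧ x < ((R (i + 1) - R i : ℕ) : ℝ))).card := by
  have hG' : ∀ e ∈ H.edgeSet, Sym2.map φ e ∈ edges G := fun e he => (mem_edgesT G _).2 (hG e he)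
  -- the second edge is the next one
  have hnext : ∀ p : Sym2 (Fin n) × Sym2 (Fin n), p.1 ∈ H.edgeSet → p.2 ∈ H.edgeSet →
      g p.1 < g p.2 → (∀ e ∈ H.edgeSet, ¬ (g p.1 < g e ∧ g e < g p.2)) → g p.2 = g p.1 + 1 := by
    intro p h1 h2 h3 h4
    by_contra hne
    have h5 := glt _ h2
    obtain ⟨e, he, hge⟩ := gsurj (g p.1 + 1) (by omega)
    exact h4 e he ⟨by omega, by omega⟩
  have hdist : ∀ e ∈ H.edgeSet, ∀ e' ∈ H.edgeSet, g e' = g e + 1 →
      UCR.dist G f (Sym2.map φ e) (Sym2.map φ e') = R (g e + 1) - R (g e) := by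
    intro e he e' he' hee
    rw [dist_eq G f hf _ _ (hG' e he) (hG' e' he'), hR e he, hR e' he', hee]
    have := hmono (g e) (g e + 1) (Nat.lt_succ_self _) (by rw [← hee]; exact glt _ he')
    omega
  unfold gaps
  have himg : (fun p : Sym2 (Fin n) × Sym2 (Fin n) => g p.1) ''
      {p : Sym2 (Fin n) × Sym2 (Fin n) | p.1 ∈ H.edgeSet ∧ p.2 ∈ H.edgeSet ∧
        g p.1 < g p.2 ∧ (∀ e ∈ H.edgeSet, ¬ (g p.1 < g e ∧ g e < g p.2)) ∧
        x < (UCR.dist G f (Sym2.map φ p.1) (Sym2.map φ p.2) : ℝ)} =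
      (((Finset.range K).filter
        (fun i => i + 1 < K ∧ x < ((R (i + 1) - R i : ℕ) : ℝ)) : Finset ℕ) : Set ℕ) := by
    ext i
    rw [Finset.mem_coe, Finset.mem_filter, Finset.mem_range]
    constructor
    · rintro ⟨p, ⟨h1, h2, h3, h4, h5⟩, rfl⟩
      have h6 := hnext p h1 h2 h3 h4
      rw [hdist _ h1 _ h2 h6] at h5
      have h7 := glt _ h2
      exact ⟨glt _ h1, by show g p.1 + 1 < K; omega, h5⟩
    · rintro ⟨h1, h2, h3⟩
      obtain ⟨e, he, hge⟩ := gsurj i h1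
      obtain ⟨e', he', hge'⟩ := gsurj (i + 1) h2
      refine ⟨(e, e'), ⟨he, he', ?_, ?_, ?_⟩, hge⟩
      · show g e < g e'
        omega
      · intro e'' _ h4
        have h5 : g e < g e'' ∧ g e'' < g e' := h4
        omega
      · show x < (UCR.dist G f (Sym2.map φ e) (Sym2.map φ e') : ℝ)
        rw [hdist e he e' he' (by omega), hge]
        exact h3
  rw [← Set.ncard_coe_finset, ← himg]
  refine (Set.InjOn.ncard_image ?_).symm
  rintro ⟨a, a'⟩ ⟨h1, h2, h3, h4, _⟩ ⟨c, c'⟩ ⟨k1, k2, k3, k4, _⟩ hac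
  have e1 : a = c := ginj h1 k1 hac
  have e2 := hnext (a, a') h1 h2 h3 h4
  have e3 := hnext (c, c') k1 k2 k3 k4
  have e4 : g a' = g c' := by
    have e5 : g a' = g a + 1 := e2
    have e6 : g c' = g c + 1 := e3
    rw [e5, e6, e1]
  rw [Prod.mk.injEq]
  exact ⟨e1, ginj h2 k2 e4⟩

open Classical in
theorem transfer {n N M t B F : ℕ} (σ : Fin F → Equiv.Perm (Fin M))
    (τ : Fin B → Equiv.Perm (Fin M)) (ce : Fin B → Fin t × Fin t)
    (hce1 : ∀ h, (ce h).1 < (ce h).2) (H : SimpleGraph (Fin n)) (g : Sym2 (Fin n) → ℕ)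
    (u : Fin F → Fin M → ZMod 5 → Fin n)
    (v : Fin M → Fin t → Fin n) (hd : IsDesign n M t B F σ τ ce H g u v)
    (G : SimpleGraph (Fin N)) (f : Sym2 (Fin N) → ℕ) (hf : Function.Injective f)
    (φ : Fin n → Fin N) (hφ : Function.Injective φ)
    (hG : ∀ e ∈ H.edgeSet, Sym2.map φ e ∈ G.edgeSet)
    (hord : ∀ e ∈ H.edgeSet, ∀ e' ∈ H.edgeSet,
      (g e < g e' ↔ f (Sym2.map φ e) < f (Sym2.map φ e'))) :
    ∃ R : ℕ → ℕ,
      IsCopy (edges G) (rank G f) M t B F σ τ ce (fun j p a => φ (u j p a))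
        (fun p s => φ (v p s)) R ∧
      (∀ i < (10 * F + B) * M, R i < (edges G).card) ∧
      (∀ (x : ℝ) (P : ℕ → Prop), {e ∈ H.edgeSet | P (near H G f φ x e)}.ncard =
        ((Finset.range ((10 * F + B) * M)).filter (fun i => P
          ((Finset.range ((10 * F + B) * M)).filter (fun i' =>
            (((R i - R i') + (R i' - R i) : ℕ) : ℝ) ≤ x)).card)).card) ∧
      ∀ x : ℝ, gaps H g G f φ x =
        ((Finset.range ((10 * F + B) * M)).filter
          (fun i => i + 1 < (10 * F + B) * M ∧ x < ((R (i + 1) - R i : ℕ) : ℝ))).card := by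
  obtain ⟨R, h1, h2, h3, h4⟩ := UCV.transfer0 H g hd.ginj hd.glt hd.gsurj G f hf φ hφ hG hord
  refine ⟨R, ⟨fun j p => hφ.comp (hd.uinj j p), fun p => hφ.comp (hd.vinj p), ?_, ?_, h2,
    ?_, ?_, ?_⟩, h3, h4,
    fun x => gaps_eq H g hd.ginj hd.glt hd.gsurj G f hf φ hG R h1 h2 x⟩
  · intro j p a b hab
    exact (mem_edgesT G _).2 (hG _ (hd.ue j p a b hab))
  · intro p a b hab
    exact (mem_edgesT G _).2 (hG _ (hd.ve p a b hab))
  · intro j p c
    rw [← hd.g1 j p c]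
    exact h1 _ (hd.ue j p _ _ (by
      intro h
      have : ∀ c : ZMod 5, c ≠ c + 1 := by decide
      exact this c h))
  · intro j p c
    rw [← hd.g2 j p c]
    exact h1 _ (hd.ue j p _ _ (by
      intro h
      have : ∀ c : ZMod 5, c ≠ c + 2 := by decide
      exact this c h))
  · intro h p
    rw [← hd.g3 h p]
    exact h1 _ (hd.ve p _ _ (hce1 h).ne)

end Pool.Agent.UCT
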