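import Pool.Agent.UCT.Multi
import Pool.Agent.UCT.Design
import Pool.Agent.UCT.Transfer
import Pool.Agent.UCT.Plane
import Pool.Agent.UCT.Shift
import Pool.Agent.UCT.Fat
import Pool.Agent.UCT.NumRed
import Pool.Agent.UCT.NumLevels
import Pool.Agent.UCT.NumBlue
import Pool.Agent.UCT.NumThin
import Pool.Agent.UCT.NumGap
import Pool.Agent.UCT.NumBase
import Pool.Agent.UCR.Mono

/-!
# UCT Final: the main theorem
-/

set_option autoImplicit false

namespace Pool.Agent.UCT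

open Pool.Agent.UCR Filter

/-- `φ` is a copy of the graph `H`, ordered by `g`, in the graph `G`, ordered by `f`, and all its
edges have the colour `b` under `col`. -/
def IsColCopy {n N : ℕ} (H : SimpleGraph (Fin n)) (g : Sym2 (Fin n) → ℕ)
    (G : SimpleGraph (Fin N)) (f : Sym2 (Fin N) → ℕ) (col : Sym2 (Fin N) → Bool) (b : Bool)
    (φ : Fin n → Fin N) : Prop :=
  Function.Injective φ ∧ (∀ e ∈ H.edgeSet, Sym2.map φ e ∈ G.edgeSet) ∧
    (∀ e ∈ H.edgeSet, ∀ e' ∈ H.edgeSet, (g e < g e' ↔ f (Sym2.map φ e) < f (Sym2.map φ e'))) ∧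
    ∀ e ∈ H.edgeSet, col (Sym2.map φ e) = b

theorem card_edges {n M t B F : ℕ} {σ : Fin F → Equiv.Perm (Fin M)}
    {τ : Fin B → Equiv.Perm (Fin M)} {ce : Fin B → Fin t × Fin t}
    {H : SimpleGraph (Fin n)} {g : Sym2 (Fin n) → ℕ} {u : Fin F → Fin M → ZMod 5 → Fin n}
    {v : Fin M → Fin t → Fin n} (hd : IsDesign n M t B F σ τ ce H g u v) :
    H.edgeSet.ncard = (10 * F + B) * M := by
  have himg : g '' H.edgeSet = Set.Iio ((10 * F + B) * M) := by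
    ext i
    constructor
    · rintro ⟨e, he, rfl⟩
      exact hd.glt e he
    · intro hi
      obtain ⟨e, he, rfl⟩ := hd.gsurj i hi
      exact ⟨e, he, rfl⟩
  rw [← Set.InjOn.ncard_image hd.ginj, himg]
  have : (Set.Iio ((10 * F + B) * M)) = ((Finset.range ((10 * F + B) * M) : Finset ℕ) : Set ℕ) := by
    ext i
    simp
  rw [this, Set.ncard_coe_finset, Finset.card_range]

theorem dist_le_of_div {a a' L : ℕ} (hL : 0 < L) (h : a' / L = a / L) :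
    (a - a') + (a' - a) ≤ L := by
  have e1 := Nat.div_add_mod a L
  have e2 := Nat.div_add_mod a' L
  have m1 := Nat.mod_lt a hL
  have m2 := Nat.mod_lt a' hL
  rw [h] at e2
  generalize L * (a / L) = q at e1 e2
  omega

private theorem card_split (M : ℕ) (F : Fin M → ℕ) (y : ℕ) :
    M = (Finset.univ.filter (fun p => y ≤ F p)).card +
      (Finset.univ.filter (fun p => F p < y)).card := by
  have h := Finset.card_filter_add_card_filter_not (s := (Finset.univ : Finset (Fin M)))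
    (fun p => y ≤ F p)
  rw [Finset.card_univ, Fintype.card_fin] at h
  simp only [not_le] at h
  convert h.symm using 2

theorem main_small (A ω δ η d : ℝ) (hA : 0 < A) (hω : -1 < ω) (hω2 : ω ≤ 1 / 2)
    (hη : 0 < η) (hη1 : η ≤ 1) (hd : 0 < d) (hδ : 50 * d ≤ δ) (hdω : 50 * d ≤ 1 + ω) :
    ∃ Δ : ℕ, ∃ c : ℝ, 0 < c ∧ ∃ n₀ : ℕ, ∀ n : ℕ, n₀ ≤ n →
      ∃ (H : SimpleGraph (Fin n)) (g : Sym2 (Fin n) → ℕ), Set.InjOn g H.edgeSet ∧
        (∀ x : Fin n, (H.neighborSet x).ncard ≤ Δ) ∧ c * n ≤ (H.edgeSet.ncard : ℝ) ∧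
        ∀ (N : ℕ) (G : SimpleGraph (Fin N)) (f : Sym2 (Fin N) → ℕ), Function.Injective f →
          (G.edgeSet.ncard : ℝ) ≤ (n : ℝ) ^ A →
          ∃ col : Sym2 (Fin N) → Bool,
            (∀ φ : Fin n → Fin N, IsColCopy H g G f col true φ → UCS.Compressed H G f φ ω c) ∧
            ∀ φ : Fin n → Fin N, IsColCopy H g G f col false φ →
            (∀ x : ℝ, 1 ≤ x → x ≤ (n : ℝ) ^ (1 + ω - δ) →
              ({e ∈ H.edgeSet | (n : ℝ) ^ δ * x ^ (1 / 3 : ℝ) <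
                (near H G f φ x e : ℝ)}.ncard : ℝ) ≤ η * H.edgeSet.ncard) ∧
            ((G.edgeSet.ncard : ℝ) ≤ (n : ℝ) ^ (2 + d) →
              ∀ x : ℝ, 1 ≤ x → x ≤ (n : ℝ) ^ (3 * ω - 3 * δ) →
                (n : ℝ) ^ (1 - δ) / x ^ (1 / 3 : ℝ) < (gaps H g G f φ x : ℝ)) := by
  -- the parameters
  obtain ⟨K, hKdef⟩ : ∃ K : ℕ, K = ⌊(1 + ω) / d⌋₊ - 20 := ⟨_, rfl⟩
  have hq : (50 : ℝ) ≤ (1 + ω) / d := by
    rw [le_div_iff₀ hd]
    exact hdω
  have hqd : (1 + ω) / d * d = 1 + ω := by field_simp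
  have hq50 : 50 ≤ ⌊(1 + ω) / d⌋₊ := Nat.le_floor (by exact_mod_cast hq)
  have hKc : (K : ℝ) = (⌊(1 + ω) / d⌋₊ : ℝ) - 20 := by
    rw [hKdef, Nat.cast_sub (by omega)]
    norm_num
  have hK0 : 0 < K := by omega
  have hfl1 : (⌊(1 + ω) / d⌋₊ : ℝ) ≤ (1 + ω) / d := Nat.floor_le (by linarith)
  have hfl2 : (1 + ω) / d < ⌊(1 + ω) / d⌋₊ + 1 := Nat.lt_floor_add_one _
  have hKu : (K : ℝ) * d ≤ 1 + ω - 20 * d := by
    have : (K : ℝ) * d ≤ ((1 + ω) / d - 20) * d := by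
      rw [hKc]
      gcongr
    linarith
  have hKl : 1 + ω - 21 * d ≤ (K : ℝ) * d := by
    have : ((1 + ω) / d - 21) * d ≤ (K : ℝ) * d := by
      rw [hKc]
      exact mul_le_mul_of_nonneg_right (by linarith) hd.le
    linarith
  have hK32 : (K : ℝ) * d ≤ 3 / 2 - 20 * d := by linarith
  obtain ⟨C, hCdef⟩ : ∃ C : ℕ, C = ⌈1 / d⌉₊ := ⟨_, rfl⟩
  have hC : 1 ≤ (C : ℝ) * d := by
    have h1 : 1 / d ≤ C := by
      rw [hCdef]
      exact Nat.le_ceil _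
    rw [div_le_iff₀ hd] at h1
    exact h1
  obtain ⟨z, hzdef⟩ : ∃ z : ℕ, z = ⌈48 * (K : ℝ) * (C + 1) / η⌉₊ := ⟨_, rfl⟩
  have hKR : (0 : ℝ) < K := by exact_mod_cast hK0
  have hz0 : 0 < z := by
    rw [hzdef]
    exact Nat.ceil_pos.mpr (by positivity)
  have hz : 48 * (K : ℝ) * (C + 1) ≤ η * (z + 1) := by
    have h1 : 48 * (K : ℝ) * (C + 1) / η ≤ z := by
      rw [hzdef]
      exact Nat.le_ceil _
    rw [div_le_iff₀ hη] at h1
    nlinarith
  have hF0 : 0 < (z + 1) * z := by positivity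
  obtain ⟨t, h, ht, hh, hhs, hred⟩ := num_red ((z + 1) * z * (K + 1) ^ 2 * (C + 1)) A d hA hd
  obtain ⟨ce, hce, hce1, hce2⟩ := UCS.exists_ce t
  have hB0 : 0 < t * (t - 1) / 2 := by
    apply Nat.div_pos _ (by norm_num)
    calc 2 ≤ 5 * (5 - 1) := by norm_num
      _ ≤ t * (t - 1) := Nat.mul_le_mul ht (by omega)
  obtain ⟨w, hw⟩ : ∃ w : ℕ, w = 10 * ((z + 1) * z) + t * (t - 1) / 2 := ⟨_, rfl⟩
  obtain ⟨v, hv⟩ : ∃ v : ℕ, v = 5 * ((z + 1) * z) + t := ⟨_, rfl⟩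
  have hw0 : 0 < w := by omega
  have hv0 : 0 < v := by omega
  have hredj : ∀ᶠ n : ℕ in atTop, ∀ j ∈ Finset.range (K + 1),
      4 * (2 * ⌊(n : ℝ) ^ A⌋₊) ^ t * 4 ^ (t * (t - 1) / 2) *
        (40 * lamj d n j) ^ h ≤ Qj d n j ^ h := by
    rw [Finset.eventually_all]
    intro j _
    exact hred ((j : ℝ) * d / 3) (by positivity)
  obtain ⟨n₀, hn₀⟩ := eventually_atTop.mp
    (hredj.and ((num_base A ω d K z v (t * (t - 1) / 2) w hA hd hv0 hB0 hw0 (by linarith)).and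
      ((num_levels η d K C z v hη hη1 hd hK32 hK0 hC hz hv0).and
        ((num_blue A d K C z v hA hd hK32 hz0 hv0).and
          ((num_thin ω δ d K w hd hδ hKl).and
            (num_gap ω δ d η K v hω hω2 hd hδ hη hη1 hv0 hKl))))))
  have hBR : (0 : ℝ) < ((t * (t - 1) / 2 : ℕ) : ℝ) := by exact_mod_cast hB0
  have hvR : (0 : ℝ) < (v : ℝ) := by exact_mod_cast hv0
  refine ⟨t, 1 / (16 * (v : ℝ) * ((t * (t - 1) / 2 : ℕ) : ℝ)), by positivity, n₀,
    fun n hn => ?_⟩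
  obtain ⟨hr, ⟨hn1, hnv, hzk, hm0, hy2, hbK, hc1, hc2⟩, hlev, hblu, hthin, hgap⟩ := hn₀ n hn
  obtain ⟨c, hcdef⟩ : ∃ c : ℝ, c = 1 / (16 * (v : ℝ) * ((t * (t - 1) / 2 : ℕ) : ℝ)) := ⟨_, rfl⟩
  rw [← hcdef] at hc1 hc2 ⊢
  have hcpos : 0 < c := by
    rw [hcdef]
    positivity
  have hnR : (1 : ℝ) ≤ n := by exact_mod_cast hn1
  obtain ⟨σ, hσ1, hσ2⟩ : ∃ σ : Fin ((z + 1) * z) → Equiv.Perm (Fin (2 ^ kk v n)),
      (∀ f, Mixing2 (kk v n) (σ f)) ∧
      ∀ S : Finset (Fin (2 ^ kk v n)), 2 * 2 ^ kk v n ≤ (z + 1) * S.card →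
        ∃ f, 2 ^ kk v n ≤ (z + 1) * z * (S.filter (fun p => σ f p ∈ S)).card :=
    exists_perms z (Nat.log 4 (n / v)) hzk
  obtain ⟨k, hk⟩ : ∃ k : ℕ, k = kk v n := ⟨_, rfl⟩
  rw [← hk] at hnv hc1 hc2 hlev hblu hgap
  revert σ
  rw [← hk]
  intro σ hσ1 hσ2
  have hM0 : 0 < 2 ^ k := by positivity
  obtain ⟨τ, hτ⟩ := exists_shifts (2 ^ k) (t * (t - 1) / 2) (2 ^ k / (t * (t - 1) / 2)) hM0
    (Nat.mul_div_le _ _)
  obtain ⟨H, g, u, v', hds⟩ := exists_design (2 ^ k) t (t * (t - 1) / 2) ((z + 1) * z) n ht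
    (by rw [← hv]; exact hnv) σ τ ce hce hce1 hce2
  have hEH := card_edges hds
  rw [← hw] at hEH
  refine ⟨H, g, hds.ginj, hds.deg, ?_, fun N G f hf hG => ?_⟩
  · rw [hEH]
    refine hc1.trans ?_
    exact_mod_cast Nat.mul_le_mul_left _ ((Nat.sub_le _ _).trans (Nat.div_le_self _ _))
  have hcard : (edges G).card ≤ ⌊(n : ℝ) ^ A⌋₊ := by
    apply Nat.le_floor
    have := Set.ncard_eq_toFinset_card G.edgeSet
    unfold edges
    rw [← this]
    exact hG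
  have hexp : ∀ S : Finset (Fin (2 ^ k)), TT2 z k ≤ S.card →
      ∃ f, 2 ^ k ≤ (z + 1) * z * (S.filter (fun p => σ f p ∈ S)).card := by
    intro S hS
    apply hσ2 S
    unfold TT2 at hS
    have h1 : 2 * 2 ^ k < (z + 1) * (2 * 2 ^ k / (z + 1) + 1) := Nat.lt_mul_div_succ _ (by omega)
    exact h1.le.trans (Nat.mul_le_mul_left _ hS)
  obtain ⟨col, hcol⟩ := multi (edges G) (rank G f) (rank_injOn G f hf)
    ⌊(n : ℝ) ^ A⌋₊ hcard hm0
    (fun e he => lt_of_lt_of_le (rank_lt_card G f e he) hcard) k t (t * (t - 1) / 2) h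
    ((z + 1) * z) ((z + 1) * z) K C (bb d n) ⌊c * n⌋₊ (TT1 η k) (TT2 z k)
    (2 ^ k / (t * (t - 1) / 2)) (fun j => lamj d n j) (fun j => Qj d n j) (fun j => yj d n j)
    (fun j => Zj d n j) (fun j => muj d n j) σ hσ1 hexp τ hτ ce hce hce2 ht hh hF0 hF0 hK0
    (hlev 0 (Nat.zero_le _)).1 hhs (fun j hj => (hlev j hj).2.1) (fun j hj => (hlev j hj).2.2.1)
    (fun j hj => hr j (Finset.mem_range.mpr (by omega))) hy2 (fun j => Nat.succ_pos _)
    (fun j hj => (hlev j hj).2.2.2.1) (fun j hj => (hlev j hj).2.2.2.2.1)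
    (fun j hj => (hlev j hj.le).2.2.2.2.2.1 hj) (fun j hj => (hlev j hj).2.2.2.2.2.2.1)
    (fun j hj => (hlev j hj).2.2.2.2.2.2.2.1) (hlev 0 (Nat.zero_le _)).2.2.2.2.2.2.2.2
    (fun j hj => (hblu j hj).1) (fun j hj => (hblu j hj).2)
    (by
      rw [Nat.floor_lt (by positivity)]
      push_cast
      exact hc2)
  refine ⟨col, ?_, ?_⟩
  · intro φ hφ
    obtain ⟨hφ1, hφ2, hφ3, hφ4⟩ := hφ
    obtain ⟨R, hR, hRE, hRn, hRg⟩ := transfer σ τ ce hce1 H g u v' hds G f hf φ hφ1 hφ2 hφ3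
    have hlt := (hcol _ _ R hR true (fun j p x y hxy => hφ4 _ (hds.ue j p x y hxy))
      (fun p x y hxy => hφ4 _ (hds.ve p x y hxy))).1 rfl
    -- many edges in windows with many edges
    unfold UCS.Compressed
    show c * n < (({e ∈ H.edgeSet | c * n ≤ (near H G f φ ((n : ℝ) ^ (1 + ω)) e : ℝ)}.ncard : ℕ)
          : ℝ)
    rw [hRn ((n : ℝ) ^ (1 + ω)) (fun q => c * n ≤ (q : ℝ)), ← Nat.floor_lt (by positivity)]
    refine lt_of_lt_of_le hlt ?_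
    apply Finset.card_le_card
    intro i hi
    rw [Finset.mem_filter] at hi ⊢
    refine ⟨hi.1, ?_⟩
    refine hc1.trans ?_
    norm_cast
    rw [hw]
    refine hi.2.trans ?_
    apply Finset.card_le_card
    intro i' hi'
    rw [Finset.mem_filter] at hi' ⊢
    refine ⟨hi'.1, ?_⟩
    refine le_trans ?_ hbK
    norm_cast
    exact dist_le_of_div (pow_pos (hlev 0 (Nat.zero_le _)).1 K) hi'.2
  intro φ hφ
  obtain ⟨hφ1, hφ2, hφ3, hφ4⟩ := hφ
  obtain ⟨R, hR, hRE, hRn, hRg⟩ := transfer σ τ ce hce1 H g u v' hds G f hf φ hφ1 hφ2 hφ3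
  obtain ⟨hK1, hK2⟩ := (hcol _ _ R hR false (fun j p x y hxy => hφ4 _ (hds.ue j p x y hxy))
    (fun p x y hxy => hφ4 _ (hds.ve p x y hxy))).2 rfl
  rw [← hw] at hK1 hK2
  have hRmono : ∀ i j : ℕ, i < j → j < w * 2 ^ k → R i < R j := by
    rw [hw]
    exact hR.mono
  rw [← hw] at hRE hRn hRg
  refine ⟨fun x hx1 hx2 => ?_, fun hG2 x hx1 hx2 => ?_⟩
  · obtain ⟨j, hj, hxb, hY1, hY2⟩ := hthin x hx1 hx2
    have hf := fat (2 ^ k) w (bb d n ^ j) ⌊(n : ℝ) ^ δ * x ^ (1 / 3 : ℝ)⌋₊ x R hRmono hw0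
      (pow_pos (hlev 0 (Nat.zero_le _)).1 j) hxb hY1
    have hx0 : 0 ≤ (n : ℝ) ^ δ * x ^ (1 / 3 : ℝ) := by positivity
    rw [hRn x (fun q => (n : ℝ) ^ δ * x ^ (1 / 3 : ℝ) < (q : ℝ)), hEH]
    have h1 := hK1 j hj
    have h2 : (Finset.univ.filter (fun s : Fin (2 ^ k) =>
        ⌊(n : ℝ) ^ δ * x ^ (1 / 3 : ℝ)⌋₊ ≤ 6 * w * (Finset.univ.filter (fun s' : Fin (2 ^ k) =>
          R (w * (s' : ℕ)) / bb d n ^ j = R (w * (s : ℕ)) / bb d n ^ j)).card)).card ≤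
        (Finset.univ.filter (fun p : Fin (2 ^ k) =>
        yj d n j ≤ (Finset.univ.filter (fun p' : Fin (2 ^ k) => R (w * (p' : ℕ)) / bb d n ^ j =
          R (w * (p : ℕ)) / bb d n ^ j)).card)).card := by
      apply Finset.card_le_card
      intro s hs
      rw [Finset.mem_filter] at hs ⊢
      refine ⟨hs.1, ?_⟩
      have h3 := hY2.trans hs.2
      exact Nat.le_of_mul_le_mul_left h3 (by positivity)
    have h4 : ((Finset.range (w * 2 ^ k)).filter (fun i =>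
        (n : ℝ) ^ δ * x ^ (1 / 3 : ℝ) < (((Finset.range (w * 2 ^ k)).filter (fun i' =>
            (((R i - R i') + (R i' - R i) : ℕ) : ℝ) ≤ x)).card : ℝ))).card ≤ 6 * w * TT1 η k := by
      refine le_trans ?_ (hf.trans (Nat.mul_le_mul_left _ (h2.trans h1.le)))
      apply Finset.card_le_card
      intro i hi
      rw [Finset.mem_filter] at hi ⊢
      refine ⟨hi.1, ?_⟩
      rw [Nat.floor_lt hx0]
      exact hi.2
    have h5 : (6 * w * TT1 η k : ℝ) ≤ η * ((w * 2 ^ k : ℕ) : ℝ) := by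
      have h6 : (TT1 η k : ℝ) ≤ η * 2 ^ k / 6 := Nat.floor_le (by positivity)
      push_cast
      have hwR : (0 : ℝ) ≤ w := Nat.cast_nonneg _
      nlinarith
    refine le_trans ?_ h5
    exact_mod_cast h4
  · by_contra hcon
    push Not at hcon
    obtain ⟨j, hj, hΓ, hmu, he⟩ := hgap x hx1 hx2
    have h1 := hK2 j hj ⌈x⌉₊ hΓ (by
      refine le_trans ?_ hmu
      apply Nat.le_floor
      refine le_trans ?_ hcon
      rw [hRg x]
      norm_cast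
      apply Finset.card_le_card
      intro i hi
      rw [Finset.mem_filter] at hi ⊢
      exact ⟨hi.1, hi.2.1, Nat.lt_of_ceil_lt hi.2.2⟩)
    have hEc : (edges G).card = G.edgeSet.ncard := by
      have := Set.ncard_eq_toFinset_card G.edgeSet
      unfold edges
      rw [← this]
    have h2 := few_small (2 ^ k) ((edges G).card / bb d n ^ K + 1) (yj d n j)
      (fun p => R (w * (p : ℕ)) / bb d n ^ K) (fun p => by
        have h3 : R (w * (p : ℕ)) < (edges G).card :=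
          hRE _ (Nat.mul_lt_mul_of_pos_left p.isLt hw0)
        exact Nat.lt_succ_of_le (Nat.div_le_div_right h3.le))
    have h3 := he (edges G).card (by
      rw [hEc]
      exact hG2)
    have h4 : 2 ^ k = (Finset.univ.filter (fun p : Fin (2 ^ k) =>
        yj d n j ≤ (Finset.univ.filter (fun p' : Fin (2 ^ k) => R (w * (p' : ℕ)) / bb d n ^ K =
          R (w * (p : ℕ)) / bb d n ^ K)).card)).card +
        (Finset.univ.filter (fun p : Fin (2 ^ k) =>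
        (Finset.univ.filter (fun p' : Fin (2 ^ k) => R (w * (p' : ℕ)) / bb d n ^ K =
          R (w * (p : ℕ)) / bb d n ^ K)).card < yj d n j)).card := card_split _ _ _
    have h7 : (Finset.univ.filter (fun p : Fin (2 ^ k) =>
        (Finset.univ.filter (fun p' : Fin (2 ^ k) => R (w * (p' : ℕ)) / bb d n ^ K =
          R (w * (p : ℕ)) / bb d n ^ K)).card < yj d n j)).card ≤
        ((edges G).card / bb d n ^ K + 1) * yj d n j := by
      convert h2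
    have h8 : (Finset.univ.filter (fun p : Fin (2 ^ k) =>
        yj d n j ≤ (Finset.univ.filter (fun p' : Fin (2 ^ k) => R (w * (p' : ℕ)) / bb d n ^ K =
          R (w * (p : ℕ)) / bb d n ^ K)).card)).card < 2 * TT1 η k := by
      convert h1
    omega

theorem main (A ω δ η : ℝ) (hω : -1 < ω) (hω2 : ω ≤ 1 / 2) (hδ : 0 < δ) (hη : 0 < η) :
    ∃ Δ : ℕ, ∃ c : ℝ, 0 < c ∧ ∃ ε : ℝ, 0 < ε ∧ ∃ n₀ : ℕ, ∀ n : ℕ, n₀ ≤ n →
      ∃ (H : SimpleGraph (Fin n)) (g : Sym2 (Fin n) → ℕ), Set.InjOn g H.edgeSet ∧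
        (∀ x : Fin n, (H.neighborSet x).ncard ≤ Δ) ∧ c * n ≤ (H.edgeSet.ncard : ℝ) ∧
        ∀ (N : ℕ) (G : SimpleGraph (Fin N)) (f : Sym2 (Fin N) → ℕ), Function.Injective f →
          (G.edgeSet.ncard : ℝ) ≤ (n : ℝ) ^ A →
          ∃ col : Sym2 (Fin N) → Bool,
            (∀ φ : Fin n → Fin N, IsColCopy H g G f col true φ → UCS.Compressed H G f φ ω c) ∧
            ∀ φ : Fin n → Fin N, IsColCopy H g G f col false φ →
            (∀ x : ℝ, 1 ≤ x → x ≤ (n : ℝ) ^ (1 + ω - δ) →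
              ({e ∈ H.edgeSet | (n : ℝ) ^ δ * x ^ (1 / 3 : ℝ) <
                (near H G f φ x e : ℝ)}.ncard : ℝ) ≤ η * H.edgeSet.ncard) ∧
            ((G.edgeSet.ncard : ℝ) ≤ (n : ℝ) ^ (2 + ε) →
              ∀ x : ℝ, 1 ≤ x → x ≤ (n : ℝ) ^ (3 * ω - 3 * δ) →
                (n : ℝ) ^ (1 - δ) / x ^ (1 / 3 : ℝ) < (gaps H g G f φ x : ℝ)) := by
  obtain ⟨d, hd⟩ : ∃ d : ℝ, d = min δ (1 + ω) / 50 := ⟨_, rfl⟩
  have hmin : 0 < min δ (1 + ω) := lt_min hδ (by linarith)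
  have hd0 : 0 < d := by rw [hd]; positivity
  have h50 : 50 * d = min δ (1 + ω) := by rw [hd]; ring
  obtain ⟨Δ, c, hc, n₀, hn₀⟩ := main_small (max A 1) ω δ (min η 1) d
    (lt_of_lt_of_le one_pos (le_max_right _ _)) hω hω2 (lt_min hη one_pos) (min_le_right _ _) hd0
    (by rw [h50]; exact min_le_left _ _) (by rw [h50]; exact min_le_right _ _)
  refine ⟨Δ, c, hc, d, hd0, max n₀ 1, fun n hn => ?_⟩
  obtain ⟨H, g, hg, hdeg, hE, hH⟩ := hn₀ n (le_of_max_le_left hn)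
  have hnR : (1 : ℝ) ≤ n := by exact_mod_cast le_of_max_le_right hn
  refine ⟨H, g, hg, hdeg, hE, fun N G f hf hG => ?_⟩
  obtain ⟨col, hcol⟩ := hH N G f hf
    (hG.trans (Real.rpow_le_rpow_of_exponent_le hnR (le_max_left _ _)))
  refine ⟨col, hcol.1, fun φ hφ => ?_⟩
  obtain ⟨h1, h2⟩ := hcol.2 φ hφ
  refine ⟨fun x hx1 hx2 => (h1 x hx1 hx2).trans ?_, h2⟩
  exact mul_le_mul_of_nonneg_right (min_le_left _ _) (Nat.cast_nonneg _)

end Pool.Agent.UCT
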