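import Pool.Agent.UCT.Defs

/-!
# UCT Levels: choosing the level and the size class

`F_j(p)` = size of the fibre of `A j` through `p`. Each fibre of `A (j + 1)` meets at most `b`
fibres of `A j`.

PROOF of `levels`. Let `S = {p : y_(j1) ≤ F_(j1)(p), F_(j0)(p) < y_(j0)}`, `|S| ≥ T` by `h0`. For
`p ∈ S` let `j` be the least level in `(j0, j1]` with `y_j ≤ F_j(p)`; then `F_(j-1)(p) < y_(j-1)`.
If `T = 0` there is nothing to show (if `j0 = j1` then `h0` forces `T = 0`; then take care: for
`T = 0` the conclusion needs some `j` in `(j0, j1]`, so `j0 < j1` is assumed).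
So for some `j` the set `S_j = {p : y_j ≤ F_j(p), F_(j-1)(p) < y_(j-1)}` has `T ≤ K |S_j|`
(`j1 - j0 ≤ K`). Those `p ∈ S_j` with `F_j(p) > Z_j`: they lie in fewer than `M / Z_j` fibres of
`A j`, each of these meets at most `b` fibres of `A (j - 1)` and contains at most `b y_(j-1)` such
`p`. So `Z_j * number ≤ M b y_(j-1)`, and `2 K (M b y_(j-1)) ≤ T Z_j` gives `2 K * number ≤ T`
(if `Z_j = 0` then: `hZ0`).

PROOF of `classes`. Every `p` in question has `y b ^ c ≤ F p ≤ y b ^ (c + 1)` for some `c ≤ C`
(as `F p ≤ Z < y b ^ (C + 1)`); take the most frequent `c`. `y b ^ c ≤ F p ≤ Z` for some `p`, if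
there is one; if `T = 0` take `c = 0` (`hyZ`).
-/

set_option autoImplicit false

namespace Pool.Agent.UCT

open Classical in
private theorem bad_bound (M b yy ZZ : ℕ) (A A' : Fin M → ℕ)
    (hAA : ∀ v, ((Finset.univ.filter (fun p => A' p = v)).image A).card ≤ b) :
    ZZ * (Finset.univ.filter (fun p =>
      ZZ < (Finset.univ.filter (fun p' => A' p' = A' p)).card ∧
      (Finset.univ.filter (fun p' => A p' = A p)).card < yy)).card ≤ M * (b * yy) := by
  set bad := Finset.univ.filter (fun p =>
      ZZ < (Finset.univ.filter (fun p' => A' p' = A' p)).card ∧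
      (Finset.univ.filter (fun p' => A p' = A p)).card < yy) with hbad
  -- the values of `A'` on `bad`
  have h1 : bad.card ≤ (b * yy) * (bad.image A').card := by
    refine Finset.card_le_mul_card_image_of_maps_to
      (fun p hp => Finset.mem_image_of_mem A' hp) _ ?_
    intro v _
    have h2 : (bad.filter (fun p => A' p = v)).card ≤
        yy * ((Finset.univ.filter (fun p => A' p = v)).image A).card := by
      refine Finset.card_le_mul_card_image_of_maps_to (f := A) ?_ _ ?_
      · intro p hp
        rw [Finset.mem_filter] at hp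
        exact Finset.mem_image_of_mem A (Finset.mem_filter.2 ⟨Finset.mem_univ _, hp.2⟩)
      · intro u _
        by_cases hne : ((bad.filter (fun p => A' p = v)).filter (fun p => A p = u)).Nonempty
        · obtain ⟨q, hq⟩ := hne
          rw [Finset.mem_filter, Finset.mem_filter, hbad, Finset.mem_filter] at hq
          have h3 : ((bad.filter (fun p => A' p = v)).filter (fun p => A p = u)).card ≤
              (Finset.univ.filter (fun p' => A p' = A q)).card := by
            refine Finset.card_le_card ?_
            intro p hp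
            rw [Finset.mem_filter] at hp
            rw [Finset.mem_filter]
            exact ⟨Finset.mem_univ _, by rw [hp.2, hq.2]⟩
          exact h3.trans hq.1.1.2.2.le
        · rw [Finset.not_nonempty_iff_eq_empty] at hne
          rw [hne, Finset.card_empty]
          exact Nat.zero_le _
    calc (bad.filter (fun p => A' p = v)).card
        ≤ yy * ((Finset.univ.filter (fun p => A' p = v)).image A).card := h2
      _ ≤ yy * b := Nat.mul_le_mul le_rfl (hAA v)
      _ = b * yy := Nat.mul_comm _ _
  have h4 : ZZ * (bad.image A').card ≤ M := by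
    have h5 : ∀ v ∈ bad.image A', ZZ ≤ (Finset.univ.filter (fun p' => A' p' = v)).card := by
      intro v hv
      rw [Finset.mem_image] at hv
      obtain ⟨q, hq, rfl⟩ := hv
      rw [hbad, Finset.mem_filter] at hq
      exact hq.2.1.le
    have h6 : (bad.image A').card * ZZ ≤
        ∑ v ∈ bad.image A', (Finset.univ.filter (fun p' => A' p' = v)).card := by
      rw [← smul_eq_mul]
      exact Finset.card_nsmul_le_sum _ _ _ h5
    have h7 : ∑ v ∈ bad.image A', (Finset.univ.filter (fun p' : Fin M => A' p' = v)).card ≤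
        (Finset.univ : Finset (Fin M)).card := by
      have h8 := Finset.card_eq_sum_card_fiberwise (f := A')
        (s := Finset.univ.filter (fun p : Fin M => A' p ∈ bad.image A')) (t := bad.image A')
        (by
          intro p hp
          rw [Finset.mem_coe, Finset.mem_filter] at hp
          exact hp.2)
      have h9 : ∀ v ∈ bad.image A', (Finset.univ.filter (fun p' : Fin M => A' p' = v)).card =
          ((Finset.univ.filter (fun p : Fin M => A' p ∈ bad.image A')).filter
            (fun p => A' p = v)).card := by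
        intro v hv
        congr 1
        ext p
        simp only [Finset.mem_filter, Finset.mem_univ, true_and]
        constructor
        · intro h
          exact ⟨h ▸ hv, h⟩
        · intro h
          exact h.2
      rw [Finset.sum_congr rfl h9, ← h8]
      exact Finset.card_le_card (Finset.filter_subset _ _)
    rw [Finset.card_univ, Fintype.card_fin] at h7
    calc ZZ * (bad.image A').card = (bad.image A').card * ZZ := Nat.mul_comm _ _
      _ ≤ _ := h6
      _ ≤ M := h7
  calc ZZ * bad.card ≤ ZZ * ((b * yy) * (bad.image A').card) := Nat.mul_le_mul le_rfl h1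
    _ = (ZZ * (bad.image A').card) * (b * yy) := by ring
    _ ≤ M * (b * yy) := Nat.mul_le_mul h4 le_rfl

open Classical in
theorem levels (M b K T j0 j1 : ℕ) (A : ℕ → Fin M → ℕ) (y Z : ℕ → ℕ) (hj : j0 < j1)
    (hK : j1 - j0 ≤ K)
    (hAA : ∀ j, j0 ≤ j → j < j1 → ∀ v,
      ((Finset.univ.filter (fun p => A (j + 1) p = v)).image (A j)).card ≤ b)
    (h0 : T + (Finset.univ.filter (fun p =>
        y j0 ≤ (Finset.univ.filter (fun p' => A j0 p' = A j0 p)).card)).card ≤
      (Finset.univ.filter (fun p =>
        y j1 ≤ (Finset.univ.filter (fun p' => A j1 p' = A j1 p)).card)).card)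
    (hZ0 : ∀ j, 0 < Z j)
    (hZ : ∀ j, j0 ≤ j → j < j1 → 2 * K * (M * (b * y j)) ≤ T * Z (j + 1)) :
    ∃ j, j0 < j ∧ j ≤ j1 ∧ T ≤ 2 * K * (Finset.univ.filter (fun p =>
      y j ≤ (Finset.univ.filter (fun p' => A j p' = A j p)).card ∧
      (Finset.univ.filter (fun p' => A j p' = A j p)).card ≤ Z j)).card := by
  by_contra hcon
  push Not at hcon
  -- notation
  set F : ℕ → Fin M → ℕ := fun j p => (Finset.univ.filter (fun p' => A j p' = A j p)).card
    with hF
  have hT : 0 < T := by
    have := hcon (j0 + 1) (Nat.lt_succ_self _) hj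
    omega
  set S := Finset.univ.filter (fun p => y j1 ≤ F j1 p ∧ F j0 p < y j0) with hS
  have hST : T ≤ S.card := by
    have h1 : (Finset.univ.filter (fun p => y j1 ≤ F j1 p)).card ≤
        S.card + (Finset.univ.filter (fun p => y j0 ≤ F j0 p)).card := by
      refine (Finset.card_le_card ?_).trans (Finset.card_union_le _ _)
      intro p hp
      rw [Finset.mem_filter] at hp
      rw [Finset.mem_union, hS, Finset.mem_filter, Finset.mem_filter]
      by_cases h : y j0 ≤ F j0 p
      · exact Or.inr ⟨hp.1, h⟩
      · exact Or.inl ⟨hp.1, hp.2, not_le.1 h⟩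
    have h2 : T + (Finset.univ.filter (fun p => y j0 ≤ F j0 p)).card ≤
        (Finset.univ.filter (fun p => y j1 ≤ F j1 p)).card := h0
    omega
  set Sj : ℕ → Finset (Fin M) := fun j =>
    Finset.univ.filter (fun p => y (j + 1) ≤ F (j + 1) p ∧ F j p < y j) with hSj
  -- every point of `S` lies in some `Sj`
  have hcov : S ⊆ (Finset.Ico j0 j1).biUnion Sj := by
    intro p hp
    rw [hS, Finset.mem_filter] at hp
    have hex : ∃ j, j0 < j ∧ y j ≤ F j p := ⟨j1, hj, hp.2.1⟩
    have hspec := Nat.find_spec hex
    have hle : Nat.find hex ≤ j1 := Nat.find_min' hex ⟨hj, hp.2.1⟩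
    have hmin := @Nat.find_min _ _ hex
    obtain ⟨i, hi⟩ : ∃ i, Nat.find hex = i + 1 := ⟨Nat.find hex - 1, by omega⟩
    rw [Finset.mem_biUnion]
    refine ⟨i, Finset.mem_Ico.2 ⟨by omega, by omega⟩, ?_⟩
    rw [hSj, Finset.mem_filter]
    refine ⟨Finset.mem_univ _, ?_, ?_⟩
    · rw [← hi]
      exact hspec.2
    · by_cases h : i = j0
      · rw [h]
        exact hp.2.2
      · have hlt : i < Nat.find hex := by omega
        have := hmin hlt
        push Not at this
        exact this (by omega)
  have hbound : ∀ j ∈ Finset.Ico j0 j1, 2 * K * (Sj j).card < 2 * T := by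
    intro j hjm
    rw [Finset.mem_Ico] at hjm
    have h1 := hcon (j + 1) (by omega) (by omega)
    have h2 := bad_bound M b (y j) (Z (j + 1)) (A j) (A (j + 1)) (hAA j hjm.1 hjm.2)
    have h3 := hZ j hjm.1 hjm.2
    set good := (Finset.univ.filter (fun p => y (j + 1) ≤ F (j + 1) p ∧
      F (j + 1) p ≤ Z (j + 1))).card with hgood
    set bad := (Finset.univ.filter (fun p => Z (j + 1) < F (j + 1) p ∧ F j p < y j)).card
      with hbad
    have h1' : 2 * K * good < T := h1
    have h2' : Z (j + 1) * bad ≤ M * (b * y j) := h2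
    have h4 : (Sj j).card ≤ good + bad := by
      refine (Finset.card_le_card ?_).trans (Finset.card_union_le _ _)
      intro p hp
      rw [hSj, Finset.mem_filter] at hp
      rw [Finset.mem_union, Finset.mem_filter, Finset.mem_filter]
      by_cases h : F (j + 1) p ≤ Z (j + 1)
      · exact Or.inl ⟨hp.1, hp.2.1, h⟩
      · exact Or.inr ⟨hp.1, not_le.1 h, hp.2.2⟩
    have h5 : 2 * K * bad ≤ T := by
      have h6 : Z (j + 1) * (2 * K * bad) ≤ Z (j + 1) * T := by
        calc Z (j + 1) * (2 * K * bad) = 2 * K * (Z (j + 1) * bad) := by ring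
          _ ≤ 2 * K * (M * (b * y j)) := Nat.mul_le_mul le_rfl h2'
          _ ≤ T * Z (j + 1) := h3
          _ = Z (j + 1) * T := Nat.mul_comm _ _
      exact Nat.le_of_mul_le_mul_left h6 (hZ0 _)
    calc 2 * K * (Sj j).card ≤ 2 * K * (good + bad) := Nat.mul_le_mul le_rfl h4
      _ = 2 * K * good + 2 * K * bad := by ring
      _ < 2 * T := by omega
  have hsum : S.card ≤ ∑ j ∈ Finset.Ico j0 j1, (Sj j).card :=
    (Finset.card_le_card hcov).trans Finset.card_biUnion_le
  have hK0 : 0 < K := by omega
  have hfin : 2 * K * S.card < 2 * K * T := by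
    calc 2 * K * S.card ≤ 2 * K * ∑ j ∈ Finset.Ico j0 j1, (Sj j).card :=
          Nat.mul_le_mul le_rfl hsum
      _ = ∑ j ∈ Finset.Ico j0 j1, 2 * K * (Sj j).card := by rw [Finset.mul_sum]
      _ < ∑ j ∈ Finset.Ico j0 j1, 2 * T :=
          Finset.sum_lt_sum_of_nonempty ⟨j0, Finset.mem_Ico.2 ⟨le_rfl, hj⟩⟩ hbound
      _ = (j1 - j0) * (2 * T) := by rw [Finset.sum_const, Nat.card_Ico, smul_eq_mul]
      _ ≤ K * (2 * T) := Nat.mul_le_mul hK le_rfl
      _ = 2 * K * T := by ring
  exact absurd (Nat.lt_of_mul_lt_mul_left hfin) (not_lt.2 hST)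

open Classical in
theorem classes (M b C y Z : ℕ) (F : Fin M → ℕ) (hyZ : y ≤ Z) (hyb : Z < y * b ^ (C + 1)) :
    ∃ c ≤ C, y * b ^ c ≤ Z ∧
      (Finset.univ.filter (fun p => y ≤ F p ∧ F p ≤ Z)).card ≤
        (C + 1) * (Finset.univ.filter (fun p => y * b ^ c ≤ F p ∧ F p ≤ y * b ^ (c + 1))).card := by
  by_contra hcon
  push Not at hcon
  set P := Finset.univ.filter (fun p => y ≤ F p ∧ F p ≤ Z) with hP
  have hP0 : 0 < P.card := by
    have := hcon 0 (Nat.zero_le _) (by simpa using hyZ)
    omega
  set g : Fin M → ℕ := fun p => Nat.findGreatest (fun c => y * b ^ c ≤ F p) C with hg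
  have hfib : P.card = ∑ c ∈ Finset.range (C + 1), (P.filter (fun p => g p = c)).card := by
    refine Finset.card_eq_sum_card_fiberwise ?_
    intro p _
    rw [Finset.mem_coe, Finset.mem_range]
    exact Nat.lt_succ_of_le (Nat.findGreatest_le C)
  have hlt : ∀ c ∈ Finset.range (C + 1),
      (C + 1) * (P.filter (fun p => g p = c)).card < P.card := by
    intro c hc
    rw [Finset.mem_range] at hc
    by_cases hne : (P.filter (fun p => g p = c)).Nonempty
    · have hmem : ∀ p ∈ P.filter (fun p => g p = c),
          y * b ^ c ≤ F p ∧ F p ≤ y * b ^ (c + 1) ∧ F p ≤ Z := by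
        intro p hp
        rw [Finset.mem_filter, hP, Finset.mem_filter] at hp
        obtain ⟨⟨_, hp1, hp2⟩, hp3⟩ := hp
        have hs : y * b ^ (g p) ≤ F p := by
          have := Nat.findGreatest_spec (P := fun c => y * b ^ c ≤ F p) (m := 0) (n := C)
            (Nat.zero_le _) (by simpa using hp1)
          exact this
        rw [hp3] at hs
        refine ⟨hs, ?_, hp2⟩
        by_cases hcC : c = C
        · rw [hcC]
          exact (hp2.trans_lt hyb).le
        · have hgt : g p < c + 1 := by omega
          have := Nat.findGreatest_is_greatest (P := fun c => y * b ^ c ≤ F p) (n := C)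
            (k := c + 1) hgt (by omega)
          exact (not_le.1 this).le
      obtain ⟨q, hq⟩ := hne
      have h1 := hmem q hq
      have h2 := hcon c (by omega) (h1.1.trans h1.2.2)
      refine lt_of_le_of_lt (Nat.mul_le_mul le_rfl (Finset.card_le_card ?_)) h2
      intro p hp
      rw [Finset.mem_filter]
      exact ⟨Finset.mem_univ _, (hmem p hp).1, (hmem p hp).2.1⟩
    · rw [Finset.not_nonempty_iff_eq_empty] at hne
      rw [hne, Finset.card_empty, Nat.mul_zero]
      exact hP0
  have hfin : (C + 1) * P.card < (C + 1) * P.card := by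
    calc (C + 1) * P.card
        = ∑ c ∈ Finset.range (C + 1), (C + 1) * (P.filter (fun p => g p = c)).card := by
          rw [← Finset.mul_sum, ← hfib]
      _ < ∑ c ∈ Finset.range (C + 1), P.card :=
          Finset.sum_lt_sum_of_nonempty ⟨0, Finset.mem_range.2 (Nat.succ_pos _)⟩ hlt
      _ = (C + 1) * P.card := by rw [Finset.sum_const, Finset.card_range, smul_eq_mul]
  exact lt_irrefl _ hfin

open Classical in
theorem few_small (M r y : ℕ) (A : Fin M → ℕ) (hA : ∀ p, A p < r) :
    (Finset.univ.filter (fun p =>
      (Finset.univ.filter (fun p' => A p' = A p)).card < y)).card ≤ r * y := by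
  have h := Finset.card_le_mul_card_image_of_maps_to (f := A)
    (s := Finset.univ.filter (fun p =>
      (Finset.univ.filter (fun p' => A p' = A p)).card < y)) (t := Finset.range r)
    (fun p _ => Finset.mem_range.2 (hA p)) y (by
      intro v _
      by_cases hne : ((Finset.univ.filter (fun p =>
          (Finset.univ.filter (fun p' => A p' = A p)).card < y)).filter
            (fun p => A p = v)).Nonempty
      · obtain ⟨q, hq⟩ := hne
        rw [Finset.mem_filter, Finset.mem_filter] at hq
        refine (Finset.card_le_card ?_).trans hq.1.2.le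
        intro p hp
        rw [Finset.mem_filter] at hp
        rw [Finset.mem_filter]
        exact ⟨Finset.mem_univ _, by rw [hp.2, hq.2]⟩
      · rw [Finset.not_nonempty_iff_eq_empty] at hne
        rw [hne, Finset.card_empty]
        exact Nat.zero_le _)
  rw [Finset.card_range] at h
  rw [Nat.mul_comm]
  exact h

end Pool.Agent.UCT
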