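import Pool.Agent.UCT.Defs

/-!
# UCT Spread: most cliques have their edges in different windows

PROOF. Let `w = 10 F + B`, `i(h, p) = w τ_h(p) + 10 F + h` = index of the edge number `h` of the
clique `p`; `i` is injective in `(h, p)`. Let `p` be bad: two different pairs, numbers `h ≠ h'`
(`hce2`, `ce` injective), have the same window. `|τ_h(p) - τ_h'(p)| ≥ D`, so `i(h, p)` and
`i(h', p)` differ by at least `w D - B` (a difference of `D` slots is `w D`, the offsets differ by
less than `B ≤ w`), and all the indices between them (`R` is increasing, all `< w M`) have the same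
window; with the two ends these are at least `w (D - 1)` indices. So `i(h, p)` is counted in `hC`.
Different bad `p` give different indices, so there are at most `C` bad `p`. (If `D = 0` or `D = 1` the
condition in `hC` is empty and the count is about all indices; the same proof works.)
-/

set_option autoImplicit false

namespace Pool.Agent.UCT

/-- two far indices of the same window give a large window -/
private theorem win_card (R : ℕ → ℕ) (w m Lc d i j : ℕ)
    (hmono : ∀ a b : ℕ, a < b → b < m → R a < R b) (hij : i ≤ j) (hj : j < m)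
    (hd : w * d ≤ j - i) (hR : R i / Lc = R j / Lc) (k : ℕ) (hk : R k / Lc = R i / Lc) :
    w * d ≤ ((Finset.range m).filter (fun i' => R i' / Lc = R k / Lc)).card := by
  have hsub : Finset.Ico i j ⊆ (Finset.range m).filter (fun i' => R i' / Lc = R k / Lc) := by
    intro x hx
    rw [Finset.mem_Ico] at hx
    rw [Finset.mem_filter, Finset.mem_range]
    refine ⟨lt_trans hx.2 hj, ?_⟩
    have h1 : R i ≤ R x := by
      rcases Nat.eq_or_lt_of_le hx.1 with h | h
      · rw [h]
      · exact (hmono i x h (lt_trans hx.2 hj)).le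
    have h2 : R x ≤ R j := (hmono x j hx.2 hj).le
    have h3 := Nat.div_le_div_right (c := Lc) h1
    have h4 := Nat.div_le_div_right (c := Lc) h2
    omega
  have := Finset.card_le_card hsub
  rw [Nat.card_Ico] at this
  exact le_trans hd this

/-- the indices are injective -/
private theorem idx_inj (w F10 B a b h h' : ℕ) (hw : w = F10 + B) (hh : h < B) (hh' : h' < B)
    (he : w * a + (F10 + h) = w * b + (F10 + h')) : a = b ∧ h = h' := by
  subst hw
  have hpos : 0 < F10 + B := by omega
  have h1 : ((F10 + B) * a + (F10 + h)) / (F10 + B) = a := by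
    rw [Nat.mul_add_div hpos, Nat.div_eq_of_lt (by omega), Nat.add_zero]
  have h2 : ((F10 + B) * b + (F10 + h')) / (F10 + B) = b := by
    rw [Nat.mul_add_div hpos, Nat.div_eq_of_lt (by omega), Nat.add_zero]
  have hab : a = b := by rw [← h1, ← h2, he]
  subst hab
  exact ⟨rfl, by omega⟩

/-- distance of the indices -/
private theorem idx_dist (w F10 B D a b h h' : ℕ) (hw : w = F10 + B) (hh : h < B) (hh' : h' < B)
    (hab : a + D ≤ b) (hD : 1 ≤ D) :
    w * a + (F10 + h) ≤ w * b + (F10 + h') ∧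
      w * (D - 1) ≤ (w * b + (F10 + h')) - (w * a + (F10 + h)) := by
  subst hw
  obtain ⟨e, rfl⟩ : ∃ e, D = e + 1 := ⟨D - 1, by omega⟩
  obtain ⟨c, rfl⟩ : ∃ c, b = a + (e + 1) + c := ⟨b - (a + (e + 1)), by omega⟩
  have h1 : (F10 + B) * (a + (e + 1) + c) =
      (F10 + B) * a + (F10 + B) * e + (F10 + B) + (F10 + B) * c := by ring
  have h2 : e + 1 - 1 = e := by omega
  rw [h2, h1]
  constructor
  · omega
  · omega

open Classical in
theorem bad_spread {V : Type} (E : Finset (Sym2 V)) (rk : Sym2 V → ℕ) (M t B F : ℕ)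
    (σ : Fin F → Equiv.Perm (Fin M)) (τ : Fin B → Equiv.Perm (Fin M)) (ce : Fin B → Fin t × Fin t)
    (hce : Function.Injective ce) (hce2 : ∀ a b : Fin t, a < b → ∃ h, ce h = (a, b))
    (X : Fin F → Fin M → ZMod 5 → V) (Y : Fin M → Fin t → V) (R : ℕ → ℕ)
    (hc : IsCopy E rk M t B F σ τ ce X Y R)
    (D Lc C : ℕ) (hLc : 0 < Lc)
    (hτ : ∀ p h h', h ≠ h' → D ≤ ((τ h p : ℕ) - (τ h' p : ℕ)) + ((τ h' p : ℕ) - (τ h p : ℕ)))
    (hC : ((Finset.range ((10 * F + B) * M)).filter (fun i => (10 * F + B) * (D - 1) ≤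
      ((Finset.range ((10 * F + B) * M)).filter (fun i' => R i' / Lc = R i / Lc)).card)).card
        ≤ C) :
    (Finset.univ.filter (fun p : Fin M => ¬ ∀ a b a' b' : Fin t, a < b → a' < b' →
      rk s(Y p a, Y p b) / Lc = rk s(Y p a', Y p b') / Lc → a = a' ∧ b = b')).card ≤ C := by
  refine le_trans ?_ hC
  set S := (Finset.range ((10 * F + B) * M)).filter (fun i => (10 * F + B) * (D - 1) ≤
      ((Finset.range ((10 * F + B) * M)).filter (fun i' => R i' / Lc = R i / Lc)).card) with hS
  have hlt : ∀ (h : Fin B) (p : Fin M),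
      (10 * F + B) * (τ h p : ℕ) + (10 * F + (h : ℕ)) < (10 * F + B) * M := by
    intro h p
    have h1 : (τ h p : ℕ) + 1 ≤ M := (τ h p).2
    have h2 : (10 * F + B) * ((τ h p : ℕ) + 1) ≤ (10 * F + B) * M := Nat.mul_le_mul_left _ h1
    have h3 : (10 * F + B) * ((τ h p : ℕ) + 1) = (10 * F + B) * (τ h p : ℕ) + (10 * F + B) := by
      ring
    have h4 := h.2
    omega
  have key : ∀ p : Fin M, (¬ ∀ a b a' b' : Fin t, a < b → a' < b' →
      rk s(Y p a, Y p b) / Lc = rk s(Y p a', Y p b') / Lc → a = a' ∧ b = b') →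
      ∃ h : Fin B, (10 * F + B) * (τ h p : ℕ) + (10 * F + (h : ℕ)) ∈ S := by
    intro p hp
    push Not at hp
    obtain ⟨a, b, a', b', hab, hab', hwin, hne⟩ := hp
    obtain ⟨h, hh⟩ := hce2 a b hab
    obtain ⟨h', hh'⟩ := hce2 a' b' hab'
    have hhne : h ≠ h' := by
      intro heq
      rw [heq, hh'] at hh
      rw [Prod.mk.injEq] at hh
      exact hne hh.1.symm hh.2.symm
    have e1 := hc.R3 h p
    have e2 := hc.R3 h' p
    rw [hh] at e1
    rw [hh'] at e2
    rw [e1, e2] at hwin
    refine ⟨h, ?_⟩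
    rw [hS, Finset.mem_filter, Finset.mem_range]
    refine ⟨hlt h p, ?_⟩
    rcases Nat.eq_zero_or_pos D with hD | hD
    · subst hD
      simp
    · have ht := hτ p h h' hhne
      rcases Nat.le_total (τ h p : ℕ) (τ h' p : ℕ) with hle | hle
      · have hd : (τ h p : ℕ) + D ≤ (τ h' p : ℕ) := by omega
        obtain ⟨q1, q2⟩ := idx_dist (10 * F + B) (10 * F) B D _ _ (h : ℕ) (h' : ℕ) rfl h.2 h'.2
          hd hD
        exact win_card R _ _ Lc (D - 1) _ _ hc.mono q1 (hlt h' p) q2 hwin _ rfl
      · have hd : (τ h' p : ℕ) + D ≤ (τ h p : ℕ) := by omega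
        obtain ⟨q1, q2⟩ := idx_dist (10 * F + B) (10 * F) B D _ _ (h' : ℕ) (h : ℕ) rfl h'.2 h.2
          hd hD
        exact win_card R _ _ Lc (D - 1) _ _ hc.mono q1 (hlt h p) q2 hwin.symm _ hwin
  refine Finset.card_le_card_of_injOn
    (fun p => if hp : ∃ h : Fin B, (10 * F + B) * (τ h p : ℕ) + (10 * F + (h : ℕ)) ∈ S then
      (10 * F + B) * (τ hp.choose p : ℕ) + (10 * F + (hp.choose : ℕ)) else 0) ?_ ?_
  · intro p hp
    have hp' := key p (by simpa using hp)
    have : (fun p => if hp : ∃ h : Fin B, (10 * F + B) * (τ h p : ℕ) + (10 * F + (h : ℕ)) ∈ S then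
      (10 * F + B) * (τ hp.choose p : ℕ) + (10 * F + (hp.choose : ℕ)) else 0) p =
      (10 * F + B) * (τ hp'.choose p : ℕ) + (10 * F + (hp'.choose : ℕ)) := dif_pos hp'
    rw [this]
    exact Finset.mem_coe.2 hp'.choose_spec
  · intro p hp q hq hpq
    have hp' := key p (by simpa using hp)
    have hq' := key q (by simpa using hq)
    have e1 : (fun p => if hp : ∃ h : Fin B, (10 * F + B) * (τ h p : ℕ) + (10 * F + (h : ℕ)) ∈ S
      then (10 * F + B) * (τ hp.choose p : ℕ) + (10 * F + (hp.choose : ℕ)) else 0) p =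
      (10 * F + B) * (τ hp'.choose p : ℕ) + (10 * F + (hp'.choose : ℕ)) := dif_pos hp'
    have e2 : (fun p => if hp : ∃ h : Fin B, (10 * F + B) * (τ h p : ℕ) + (10 * F + (h : ℕ)) ∈ S
      then (10 * F + B) * (τ hp.choose p : ℕ) + (10 * F + (hp.choose : ℕ)) else 0) q =
      (10 * F + B) * (τ hq'.choose q : ℕ) + (10 * F + (hq'.choose : ℕ)) := dif_pos hq'
    rw [e1, e2] at hpq
    obtain ⟨h1, h2⟩ := idx_inj (10 * F + B) (10 * F) B _ _ _ _ rfl hp'.choose.2 hq'.choose.2 hpq
    have h3 : hp'.choose = hq'.choose := Fin.ext h2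
    rw [h3] at h1
    exact (τ hq'.choose).injective (Fin.ext h1)

end Pool.Agent.UCT
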