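import Pool.Agent.UCT.Defs

/-!
# UCT Unit: units whose two slots lie in one window each

PROOF of `unit_lab`. Let `w = 10 F + B`. If `R (w p) / L = i = R (w (p + 1)) / L` and `p + 1 < M`
then `R j / L = i` for all `w p ≤ j ≤ w (p + 1)` (`R` is increasing below `w M`), in particular for
all indices of the slot `p`. Class 1 of the unit `(f, p)` is in the slot `p`, class 2 in the slot
`σ f p`. The pairs of places with difference `1` or `4` are of class 1 (for `4`: `s(X a, X (a + 4))`
is `s(X c, X (c + 1))` with `c = a + 4`), those with difference `2` or `3` of class 2.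
`UCR.IsUnit5` with `F = W`.

PROOF of `bad_gap`. If no `i` with `i + 1 < w M` and `w p + 10 f ≤ i < w p + 10 f + 4` has
`R (i + 1) - R i > Γ` then the five ranks of class 1 lie in an interval of length `4 Γ ≤ G0`, so
the values `rk / G0` differ by at most one; same for class 2. So a unit violating
`UCR.IsUnit5 E (rk / L) (rk / G0)` (the first half holds by `unit_lab`) has such a gap in class 1
or in class 2; each gap `i` belongs to at most one `p` for class 1 and to at most one `p` for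
class 2.
-/

set_option autoImplicit false

namespace Pool.Agent.UCT

/-- a pair of places of a unit as an edge of class 1 or of class 2 -/
private theorem pairs5 {V : Type} (X : ZMod 5 → V) (d : ZMod 5) (hd : d ≠ 0) :
    (∀ a, ∃ c, s(X a, X (a + d)) = s(X c, X (c + 1))) ∨
    (∀ a, ∃ c, s(X a, X (a + d)) = s(X c, X (c + 2))) := by
  have h : d = 1 ∨ d = 4 ∨ d = 2 ∨ d = 3 := by
    revert d
    decide
  rcases h with rfl | rfl | rfl | rfl
  · exact Or.inl (fun a => ⟨a, rfl⟩)
  · refine Or.inl (fun a => ⟨a + 4, ?_⟩)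
    rw [show a + 4 + 1 = a by revert a; decide]
    exact Sym2.eq_swap
  · exact Or.inr (fun a => ⟨a, rfl⟩)
  · refine Or.inr (fun a => ⟨a + 3, ?_⟩)
    rw [show a + 3 + 2 = a by revert a; decide]
    exact Sym2.eq_swap

/-- a slot lies below the end -/
private theorem slot_lt {M B F : ℕ} (f : Fin F) {p : ℕ} (hp : p < M) {c : ℕ} (hc : c < 10) :
    (10 * F + B) * p + (10 * (f : ℕ) + c) < (10 * F + B) * M ∧
      10 * (f : ℕ) + c < 10 * F + B := by
  have hf := f.isLt
  have h1 : 10 * (f : ℕ) + c < 10 * F + B := by omega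
  refine ⟨?_, h1⟩
  have h2 : (10 * F + B) * (p + 1) ≤ (10 * F + B) * M := Nat.mul_le_mul_left _ (by omega)
  rw [Nat.mul_succ] at h2
  omega

/-- all ranks of a slot are in the window of its ends -/
private theorem slot_win {M B F : ℕ} (R : ℕ → ℕ)
    (hmono : ∀ i j : ℕ, i < j → j < (10 * F + B) * M → R i < R j) (f : Fin F) (L i : ℕ)
    {p : ℕ} (hp : p + 1 < M) (h1 : R ((10 * F + B) * p) / L = i)
    (h2 : R ((10 * F + B) * (p + 1)) / L = i) {c : ℕ} (hc : c < 10) :
    R ((10 * F + B) * p + (10 * (f : ℕ) + c)) / L = i := by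
  have e := (slot_lt (M := M) (B := B) f (p := p) (by omega) hc).2
  have hlt : (10 * F + B) * (p + 1) < (10 * F + B) * M := by
    apply Nat.mul_lt_mul_of_pos_left hp
    have := f.isLt
    omega
  have hle : ∀ a b, a ≤ b → b < (10 * F + B) * M → R a ≤ R b := by
    intro a b hab hb
    rcases Nat.eq_or_lt_of_le hab with h | h
    · rw [h]
    · exact (hmono a b h hb).le
  have hs : (10 * F + B) * (p + 1) = (10 * F + B) * p + (10 * F + B) := Nat.mul_succ _ _
  have u1 := hle ((10 * F + B) * p) ((10 * F + B) * p + (10 * (f : ℕ) + c)) (by omega) (by omega)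
  have u2 := hle ((10 * F + B) * p + (10 * (f : ℕ) + c)) ((10 * F + B) * (p + 1)) (by omega) hlt
  apply le_antisymm
  · rw [← h2]; exact Nat.div_le_div_right u2
  · rw [← h1]; exact Nat.div_le_div_right u1

/-- a piece: five consecutive ranks without a long gap -/
private theorem piece (R : ℕ → ℕ) (b G0 Γ : ℕ) (hG : 4 * Γ ≤ G0) (hG0 : 0 < G0)
    (hm : ∀ i, b ≤ i → i < b + 4 → R i < R (i + 1))
    (hg : ∀ i, b ≤ i → i < b + 4 → R (i + 1) - R i ≤ Γ) (c c' : ℕ) (hc : c < 5) (hc' : c' < 5) :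
    R (b + c) / G0 ≤ R (b + c') / G0 + 1 := by
  have h0 := hm b le_rfl (by omega)
  have h1 := hm (b + 1) (by omega) (by omega)
  have h2 := hm (b + 2) (by omega) (by omega)
  have h3 := hm (b + 3) (by omega) (by omega)
  have g0 := hg b le_rfl (by omega)
  have g1 := hg (b + 1) (by omega) (by omega)
  have g2 := hg (b + 2) (by omega) (by omega)
  have g3 := hg (b + 3) (by omega) (by omega)
  simp only [add_assoc, Nat.reduceAdd] at h1 h2 h3 g1 g2 g3
  have hb : ∀ c < 5, R b ≤ R (b + c) ∧ R (b + c) ≤ R (b + 4) := by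
    intro c hc
    interval_cases c <;> (try simp only [add_zero]) <;> omega
  have h : R (b + c) ≤ R (b + c') + G0 := by
    have e1 := hb c hc
    have e2 := hb c' hc'
    omega
  calc R (b + c) / G0 ≤ (R (b + c') + G0) / G0 := Nat.div_le_div_right h
    _ = R (b + c') / G0 + 1 := Nat.add_div_right _ hG0

theorem unit_lab {V : Type} (E : Finset (Sym2 V)) (rk : Sym2 V → ℕ) (M t B F : ℕ)
    (σ : Fin F → Equiv.Perm (Fin M)) (τ : Fin B → Equiv.Perm (Fin M)) (ce : Fin B → Fin t × Fin t)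
    (X : Fin F → Fin M → ZMod 5 → V) (Y : Fin M → Fin t → V) (R : ℕ → ℕ)
    (hc : IsCopy E rk M t B F σ τ ce X Y R) (f : Fin F) (L i j : ℕ) (p : Fin M)
    (hp : (p : ℕ) + 1 < M) (hp' : (σ f p : ℕ) + 1 < M)
    (h1 : R ((10 * F + B) * (p : ℕ)) / L = i) (h2 : R ((10 * F + B) * ((p : ℕ) + 1)) / L = i)
    (h3 : R ((10 * F + B) * (σ f p : ℕ)) / L = j)
    (h4 : R ((10 * F + B) * ((σ f p : ℕ) + 1)) / L = j) :
    rk s(X f p 0, X f p 1) / L = i ∧ rk s(X f p 0, X f p 2) / L = j ∧
      UCR.IsUnit5 E (fun e => rk e / L) (fun e => rk e / L) (X f p) := by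
  have w1 : ∀ c : ZMod 5, rk s(X f p c, X f p (c + 1)) / L = i := by
    intro c
    rw [hc.R1]
    exact slot_win R hc.mono f L i hp h1 h2 (by have := ZMod.val_lt c; omega)
  have w2 : ∀ c : ZMod 5, rk s(X f p c, X f p (c + 2)) / L = j := by
    intro c
    rw [hc.R2, show 10 * (f : ℕ) + 5 + c.val = 10 * (f : ℕ) + (5 + c.val) by omega]
    exact slot_win R hc.mono f L j hp' h3 h4 (by have := ZMod.val_lt c; omega)
  refine ⟨?_, ?_, hc.Xinj f p, hc.XE f p, ?_⟩
  · have := w1 0
    rwa [zero_add] at this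
  · have := w2 0
    rwa [zero_add] at this
  · intro a b d hd
    rcases pairs5 (X f p) d hd with h | h
    · obtain ⟨c, hcc⟩ := h a
      obtain ⟨c', hcc'⟩ := h b
      simp only [hcc, hcc', w1]
      exact ⟨trivial, by omega⟩
    · obtain ⟨c, hcc⟩ := h a
      obtain ⟨c', hcc'⟩ := h b
      simp only [hcc, hcc', w2]
      exact ⟨trivial, by omega⟩

open Classical in
theorem bad_gap {V : Type} (E : Finset (Sym2 V)) (rk : Sym2 V → ℕ) (M t B F : ℕ)
    (σ : Fin F → Equiv.Perm (Fin M)) (τ : Fin B → Equiv.Perm (Fin M)) (ce : Fin B → Fin t × Fin t)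
    (X : Fin F → Fin M → ZMod 5 → V) (Y : Fin M → Fin t → V) (R : ℕ → ℕ)
    (hc : IsCopy E rk M t B F σ τ ce X Y R) (f : Fin F) (L G0 Γ : ℕ) (hG : 4 * Γ ≤ G0)
    (hG0 : 0 < G0) (P : Finset (Fin M))
    (hP : ∀ p ∈ P, UCR.IsUnit5 E (fun e => rk e / L) (fun e => rk e / L) (X f p)) :
    (P.filter (fun p => ¬ UCR.IsUnit5 E (fun e => rk e / L) (fun e => rk e / G0) (X f p))).card
      ≤ 2 * ((Finset.range ((10 * F + B) * M)).filter
        (fun i => i + 1 < (10 * F + B) * M ∧ Γ < R (i + 1) - R i)).card := by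
  set G := (Finset.range ((10 * F + B) * M)).filter
    (fun i => i + 1 < (10 * F + B) * M ∧ Γ < R (i + 1) - R i) with hGd
  -- the class 1 block of `p` and the class 2 block of `p`
  have blk : ∀ (z : Fin M → ℕ) (hz : Function.Injective z) (hzM : ∀ p, z p < M) (o : ℕ)
      (ho : o ≤ 5), (P.filter (fun p => ∃ i, (10 * F + B) * z p + (10 * (f : ℕ) + o) ≤ i ∧
        i < (10 * F + B) * z p + (10 * (f : ℕ) + o) + 4 ∧ Γ < R (i + 1) - R i)).card
      ≤ G.card := by
    intro z hz hzM o ho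
    have key : ∀ p ∈ P.filter (fun p => ∃ i, (10 * F + B) * z p + (10 * (f : ℕ) + o) ≤ i ∧
        i < (10 * F + B) * z p + (10 * (f : ℕ) + o) + 4 ∧ Γ < R (i + 1) - R i),
        ∃ i, (10 * F + B) * z p + (10 * (f : ℕ) + o) ≤ i ∧
        i < (10 * F + B) * z p + (10 * (f : ℕ) + o) + 4 ∧ Γ < R (i + 1) - R i :=
      fun p hp => (Finset.mem_filter.mp hp).2
    choose! g hg using key
    refine Finset.card_le_card_of_injOn g (fun p hp => ?_) (fun p hp p' hp' h => ?_)
    · have e := hg p hp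
      have e2 := slot_lt (M := M) (B := B) f (hzM p) (show o + 4 < 10 by omega)
      rw [hGd]
      refine Finset.mem_coe.2 (Finset.mem_filter.2 ⟨Finset.mem_range.2 ?_, ?_, e.2.2⟩) <;> omega
    · have e := hg p hp
      have e' := hg p' hp'
      rw [← h] at e'
      have e2 := (slot_lt (M := M) (B := B) f (hzM p) (show o + 4 < 10 by omega)).2
      have e2' := (slot_lt (M := M) (B := B) f (hzM p') (show o + 4 < 10 by omega)).2
      apply hz
      rcases lt_trichotomy (z p) (z p') with hl | hl | hl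
      · exfalso
        have e3 : (10 * F + B) * (z p + 1) ≤ (10 * F + B) * z p' := Nat.mul_le_mul_left _ hl
        rw [Nat.mul_succ] at e3
        omega
      · exact hl
      · exfalso
        have e3 : (10 * F + B) * (z p' + 1) ≤ (10 * F + B) * z p := Nat.mul_le_mul_left _ hl
        rw [Nat.mul_succ] at e3
        omega
  have b1 := blk (fun p => (p : ℕ)) Fin.val_injective (fun p => p.isLt) 0 (by omega)
  have b2 := blk (fun p => (σ f p : ℕ)) (Fin.val_injective.comp (σ f).injective)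
    (fun p => (σ f p).isLt) 5 le_rfl
  have good : ∀ b : ℕ, b + 4 < (10 * F + B) * M →
      (¬ ∃ i, b ≤ i ∧ i < b + 4 ∧ Γ < R (i + 1) - R i) → ∀ c c' : ℕ, c < 5 → c' < 5 →
      R (b + c) / G0 ≤ R (b + c') / G0 + 1 := by
    intro b hb hn c c' hc5 hc5'
    refine piece R b G0 Γ hG hG0 (fun i hi hi' => hc.mono i (i + 1) (by omega) (by omega))
      (fun i hi hi' => ?_) c c' hc5 hc5'
    by_contra hcon
    exact hn ⟨i, hi, hi', by omega⟩
  refine le_trans (Finset.card_le_card ?_) (le_trans (Finset.card_union_le _ _)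
    (le_trans (add_le_add b1 b2) (by omega)))
  intro p hp
  obtain ⟨hpP, hpn⟩ := Finset.mem_filter.mp hp
  by_contra hcon
  rw [Finset.mem_union, not_or, Finset.mem_filter, Finset.mem_filter] at hcon
  have n1 := fun h => hcon.1 ⟨hpP, h⟩
  have n2 := fun h => hcon.2 ⟨hpP, h⟩
  apply hpn
  refine ⟨hc.Xinj f p, hc.XE f p, ?_⟩
  intro a b d hd
  refine ⟨((hP p hpP).2.2 a b d hd).1, ?_⟩
  have s1 := (slot_lt (M := M) (B := B) f p.isLt (show 0 + 4 < 10 by omega)).1
  have s2 := (slot_lt (M := M) (B := B) f (σ f p).isLt (show 5 + 4 < 10 by omega)).1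
  rcases pairs5 (X f p) d hd with h | h
  · obtain ⟨c, hcc⟩ := h a
    obtain ⟨c', hcc'⟩ := h b
    simp only [hcc, hcc', hc.R1]
    have e := good _ (by omega) n1 c.val c'.val (ZMod.val_lt c) (ZMod.val_lt c')
    rw [show (10 * F + B) * (p : ℕ) + (10 * (f : ℕ) + c.val) =
        (10 * F + B) * (p : ℕ) + (10 * (f : ℕ) + 0) + c.val by omega,
      show (10 * F + B) * (p : ℕ) + (10 * (f : ℕ) + c'.val) =
        (10 * F + B) * (p : ℕ) + (10 * (f : ℕ) + 0) + c'.val by omega]
    exact e
  · obtain ⟨c, hcc⟩ := h a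
    obtain ⟨c', hcc'⟩ := h b
    simp only [hcc, hcc', hc.R2]
    have e := good _ (by omega) n2 c.val c'.val (ZMod.val_lt c) (ZMod.val_lt c')
    rw [show (10 * F + B) * (σ f p : ℕ) + (10 * (f : ℕ) + 5 + c.val) =
        (10 * F + B) * (σ f p : ℕ) + (10 * (f : ℕ) + 5) + c.val by omega,
      show (10 * F + B) * (σ f p : ℕ) + (10 * (f : ℕ) + 5 + c'.val) =
        (10 * F + B) * (σ f p : ℕ) + (10 * (f : ℕ) + 5) + c'.val by omega]
    exact e

end Pool.Agent.UCT
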