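import Pool.Agent.UCT.One
import Pool.Agent.UCT.Data
import Pool.Agent.UCT.Unit
import Pool.Agent.UCT.Levels
import Pool.Agent.UCT.Spread

/-!
# UCT Multi: one colouring for all window sizes
-/

set_option autoImplicit false

namespace Pool.Agent.UCT

open Pool.Agent.UCR

open Classical in
/-- blue copies: the contradiction for one pair of levels -/
private theorem kill {V : Type} [Fintype V] [DecidableEq V] (E : Finset (Sym2 V))
    (rk : Sym2 V → ℕ) (m : ℕ) (hm0 : 0 < m) (hrk : ∀ e ∈ E, rk e < m)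
    (k t B F Fz K C b T1 T2 : ℕ) (y Z μg : ℕ)
    (σ : Fin F → Equiv.Perm (Fin (2 ^ k))) (hσ : ∀ f, Mixing2 k (σ f))
    (τ : Fin B → Equiv.Perm (Fin (2 ^ k)))
    (hexp : ∀ S : Finset (Fin (2 ^ k)), T2 ≤ S.card →
      ∃ f, 2 ^ k ≤ Fz * (S.filter (fun p => σ f p ∈ S)).card)
    (ce : Fin B → Fin t × Fin t) (hF : 0 < F) (hFz : 0 < Fz) (hK : 0 < K)
    (hy : 0 < y) (hyZ : y ≤ Z) (hcls : Z < y * b ^ (C + 1))
    (hT : 2 * K * (C + 1) * (T2 + 2 ^ k / y) ≤ T1) (hb : 0 < b)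
    (jw j : ℕ) (red : Fin F → ℕ → Sym2 V → Prop)
    (hred : ∀ f, ∀ c ≤ C, y * b ^ c ≤ Z → ∀ (X : Fin (2 ^ k) → ZMod 5 → V)
          (d : Fin (2 ^ k / (y * b ^ c)) → Fin m × Fin (2 ^ k + 1) × Fin (2 ^ k + 1)),
          (∀ T, (wt d d (σ f) T : ℝ) ≤ 2 * ((y * b ^ (c + 1) : ℕ) : ℝ) ^ 2 / 2 ^ k + 8) →
          (∀ p i j', Cnt d d (σ f) p i j' →
            rk s(X p 0, X p 1) / b ^ j = (i : ℕ) ∧ rk s(X p 0, X p 2) / b ^ j = (j' : ℕ)) →
          (2 : ℝ) ^ k / Fz ≤ ((Finset.univ.filter (fun p => ∃ i j', Cnt d d (σ f) p i j')).card : ℝ)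
            →
          (((Finset.univ.filter (fun p => ∃ i j', Cnt d d (σ f) p i j')).filter
            (fun p => ¬ IsUnit5 E (fun e => rk e / b ^ j) (fun e => rk e / b ^ jw) (X p))).card : ℝ)
              ≤ 2 * μg →
          ∃ p, ∃ a a' : ZMod 5, a ≠ a' ∧ red f c s(X p a, X p a'))
    (X : Fin F → Fin (2 ^ k) → ZMod 5 → V) (Y : Fin (2 ^ k) → Fin t → V)
    (R : ℕ → ℕ) (hc : IsCopy E rk (2 ^ k) t B F σ τ ce X Y R)
    (hbad : ∀ (f : Fin F) (P : Finset (Fin (2 ^ k))),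
      (∀ p ∈ P, IsUnit5 E (fun e => rk e / b ^ j) (fun e => rk e / b ^ j) (X f p)) →
      (P.filter (fun p => ¬ IsUnit5 E (fun e => rk e / b ^ j) (fun e => rk e / b ^ jw)
        (X f p))).card ≤ 2 * μg)
    (hX : ∀ f, ∀ c ≤ C, y * b ^ c ≤ Z → ∀ p (a a' : ZMod 5), a ≠ a' →
      ¬ red f c s(X f p a, X f p a'))
    (hlev : T1 ≤ 2 * K * (Finset.univ.filter (fun p : Fin (2 ^ k) =>
      y ≤ (Finset.univ.filter (fun p' : Fin (2 ^ k) => R ((10 * F + B) * (p' : ℕ)) / b ^ j =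
        R ((10 * F + B) * (p : ℕ)) / b ^ j)).card ∧
      (Finset.univ.filter (fun p' : Fin (2 ^ k) => R ((10 * F + B) * (p' : ℕ)) / b ^ j =
        R ((10 * F + B) * (p : ℕ)) / b ^ j)).card ≤ Z)).card) : False := by
  have hmono : ∀ s s' : Fin (2 ^ k), s ≤ s' →
      R ((10 * F + B) * (s : ℕ)) ≤ R ((10 * F + B) * (s' : ℕ)) := by
    intro s s' hss
    have h1 : (10 * F + B) * (s : ℕ) ≤ (10 * F + B) * (s' : ℕ) := Nat.mul_le_mul_left _ hss
    rcases Nat.lt_or_eq_of_le h1 with h2 | h2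
    · exact (hc.mono _ _ h2 (Nat.mul_lt_mul_of_pos_left s'.isLt (by omega))).le
    · rw [h2]
  have hRm : ∀ s : Fin (2 ^ k), R ((10 * F + B) * (s : ℕ)) < m := by
    intro s
    have h1 := hc.R1 ⟨0, hF⟩ s 0
    have h2 : (10 * F + B) * (s : ℕ) + (10 * ((⟨0, hF⟩ : Fin F) : ℕ) + (0 : ZMod 5).val)
        = (10 * F + B) * (s : ℕ) := by simp
    rw [h2] at h1
    rw [← h1]
    exact hrk _ (hc.XE _ _ _ _ (by decide))
  obtain ⟨A, hA⟩ : ∃ A : Fin (2 ^ k) → Fin m, ∀ s,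
      (A s : ℕ) = R ((10 * F + B) * (s : ℕ)) / b ^ j :=
    ⟨fun s => ⟨R ((10 * F + B) * (s : ℕ)) / b ^ j,
      lt_of_le_of_lt (Nat.div_le_self _ _) (hRm s)⟩, fun s => rfl⟩
  have hAiff : ∀ s s', A s' = A s ↔ R ((10 * F + B) * (s' : ℕ)) / b ^ j =
        R ((10 * F + B) * (s : ℕ)) / b ^ j := by
    intro s s'
    rw [← hA, ← hA, Fin.val_inj]
  have hAmono : Monotone A := by
    intro s s' hss
    rw [Fin.le_def, hA, hA]
    exact Nat.div_le_div_right (hmono s s' hss)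
  have hfib : ∀ s : Fin (2 ^ k), (Finset.univ.filter (fun p' : Fin (2 ^ k) =>
        R ((10 * F + B) * (p' : ℕ)) / b ^ j = R ((10 * F + B) * (s : ℕ)) / b ^ j)) =
          Finset.univ.filter (fun p' => A p' = A s) := by
    intro s
    apply Finset.filter_congr
    intro p' _
    exact (hAiff s p').symm
  simp only [hfib] at hlev
  obtain ⟨c, hcC, hcZ, hcls'⟩ := classes (2 ^ k) b C y Z
    (fun s => (Finset.univ.filter (fun p' => A p' = A s)).card) hyZ hcls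
  have hℓ : 0 < y * b ^ c := Nat.mul_pos hy (pow_pos hb _)
  obtain ⟨d, hd1, hd2, hd3⟩ := exists_data k m (y * b ^ c) (y * b ^ (c + 1)) hm0 hℓ A hAmono
  set S : Finset (Fin (2 ^ k)) := Finset.univ.filter (fun p : Fin (2 ^ k) =>
    ∃ s, ((d s).2.1 : ℕ) ≤ (p : ℕ) ∧ (p : ℕ) < ((d s).2.2 : ℕ)) with hS
  have hST : T2 ≤ S.card := by
    by_contra hlt
    push Not at hlt
    have h1 : 2 ^ k / (y * b ^ c) ≤ 2 ^ k / y :=
      Nat.div_le_div_left (Nat.le_mul_of_pos_right _ (pow_pos hb _)) hy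
    have h2 : T1 ≤ 2 * K * ((C + 1) * (S.card + 2 ^ k / (y * b ^ c))) :=
      hlev.trans (Nat.mul_le_mul_left _ (hcls'.trans (Nat.mul_le_mul_left _ hd3)))
    have h3 : 2 * K * ((C + 1) * (S.card + 2 ^ k / (y * b ^ c)))
        < 2 * K * (C + 1) * (T2 + 2 ^ k / y) := by
      rw [← mul_assoc]
      apply Nat.mul_lt_mul_of_pos_left
      · omega
      · positivity
    omega
  obtain ⟨f, hf⟩ := hexp S hST
  have hcnt : ∀ p i j', Cnt d d (σ f) p i j' →
      rk s(X f p 0, X f p 1) / b ^ j = (i : ℕ) ∧ rk s(X f p 0, X f p 2) / b ^ j = (j' : ℕ) ∧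
      IsUnit5 E (fun e => rk e / b ^ j) (fun e => rk e / b ^ j) (X f p) := by
    rintro p i j' ⟨⟨s, hs1, hs2, hs3⟩, s', hs1', hs2', hs3'⟩
    obtain ⟨e1, p', hp', e2⟩ := hd1 s p hs2 hs3
    obtain ⟨e1', p'', hp'', e2'⟩ := hd1 s' (σ f p) hs2' hs3'
    rw [hs1] at e1 e2
    rw [hs1'] at e1' e2'
    refine unit_lab E rk (2 ^ k) t B F σ τ ce X Y R hc f (b ^ j) (i : ℕ) (j' : ℕ) p
      ?_ ?_ ?_ ?_ ?_ ?_
    · rw [← hp']; exact p'.isLt
    · rw [← hp'']; exact p''.isLt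
    · rw [← hA, e1]
    · rw [← hp', ← hA, e2]
    · rw [← hA, e1']
    · rw [← hp'', ← hA, e2']
  have hSC : S.filter (fun p => σ f p ∈ S) =
      Finset.univ.filter (fun p => ∃ i j', Cnt d d (σ f) p i j') := by
    ext p
    rw [Finset.mem_filter, hS, Finset.mem_filter, Finset.mem_filter, Finset.mem_filter]
    constructor
    · rintro ⟨⟨_, s, h1, h2⟩, _, s', h3, h4⟩
      exact ⟨Finset.mem_univ _, (d s).1, (d s').1, ⟨s, rfl, h1, h2⟩, ⟨s', rfl, h3, h4⟩⟩
    · rintro ⟨_, i, j', ⟨s, _, h1, h2⟩, s', _, h3, h4⟩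
      exact ⟨⟨Finset.mem_univ _, s, h1, h2⟩, Finset.mem_univ _, s', h3, h4⟩
  obtain ⟨p, a, a', haa, hr⟩ := hred f c hcC hcZ (X f) d
    (fun T => wt_le k m _ (y * b ^ (c + 1)) (σ f) (hσ f) d hd2 T)
    (fun p i j' h => ⟨(hcnt p i j' h).1, (hcnt p i j' h).2.1⟩) (by
      rw [← hSC, div_le_iff₀ (by exact_mod_cast hFz)]
      have : ((2 ^ k : ℕ) : ℝ) ≤ ((Fz * (S.filter (fun p => σ f p ∈ S)).card : ℕ) : ℝ) := by
        exact_mod_cast hf
      push_cast at this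
      linarith) (by
      have := hbad f (Finset.univ.filter (fun p => ∃ i j', Cnt d d (σ f) p i j')) (fun p hp => by
        obtain ⟨_, i, j', h⟩ := Finset.mem_filter.mp hp
        exact (hcnt p i j' h).2.2)
      exact_mod_cast this)
  exact hX f c hcC hcZ p a a' haa hr

open Classical in
theorem multi {V : Type} [Fintype V] [DecidableEq V] (E : Finset (Sym2 V))
    (rk : Sym2 V → ℕ) (hinj : Set.InjOn rk (E : Set (Sym2 V))) (m : ℕ) (hm : E.card ≤ m)
    (hm0 : 0 < m) (hrk : ∀ e ∈ E, rk e < m) (k t B h F Fz K C b C0 T1 T2 D : ℕ)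
    (lam Q y Z μg : ℕ → ℕ)
    (σ : Fin F → Equiv.Perm (Fin (2 ^ k))) (hσ : ∀ f, Mixing2 k (σ f))
    (hexp : ∀ S : Finset (Fin (2 ^ k)), T2 ≤ S.card →
      ∃ f, 2 ^ k ≤ Fz * (S.filter (fun p => σ f p ∈ S)).card)
    (τ : Fin B → Equiv.Perm (Fin (2 ^ k)))
    (hτ : ∀ p h h', h ≠ h' → D ≤ ((τ h p : ℕ) - (τ h' p : ℕ)) + ((τ h' p : ℕ) - (τ h p : ℕ)))
    (ce : Fin B → Fin t × Fin t) (hce : Function.Injective ce)
    (hce2 : ∀ a b : Fin t, a < b → ∃ h, ce h = (a, b))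
    (ht : 5 ≤ t) (hh : 0 < h) (hF : 0 < F) (hFz : 0 < Fz) (hK : 0 < K) (hb : 0 < b)
    (hhs : F * (K + 1) ^ 2 * (C + 1) * (2 * h) ≤ t * (t - 1) / 2)
    (hlam : ∀ j ≤ K, 108 * b ^ j < lam j ^ 3)
    (hQ : ∀ j ≤ K, 0 < Q j)
    (hred : ∀ j ≤ K, 4 * (2 * m) ^ t * 4 ^ (t * (t - 1) / 2) * (40 * lam j) ^ h ≤ Q j ^ h)
    (hy : ∀ j, 2 ≤ y j) (hZ0 : ∀ j, 0 < Z j) (hyZ : ∀ j ≤ K, y j ≤ Z j)
    (hcls : ∀ j ≤ K, Z j < y j * b ^ (C + 1))
    (hlev : ∀ j < K, 2 * K * (2 ^ k * (b * y j)) ≤ T1 * Z (j + 1))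
    (hlev2 : ∀ j ≤ K, 2 * K * (2 ^ k * (b * y j)) ≤ T1 * Z j)
    (hT : ∀ j ≤ K, 2 * K * (C + 1) * (T2 + 2 ^ k / y j) ≤ T1) (hT0 : 0 < T1)
    (hbad : ∀ j ≤ K, 4 * (Q j : ℝ) * (2 * μg j) ≤ 2 ^ k / Fz)
    (hnum : ∀ j ≤ K, ∀ c ≤ C, y j * b ^ c ≤ Z j →
      4 * (Q j : ℝ) * (2 * ((y j * b ^ (c + 1) : ℕ) : ℝ) ^ 2 / 2 ^ k + 8) *
      ((2 ^ k / (y j * b ^ c) : ℕ) * Real.log (m * (2 ^ k + 1) ^ 2) + Real.log 4) ≤ 2 ^ k / Fz)
    (hC0 : C0 < 2 ^ k) :
    ∃ col : Sym2 V → Bool, ∀ (X : Fin F → Fin (2 ^ k) → ZMod 5 → V)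
      (Y : Fin (2 ^ k) → Fin t → V) (R : ℕ → ℕ), IsCopy E rk (2 ^ k) t B F σ τ ce X Y R →
      ∀ b' : Bool, (∀ f p (a a' : ZMod 5), a ≠ a' → col s(X f p a, X f p a') = b') →
        (∀ p (a a' : Fin t), a ≠ a' → col s(Y p a, Y p a') = b') →
      (b' = true → C0 <
        ((Finset.range ((10 * F + B) * 2 ^ k)).filter (fun i => (10 * F + B) * (D - 1) ≤
        ((Finset.range ((10 * F + B) * 2 ^ k)).filter
          (fun i' => R i' / b ^ K = R i / b ^ K)).card)).card) ∧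
      (b' = false →
      (∀ j ≤ K, (Finset.univ.filter (fun p : Fin (2 ^ k) =>
        y j ≤ (Finset.univ.filter (fun p' : Fin (2 ^ k) => R ((10 * F + B) * (p' : ℕ)) / b ^ j =
          R ((10 * F + B) * (p : ℕ)) / b ^ j)).card)).card < T1) ∧
      ∀ j ≤ K, ∀ Γ : ℕ, 4 * Γ ≤ b ^ j →
        ((Finset.range ((10 * F + B) * 2 ^ k)).filter
          (fun i => i + 1 < (10 * F + B) * 2 ^ k ∧ Γ < R (i + 1) - R i)).card ≤ μg j →
        (Finset.univ.filter (fun p : Fin (2 ^ k) =>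
          y j ≤ (Finset.univ.filter (fun p' : Fin (2 ^ k) => R ((10 * F + B) * (p' : ℕ)) / b ^ K =
            R ((10 * F + B) * (p : ℕ)) / b ^ K)).card)).card < 2 * T1) := by
  have hone : ∀ (x : Fin F × Fin (K + 1) × Fin (K + 1) × Fin (C + 1)),
      ∃ red : Sym2 V → Prop,
      (∀ y : Fin t → V, (∀ a b : Fin t, a < b → s(y a, y b) ∈ E) →
        (∀ a b' a' b'' : Fin t, a < b' → a' < b'' →
          rk s(y a, y b') / b ^ (x.2.2.1 : ℕ) = rk s(y a', y b'') / b ^ (x.2.2.1 : ℕ) →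
            a = a' ∧ b' = b'') →
        (Finset.univ.filter (fun q : Fin t × Fin t => q.1 < q.2 ∧
          red s(y q.1, y q.2))).card < 2 * h) ∧
      ((x.2.1 : ℕ) ≤ (x.2.2.1 : ℕ) → y (x.2.1 : ℕ) * b ^ (x.2.2.2 : ℕ) ≤ Z (x.2.1 : ℕ) →
        ∀ (X : Fin (2 ^ k) → ZMod 5 → V)
          (d : Fin (2 ^ k / (y (x.2.1 : ℕ) * b ^ (x.2.2.2 : ℕ))) →
            Fin m × Fin (2 ^ k + 1) × Fin (2 ^ k + 1)),
          (∀ T, (wt d d (σ x.1) T : ℝ) ≤
            2 * ((y (x.2.1 : ℕ) * b ^ ((x.2.2.2 : ℕ) + 1) : ℕ) : ℝ) ^ 2 / 2 ^ k + 8) →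
          (∀ p i j', Cnt d d (σ x.1) p i j' →
            rk s(X p 0, X p 1) / b ^ (x.2.2.1 : ℕ) = (i : ℕ) ∧
            rk s(X p 0, X p 2) / b ^ (x.2.2.1 : ℕ) = (j' : ℕ)) →
          (2 : ℝ) ^ k / Fz ≤
            ((Finset.univ.filter (fun p => ∃ i j', Cnt d d (σ x.1) p i j')).card : ℝ) →
          (((Finset.univ.filter (fun p => ∃ i j', Cnt d d (σ x.1) p i j')).filter
            (fun p => ¬ IsUnit5 E (fun e => rk e / b ^ (x.2.2.1 : ℕ))
              (fun e => rk e / b ^ (x.2.1 : ℕ)) (X p))).card : ℝ) ≤ 2 * μg (x.2.1 : ℕ) →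
          ∃ p, ∃ a a' : ZMod 5, a ≠ a' ∧ red s(X p a, X p a')) := by
    rintro ⟨f, jw, j, c⟩
    have hjw : (jw : ℕ) ≤ K := Nat.lt_succ_iff.mp jw.isLt
    have hc' : (c : ℕ) ≤ C := Nat.lt_succ_iff.mp c.isLt
    by_cases hv : (jw : ℕ) ≤ (j : ℕ) ∧ y (jw : ℕ) * b ^ (c : ℕ) ≤ Z (jw : ℕ)
    · obtain ⟨red, h1, h2⟩ := one_type E rk hinj m hm hm0 k t h (b ^ (j : ℕ)) (b ^ (jw : ℕ))
        (lam jw) (Q jw) (2 ^ k / (y (jw : ℕ) * b ^ (c : ℕ)))
        (2 * ((y (jw : ℕ) * b ^ ((c : ℕ) + 1) : ℕ) : ℝ) ^ 2 / 2 ^ k + 8) (2 * μg (jw : ℕ))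
        (2 ^ k / Fz) (σ f) ht (pow_pos hb _) (Nat.pow_le_pow_right hb hv.1) (hlam _ hjw)
        (hQ _ hjw) (hred _ hjw) (by positivity) (hbad _ hjw) (hnum _ hjw _ hc' hv.2)
      exact ⟨red, h1, fun _ _ => h2⟩
    · refine ⟨fun _ => False, fun y _ _ => ?_, fun h1 h2 => absurd ⟨h1, h2⟩ hv⟩
      simp only [and_false, Finset.filter_false, Finset.card_empty]
      omega
  choose red hredY hredX using hone
  refine ⟨fun e => decide (∃ x, red x e), fun X Y R hc b' hX hY => ?_⟩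
  cases b' with
  | false =>
    refine ⟨fun h => absurd h (by decide), fun _ => ?_⟩
    have hnr : ∀ x f p (a a' : ZMod 5), a ≠ a' → ¬ red x s(X f p a, X f p a') :=
      fun x f p a a' haa hr => of_decide_eq_false (hX f p a a' haa) ⟨x, hr⟩
    have hmono : ∀ s s' : Fin (2 ^ k), s ≤ s' →
        R ((10 * F + B) * (s : ℕ)) ≤ R ((10 * F + B) * (s' : ℕ)) := by
      intro s s' hss
      have h1 : (10 * F + B) * (s : ℕ) ≤ (10 * F + B) * (s' : ℕ) := Nat.mul_le_mul_left _ hss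
      rcases Nat.lt_or_eq_of_le h1 with h2 | h2
      · exact (hc.mono _ _ h2 (Nat.mul_lt_mul_of_pos_left s'.isLt (by omega))).le
      · rw [h2]
    have hAA : ∀ j : ℕ, ∀ v, ((Finset.univ.filter (fun p : Fin (2 ^ k) =>
        R ((10 * F + B) * (p : ℕ)) / b ^ (j + 1) = v)).image
          (fun p : Fin (2 ^ k) => R ((10 * F + B) * (p : ℕ)) / b ^ j)).card ≤ b := by
      intro j v
      have hsub : ((Finset.univ.filter (fun p : Fin (2 ^ k) =>
          R ((10 * F + B) * (p : ℕ)) / b ^ (j + 1) = v)).image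
          (fun p : Fin (2 ^ k) => R ((10 * F + B) * (p : ℕ)) / b ^ j)) ⊆
            Finset.Ico (v * b) (v * b + b) := by
        intro x hx
        obtain ⟨p, hp, rfl⟩ := Finset.mem_image.mp hx
        have hp' := (Finset.mem_filter.mp hp).2
        rw [pow_succ, ← Nat.div_div_eq_div_mul] at hp'
        rw [Finset.mem_Ico]
        have h1 := Nat.div_add_mod (R ((10 * F + B) * (p : ℕ)) / b ^ j) b
        have h2 := Nat.mod_lt (R ((10 * F + B) * (p : ℕ)) / b ^ j) hb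
        rw [hp', mul_comm] at h1
        omega
      refine (Finset.card_le_card hsub).trans ?_
      rw [Nat.card_Ico]
      omega
    have hkill : ∀ jw ≤ K, ∀ j ≤ K, jw ≤ j → (∀ (f : Fin F) (P : Finset (Fin (2 ^ k))),
      (∀ p ∈ P, IsUnit5 E (fun e => rk e / b ^ j) (fun e => rk e / b ^ j) (X f p)) →
      (P.filter (fun p => ¬ IsUnit5 E (fun e => rk e / b ^ j) (fun e => rk e / b ^ jw)
        (X f p))).card ≤ 2 * μg jw) →
        T1 ≤ 2 * K * (Finset.univ.filter (fun p : Fin (2 ^ k) =>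
        y jw ≤ (Finset.univ.filter (fun p' : Fin (2 ^ k) => R ((10 * F + B) * (p' : ℕ)) / b ^ j =
          R ((10 * F + B) * (p : ℕ)) / b ^ j)).card ∧
        (Finset.univ.filter (fun p' : Fin (2 ^ k) => R ((10 * F + B) * (p' : ℕ)) / b ^ j =
          R ((10 * F + B) * (p : ℕ)) / b ^ j)).card ≤ Z jw)).card → False := by
      intro jw hjw j hj hjj hbad' hlev'
      refine kill E rk m hm0 hrk k t B F Fz K C b T1 T2 (y jw) (Z jw) (μg jw) σ hσ τ hexp ce hF hFz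
        hK (by have := hy jw; omega) (hyZ jw hjw) (hcls jw hjw) (hT jw hjw) hb jw j
        (fun f c => if hcc : c ≤ C then red (f, ⟨jw, Nat.lt_succ_of_le hjw⟩,
          ⟨j, Nat.lt_succ_of_le hj⟩, ⟨c, Nat.lt_succ_of_le hcc⟩) else fun _ => False)
        ?_ X Y R hc hbad' ?_ hlev'
      · intro f c hcc hcZ
        rw [dif_pos hcc]
        exact hredX (f, ⟨jw, Nat.lt_succ_of_le hjw⟩,
          ⟨j, Nat.lt_succ_of_le hj⟩, ⟨c, Nat.lt_succ_of_le hcc⟩) hjj hcZ
      · intro f c hcc _ p a a' haa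
        rw [dif_pos hcc]
        exact hnr _ f p a a' haa
    have hK1 : ∀ j ≤ K, (Finset.univ.filter (fun p : Fin (2 ^ k) =>
        y j ≤ (Finset.univ.filter (fun p' : Fin (2 ^ k) => R ((10 * F + B) * (p' : ℕ)) / b ^ j =
          R ((10 * F + B) * (p : ℕ)) / b ^ j)).card)).card < T1 := by
      intro j hj
      by_contra hge
      push Not at hge
      have hzero : (Finset.univ.filter (fun p : Fin (2 ^ k) =>
          y 0 ≤ (Finset.univ.filter (fun p' : Fin (2 ^ k) => R ((10 * F + B) * (p' : ℕ)) / b ^ 0 =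
          R ((10 * F + B) * (p : ℕ)) / b ^ 0)).card)).card = 0 := by
        rw [Finset.card_eq_zero, Finset.filter_eq_empty_iff]
        intro p _ hle
        have h1 : (Finset.univ.filter (fun p' : Fin (2 ^ k) =>
            R ((10 * F + B) * (p' : ℕ)) / b ^ 0 =
              R ((10 * F + B) * (p : ℕ)) / b ^ 0)).card ≤ 1 := by
          rw [Finset.card_le_one]
          intro x hx x' hx'
          have e1 := (Finset.mem_filter.mp hx).2
          have e2 := (Finset.mem_filter.mp hx').2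
          rw [pow_zero, Nat.div_one, Nat.div_one] at e1 e2
          by_contra hne
          rcases lt_or_gt_of_ne hne with hlt | hlt
          · have := hc.mono ((10 * F + B) * (x : ℕ)) ((10 * F + B) * (x' : ℕ))
              (Nat.mul_lt_mul_of_pos_left hlt (by omega))
              (Nat.mul_lt_mul_of_pos_left x'.isLt (by omega))
            omega
          · have := hc.mono ((10 * F + B) * (x' : ℕ)) ((10 * F + B) * (x : ℕ))
              (Nat.mul_lt_mul_of_pos_left hlt (by omega))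
              (Nat.mul_lt_mul_of_pos_left x.isLt (by omega))
            omega
        have := hy 0
        omega
      have hj0 : 0 < j := by
        rcases Nat.eq_zero_or_pos j with h0 | h0
        · rw [h0, hzero] at hge
          omega
        · exact h0
      obtain ⟨j', hj1, hj2, hlev'⟩ := levels (2 ^ k) b K T1 0 j
        (fun i p => R ((10 * F + B) * (p : ℕ)) / b ^ i) y Z hj0 (by omega)
        (fun i _ _ v => hAA i v) (by
          rw [hzero]
          omega) hZ0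
        (fun i _ hi => hlev i (by omega))
      refine hkill j' (by omega) j' (by omega) le_rfl (fun f P hP => ?_) hlev'
      have : P.filter (fun p => ¬ IsUnit5 E (fun e => rk e / b ^ j') (fun e => rk e / b ^ j')
          (X f p)) = ∅ := by
        rw [Finset.filter_eq_empty_iff]
        intro p hp hn
        exact hn (hP p hp)
      rw [this, Finset.card_empty]
      exact Nat.zero_le _
    refine ⟨hK1, fun jw hjw Γ hΓ hgap => ?_⟩
    by_contra hge
    push Not at hge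
    have hjK : jw < K := by
      rcases Nat.lt_or_eq_of_le hjw with h0 | h0
      · exact h0
      · exfalso
        have h1 := hK1 K le_rfl
        rw [h0] at hge
        omega
    have h1 := hK1 jw hjw
    obtain ⟨j', hj1, hj2, hlev'⟩ := levels (2 ^ k) b K T1 jw K
        (fun i p => R ((10 * F + B) * (p : ℕ)) / b ^ i) (fun _ => y jw) (fun _ => Z jw) hjK
        (by omega)
        (fun i _ _ v => hAA i v) (by
          omega) (fun _ => hZ0 jw)
        (fun i _ hi => hlev2 jw hjw)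
    refine hkill jw hjw j' hj2 hj1.le (fun f P hP => ?_) hlev'
    refine le_trans (bad_gap E rk (2 ^ k) t B F σ τ ce X Y R hc f (b ^ j') (b ^ jw) Γ hΓ
      (pow_pos hb _) P hP) (Nat.mul_le_mul_left _ hgap)
  | true =>
    refine ⟨fun _ => ?_, fun h => absurd h (by decide)⟩
    by_contra hbig
    push Not at hbig
    have hbad' := bad_spread E rk (2 ^ k) t B F σ τ ce hce hce2 X Y R hc D (b ^ K) C0
      (pow_pos hb _) hτ hbig
    have hlt := lt_of_le_of_lt hbad' hC0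
    obtain ⟨p, _, hp⟩ := Finset.exists_mem_notMem_of_card_lt_card
      (lt_of_lt_of_eq hlt (by rw [Finset.card_univ, Fintype.card_fin] :
        2 ^ k = (Finset.univ : Finset (Fin (2 ^ k))).card))
    have hgood : ∀ a b' a' b'' : Fin t, a < b' → a' < b'' →
        rk s(Y p a, Y p b') / b ^ K = rk s(Y p a', Y p b'') / b ^ K → a = a' ∧ b' = b'' := by
      by_contra hcon
      exact hp (Finset.mem_filter.mpr ⟨Finset.mem_univ _, hcon⟩)
    have hgoodj : ∀ j ≤ K, ∀ a b' a' b'' : Fin t, a < b' → a' < b'' →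
        rk s(Y p a, Y p b') / b ^ j = rk s(Y p a', Y p b'') / b ^ j → a = a' ∧ b' = b'' := by
      intro j hj a b1 a' b2 h1 h2 heq
      refine hgood a b1 a' b2 h1 h2 ?_
      have hKj : b ^ K = b ^ j * b ^ (K - j) := by
        rw [← pow_add]
        congr 1
        omega
      rw [hKj, ← Nat.div_div_eq_div_mul, ← Nat.div_div_eq_div_mul, heq]
    have hcount : (Finset.univ.filter (fun q : Fin t × Fin t => q.1 < q.2)).card
        ≤ ∑ x : Fin F × Fin (K + 1) × Fin (K + 1) × Fin (C + 1),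
          (Finset.univ.filter (fun q : Fin t × Fin t => q.1 < q.2 ∧
            red x s(Y p q.1, Y p q.2))).card := by
      refine le_trans (Finset.card_le_card ?_) Finset.card_biUnion_le
      intro q hq
      have hq' := (Finset.mem_filter.mp hq).2
      obtain ⟨x, hx⟩ := of_decide_eq_true (hY p q.1 q.2 hq'.ne)
      exact Finset.mem_biUnion.mpr ⟨x, Finset.mem_univ _,
        Finset.mem_filter.mpr ⟨Finset.mem_univ _, hq', hx⟩⟩
    have hlt2 : ∑ x : Fin F × Fin (K + 1) × Fin (K + 1) × Fin (C + 1),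
        (Finset.univ.filter (fun q : Fin t × Fin t => q.1 < q.2 ∧
          red x s(Y p q.1, Y p q.2))).card
        < ∑ _x : Fin F × Fin (K + 1) × Fin (K + 1) × Fin (C + 1), 2 * h := by
      apply Finset.sum_lt_sum_of_nonempty ⟨(⟨0, hF⟩, 0, 0, 0), Finset.mem_univ _⟩
      intro x _
      exact hredY x (Y p) (fun a b hab => hc.YE p a b hab.ne)
        (hgoodj _ (Nat.lt_succ_iff.mp x.2.2.1.isLt))
    rw [UCS.card_pairs] at hcount
    rw [Finset.sum_const, Finset.card_univ, Fintype.card_prod, Fintype.card_prod,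
      Fintype.card_prod, Fintype.card_fin, Fintype.card_fin, Fintype.card_fin,
      smul_eq_mul] at hlt2
    have : F * ((K + 1) * ((K + 1) * (C + 1))) * (2 * h) ≤ t * (t - 1) / 2 := by
      refine le_trans (le_of_eq ?_) hhs
      ring
    omega

end Pool.Agent.UCT
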