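import Mathlib

/-!
# UCT NumDefs: the parameters as functions of `n`
-/

set_option autoImplicit false

namespace Pool.Agent.UCT

/-- ratio of consecutive window sizes -/
noncomputable def bb (d : ℝ) (n : ℕ) : ℕ := ⌊(n : ℝ) ^ d⌋₊

noncomputable def lamj (d : ℝ) (n j : ℕ) : ℕ := ⌈(n : ℝ) ^ ((j : ℝ) * d / 3 + d)⌉₊

noncomputable def Qj (d : ℝ) (n j : ℕ) : ℕ := ⌊(n : ℝ) ^ ((j : ℝ) * d / 3 + 2 * d)⌋₊

noncomputable def yj (d : ℝ) (n j : ℕ) : ℕ := ⌈(n : ℝ) ^ ((j : ℝ) * d / 3 + 4 * d)⌉₊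

noncomputable def Zj (d : ℝ) (n j : ℕ) : ℕ := ⌊(n : ℝ) ^ (1 - (j : ℝ) * d / 3 - 8 * d)⌋₊ + 1

noncomputable def muj (d : ℝ) (n j : ℕ) : ℕ := ⌊(n : ℝ) ^ (1 - (j : ℝ) * d / 3 - 6 * d)⌋₊

noncomputable def TT1 (η : ℝ) (k : ℕ) : ℕ := ⌊η * 2 ^ k / 6⌋₊

def TT2 (z k : ℕ) : ℕ := 2 * 2 ^ k / (z + 1) + 1

/-- `2 ^ kk v n` is the largest power of four which is at most `n / v` -/
def kk (v n : ℕ) : ℕ := 2 * Nat.log 4 (n / v)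

end Pool.Agent.UCT
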