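import Pool.Agent.UCR.Cover
import Pool.Agent.UCR.Rank
import Pool.Agent.UCS.RedUnion
import Pool.Agent.UCS.Small
import Pool.Agent.UCT.BlueUnion

/-!
# UCT One: the red pairs of one type
-/

set_option autoImplicit false

namespace Pool.Agent.UCT

open Pool.Agent.UCR

open Classical in
theorem one_type {V : Type} [Fintype V] [DecidableEq V] (E : Finset (Sym2 V))
    (rk : Sym2 V → ℕ) (hinj : Set.InjOn rk (E : Set (Sym2 V))) (m : ℕ) (hm : E.card ≤ m)
    (hm0 : 0 < m) (k t h L G0 lam Q x : ℕ) (wmax b K0 : ℝ)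
    (σ : Equiv.Perm (Fin (2 ^ k)))
    (ht : 5 ≤ t) (hG0 : 0 < G0) (hL : G0 ≤ L)
    (hlam : 108 * G0 < lam ^ 3) (hQ : 0 < Q)
    (hred : 4 * (2 * m) ^ t * 4 ^ (t * (t - 1) / 2) * (40 * lam) ^ h ≤ Q ^ h)
    (hw : 0 < wmax) (hb : 4 * (Q : ℝ) * b ≤ K0)
    (hnum : 4 * (Q : ℝ) * wmax *
      (x * Real.log (m * (2 ^ k + 1) ^ 2) + Real.log 4) ≤ K0) :
    ∃ red : Sym2 V → Prop,
      (∀ y : Fin t → V, (∀ a b : Fin t, a < b → s(y a, y b) ∈ E) →
        (∀ a b a' b' : Fin t, a < b → a' < b' →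
          rk s(y a, y b) / L = rk s(y a', y b') / L → a = a' ∧ b = b') →
        (Finset.univ.filter (fun q : Fin t × Fin t => q.1 < q.2 ∧
          red s(y q.1, y q.2))).card < 2 * h) ∧
      ∀ (X : Fin (2 ^ k) → ZMod 5 → V)
          (d : Fin x → Fin m × Fin (2 ^ k + 1) × Fin (2 ^ k + 1)),
          (∀ T, (wt d d σ T : ℝ) ≤ wmax) →
          (∀ p i j, Cnt d d σ p i j →
            rk s(X p 0, X p 1) / L = (i : ℕ) ∧ rk s(X p 0, X p 2) / L = (j : ℕ)) →
          K0 ≤ ((Finset.univ.filter (fun p => ∃ i j, Cnt d d σ p i j)).card : ℝ) →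
          (((Finset.univ.filter (fun p => ∃ i j, Cnt d d σ p i j)).filter
            (fun p => ¬ IsUnit5 E (fun e => rk e / L) (fun e => rk e / G0) (X p))).card : ℝ)
              ≤ b →
          ∃ p, ∃ a a' : ZMod 5, a ≠ a' ∧ red s(X p a, X p a') := by
  set W : Sym2 V → ℕ := fun e => rk e / L with hWdef
  set F : Sym2 V → ℕ := fun e => rk e / G0 with hFdef
  obtain ⟨Rd, hR1, hR2, hR3⟩ := cover E W F G0 lam
    (fun g => fine_card E rk hinj G0 hG0 g)
    (fun g => coarse_card E rk G0 L hG0 hL g) hlam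
    (Finset.univ.filter (fun X => IsUnit5 E W F X)) (fun X hX => (Finset.mem_filter.mp hX).2)
  have hblue := blue_union k m Q x wmax b K0 σ hm0 hQ hw hb hnum
  have hredu := UCS.red_union E W W m Q (40 * lam) h t m (by omega) hm hQ Rd hR2 hR3 hred
  obtain ⟨B1, hB1, hB1c⟩ := UCS.ex_of_filter' _ _ _ _ hblue
  obtain ⟨B2, hB2, hB2c⟩ := UCS.ex_of_filter _ _ _ hredu
  have hex : ∃ f : Fin m × Fin m → Fin Q, f ∉ B1 ∧ f ∉ B2 := by
    by_contra hcon
    push Not at hcon
    have hsub : (Finset.univ : Finset (Fin m × Fin m → Fin Q)) ⊆ B1 ∪ B2 := by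
      intro f _
      rw [Finset.mem_union]
      by_cases hf : f ∈ B1
      · exact Or.inl hf
      · exact Or.inr (hcon f hf)
    have hcard := (Finset.card_le_card hsub).trans (Finset.card_union_le _ _)
    rw [Finset.card_univ, Fintype.card_fun, Fintype.card_prod, Fintype.card_fin, Fintype.card_fin,
      ← pow_two] at hcard
    have hpos : 0 < Q ^ (m ^ 2) := pow_pos hQ _
    omega
  obtain ⟨f, hf1, hf2⟩ := hex
  rw [hB2] at hf2
  refine ⟨fun e => ∃ T : Fin m × Fin m, (f T : ℕ) = 0 ∧ e ∈ Rd ((T.1 : ℕ), (T.2 : ℕ)),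
    fun y hyE hyW => ?_, ?_⟩
  · by_contra hlt
    apply hf2
    refine ⟨y, hyE, hyW, hyW, ?_⟩
    convert Nat.le_of_not_lt hlt
  · intro X d hwt hlab hK0 hbad
    by_contra hcon
    push Not at hcon
    apply hf1
    rw [hB1]
    refine ⟨d, hwt, ?_, ?_⟩
    · refine hK0.trans ?_
      exact_mod_cast UCS.card_le_sum_wt σ d d
    · have hmpos : 0 < m := hm0
      obtain ⟨A1, hA1⟩ : ∃ A1 : Fin (2 ^ k) → Fin m, ∀ p,
          (A1 p : ℕ) = (rk s(X p 0, X p 1) / L) % m :=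
        ⟨fun p => ⟨(rk s(X p 0, X p 1) / L) % m, Nat.mod_lt _ hmpos⟩, fun p => rfl⟩
      obtain ⟨A2, hA2⟩ : ∃ A2 : Fin (2 ^ k) → Fin m, ∀ p,
          (A2 p : ℕ) = (rk s(X (σ.symm p) 0, X (σ.symm p) 2) / L) % m :=
        ⟨fun p => ⟨(rk s(X (σ.symm p) 0, X (σ.symm p) 2) / L) % m, Nat.mod_lt _ hmpos⟩,
          fun p => rfl⟩
      have hA : ∀ p i j, Cnt d d σ p i j → A1 p = i ∧ A2 (σ p) = j := by
        intro p i j hcnt
        obtain ⟨e1, e2⟩ := hlab p i j hcnt
        constructor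
        · apply Fin.ext
          rw [hA1, e1]
          exact Nat.mod_eq_of_lt i.isLt
        · apply Fin.ext
          rw [hA2, Equiv.symm_apply_apply, e2]
          exact Nat.mod_eq_of_lt j.isLt
      have hsum := UCS.sum_wt_le σ d d A1 A2 hA
        (Finset.univ.filter (fun T => (f T : ℕ) = 0))
        ((Finset.univ.filter (fun p => ∃ i j, Cnt d d σ p i j)).filter
          (fun p => ¬ IsUnit5 E W F (X p))) (by
          intro p T hT hcnt
          rw [Finset.mem_filter] at hT ⊢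
          refine ⟨Finset.mem_filter.mpr ⟨Finset.mem_univ _, T.1, T.2, hcnt⟩, fun hunit => ?_⟩
          obtain ⟨a, a', haa, hmem⟩ := hR1 (X p) (Finset.mem_filter.mpr ⟨Finset.mem_univ _, hunit⟩)
          obtain ⟨e1, e2⟩ := hlab p _ _ hcnt
          have hl : lab W (X p) = ((T.1 : ℕ), (T.2 : ℕ)) := by
            unfold lab
            rw [← e1, ← e2]
          rw [hl] at hmem
          exact hcon p a a' haa T hT.2 hmem)
      refine le_trans ?_ hbad
      exact_mod_cast hsum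

end Pool.Agent.UCT
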