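import Pool.Agent.UCR.Rank
import Pool.Agent.UCT.Defs

/-!
# UCT Size: few edges of a copy have few near edges
-/

set_option autoImplicit false

namespace Pool.Agent.UCT

open Pool.Agent.UCR

private theorem mem_edges' {N : ℕ} {G : SimpleGraph (Fin N)} {e : Sym2 (Fin N)} :
    e ∈ edges G ↔ e ∈ G.edgeSet := by
  unfold edges
  rw [Set.Finite.mem_toFinset]

theorem few_thin {n N : ℕ} (H : SimpleGraph (Fin n)) (G : SimpleGraph (Fin N))
    (f : Sym2 (Fin N) → ℕ) (hf : Function.Injective f) (φ : Fin n → Fin N)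
    (hG : ∀ e ∈ H.edgeSet, Sym2.map φ e ∈ G.edgeSet) (x y : ℝ) (hx : 1 ≤ x) (hy : 0 ≤ y) :
    ({e ∈ H.edgeSet | (near H G f φ x e : ℝ) ≤ y}.ncard : ℝ) ≤
      (2 * G.edgeSet.ncard / x + 1) * y := by
  classical
  obtain ⟨L, hL⟩ : ∃ L : ℕ, L = ⌊x⌋₊ := ⟨_, rfl⟩
  have hL0 : 0 < L := by
    rw [hL]
    exact Nat.floor_pos.mpr hx
  have hLx : (L : ℝ) ≤ x := by
    rw [hL]
    exact Nat.floor_le (by linarith)
  have hxL : x ≤ 2 * L := by
    have h1 : x < ⌊x⌋₊ + 1 := Nat.lt_floor_add_one x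
    have h2 : (1 : ℝ) ≤ L := by exact_mod_cast hL0
    rw [← hL] at h1
    linarith
  have hEc : (edges G).card = G.edgeSet.ncard := by
    unfold edges
    rw [Set.ncard_eq_toFinset_card _ G.edgeSet.toFinite]
  obtain ⟨S, hS⟩ : ∃ S : Finset (Sym2 (Fin n)), ∀ e, e ∈ S ↔
      e ∈ H.edgeSet ∧ (near H G f φ x e : ℝ) ≤ y := by
    refine ⟨Finset.univ.filter (fun e => e ∈ H.edgeSet ∧ (near H G f φ x e : ℝ) ≤ y),
      fun e => ?_⟩
    rw [Finset.mem_filter]
    exact and_iff_right (Finset.mem_univ _)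
  have hSc : {e ∈ H.edgeSet | (near H G f φ x e : ℝ) ≤ y}.ncard = S.card := by
    rw [← Set.ncard_coe_finset]
    congr 1
    ext e
    exact (hS e).symm
  have hmaps : ∀ e ∈ S, rank G f (Sym2.map φ e) / L ∈ Finset.range ((edges G).card / L + 1) := by
    intro e he
    have h1 := rank_lt_card G f _ (mem_edges'.mpr (hG e ((hS e).mp he).1))
    rw [Finset.mem_range]
    exact Nat.lt_succ_of_le (Nat.div_le_div_right h1.le)
  have hcard : S.card ≤ ⌊y⌋₊ * (Finset.range ((edges G).card / L + 1)).card := by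
    apply Finset.card_le_mul_card_image_of_maps_to hmaps
    intro v _
    rcases (S.filter (fun e => rank G f (Sym2.map φ e) / L = v)).eq_empty_or_nonempty with h0 | h0
    · rw [h0, Finset.card_empty]
      exact Nat.zero_le _
    · obtain ⟨e, he⟩ := h0
      rw [Finset.mem_filter] at he
      apply Nat.le_floor
      refine le_trans ?_ ((hS e).mp he.1).2
      unfold near
      norm_cast
      rw [← Set.ncard_coe_finset]
      apply Set.ncard_le_ncard _ (Set.toFinite _)
      intro e' he'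
      rw [Finset.mem_coe, Finset.mem_filter] at he'
      refine ⟨((hS e').mp he'.1).1, ?_⟩
      rw [dist_eq G f hf _ _ (mem_edges'.mpr (hG e ((hS e).mp he.1).1))
        (mem_edges'.mpr (hG e' ((hS e').mp he'.1).1))]
      refine le_trans ?_ hLx
      have hdiv : rank G f (Sym2.map φ e) / L = rank G f (Sym2.map φ e') / L :=
        he.2.trans he'.2.symm
      have e1 := Nat.div_add_mod (rank G f (Sym2.map φ e)) L
      have e2 := Nat.div_add_mod (rank G f (Sym2.map φ e')) L
      have m1 := Nat.mod_lt (rank G f (Sym2.map φ e)) hL0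
      have m2 := Nat.mod_lt (rank G f (Sym2.map φ e')) hL0
      rw [← hdiv] at e2
      generalize L * (rank G f (Sym2.map φ e) / L) = q at e1 e2
      norm_cast
      omega
  rw [hSc]
  have hcR : (S.card : ℝ) ≤ ⌊y⌋₊ * (((edges G).card / L : ℕ) + 1) := by
    rw [Finset.card_range] at hcard
    exact_mod_cast hcard
  have hyf : (⌊y⌋₊ : ℝ) ≤ y := Nat.floor_le hy
  have hdiv : (((edges G).card / L : ℕ) : ℝ) ≤ 2 * G.edgeSet.ncard / x := by
    refine Nat.cast_div_le.trans ?_
    rw [hEc]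
    have hL0' : (0 : ℝ) < L := by exact_mod_cast hL0
    rw [div_le_div_iff₀ hL0' (by linarith)]
    have : (0 : ℝ) ≤ G.edgeSet.ncard := Nat.cast_nonneg _
    nlinarith
  calc (S.card : ℝ) ≤ ⌊y⌋₊ * (((edges G).card / L : ℕ) + 1) := hcR
    _ ≤ y * (2 * G.edgeSet.ncard / x + 1) := by
      apply mul_le_mul hyf (by linarith) (by positivity) hy
    _ = (2 * G.edgeSet.ncard / x + 1) * y := by ring

end Pool.Agent.UCT
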