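import Pool.Agent.UCT.Final
import Pool.Agent.UCT.Size

/-!
# UCT Thin: all monochromatic copies are thin, and the size-Ramsey bound
-/

set_option autoImplicit false

namespace Pool.Agent.UCT

open Pool.Agent.UCR Filter

private theorem mem_edges'' {N : ℕ} {G : SimpleGraph (Fin N)} {e : Sym2 (Fin N)} :
    e ∈ edges G ↔ e ∈ G.edgeSet := by
  unfold edges
  rw [Set.Finite.mem_toFinset]

theorem near_le {n N : ℕ} (H : SimpleGraph (Fin n)) (G : SimpleGraph (Fin N))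
    (f : Sym2 (Fin N) → ℕ) (hf : Function.Injective f) (φ : Fin n → Fin N)
    (hφ : Function.Injective φ) (hG : ∀ e ∈ H.edgeSet, Sym2.map φ e ∈ G.edgeSet) (x : ℝ)
    (hx : 0 ≤ x) (e : Sym2 (Fin n)) (he : e ∈ H.edgeSet) :
    (near H G f φ x e : ℝ) ≤ 2 * x + 1 := by
  obtain ⟨r, hr⟩ : ∃ r : ℕ, r = rank G f (Sym2.map φ e) := ⟨_, rfl⟩
  have hinj : Set.InjOn (fun e' => rank G f (Sym2.map φ e'))
      {e' ∈ H.edgeSet | (dist G f (Sym2.map φ e) (Sym2.map φ e') : ℝ) ≤ x} := by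
    intro a ha b hb hab
    exact Sym2.map.injective hφ (rank_injOn G f hf (mem_edges''.mpr (hG a ha.1))
      (mem_edges''.mpr (hG b hb.1)) hab)
  have hmaps : ∀ e' ∈ {e' ∈ H.edgeSet | (dist G f (Sym2.map φ e) (Sym2.map φ e') : ℝ) ≤ x},
      rank G f (Sym2.map φ e') ∈ ((Finset.Icc (r - ⌊x⌋₊) (r + ⌊x⌋₊) : Finset ℕ) : Set ℕ) := by
    intro e' he'
    have h1 := he'.2
    rw [dist_eq G f hf _ _ (mem_edges''.mpr (hG e he)) (mem_edges''.mpr (hG e' he'.1)), ← hr] at h1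
    have h2 : (rank G f (Sym2.map φ e') - r) + (r - rank G f (Sym2.map φ e')) ≤ ⌊x⌋₊ :=
      Nat.le_floor h1
    rw [Finset.mem_coe, Finset.mem_Icc]
    omega
  have h3 := Set.ncard_le_ncard_of_injOn _ hmaps hinj (Set.toFinite _)
  rw [Set.ncard_coe_finset, Nat.card_Icc] at h3
  have h4 : near H G f φ x e ≤ 2 * ⌊x⌋₊ + 1 := by
    unfold near
    omega
  have h5 : (⌊x⌋₊ : ℝ) ≤ x := Nat.floor_le hx
  have h6 : (near H G f φ x e : ℝ) ≤ 2 * (⌊x⌋₊ : ℝ) + 1 := by exact_mod_cast h4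
  linarith

/-- no compressed copies below the scale `n` -/
theorem not_compressed {n N : ℕ} (H : SimpleGraph (Fin n)) (G : SimpleGraph (Fin N))
    (f : Sym2 (Fin N) → ℕ) (hf : Function.Injective f) (φ : Fin n → Fin N)
    (hφ : Function.Injective φ) (hG : ∀ e ∈ H.edgeSet, Sym2.map φ e ∈ G.edgeSet) (ω c : ℝ)
    (hc : 0 < c) (h : 2 * (n : ℝ) ^ (1 + ω) + 1 < c * n) :
    ¬ UCS.Compressed H G f φ ω c := by
  intro hcomp
  unfold UCS.Compressed at hcomp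
  have hempty : {e ∈ H.edgeSet | c * n ≤ ({e' ∈ H.edgeSet |
      (UCR.dist G f (Sym2.map φ e) (Sym2.map φ e') : ℝ)
      ≤ (n : ℝ) ^ (1 + ω)}.ncard : ℝ)} = ∅ := by
    rw [Set.eq_empty_iff_forall_notMem]
    rintro e ⟨he, h1⟩
    have h2 := near_le H G f hf φ hφ hG ((n : ℝ) ^ (1 + ω)) (by positivity) e he
    unfold near at h2
    linarith
  rw [hempty, Set.ncard_empty] at hcomp
  have : 0 ≤ c * n := by positivity
  simp only [Nat.cast_zero] at hcomp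
  linarith

/-- the asymptotic inequalities -/
private theorem num_thin' (δ d c : ℝ) (hd : 0 < d) (hd1 : d ≤ 1 / 4) (hdδ : 4 * d ≤ δ)
    (hc : 0 < c) :
    ∀ᶠ n : ℕ in atTop, 2 * (n : ℝ) ^ (1 + -d) + 1 < c * n ∧
      ∀ e : ℝ, e ≤ (n : ℝ) ^ (5 / 3 - δ) →
        (2 * e / (n : ℝ) ^ (1 + -d - d) + 1) *
          ((n : ℝ) ^ d * ((n : ℝ) ^ (1 + -d - d)) ^ (1 / 3 : ℝ)) < 1 / 2 * (c * n) := by
  have h1 : ∀ a : ℝ, 0 < a → ∀ B : ℝ, ∀ᶠ n : ℕ in atTop, B < (n : ℝ) ^ a := fun a ha B =>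
    ((tendsto_rpow_atTop ha).comp tendsto_natCast_atTop_atTop).eventually_gt_atTop B
  filter_upwards [eventually_ge_atTop 1, h1 d hd (3 / c), h1 (5 / 3 * d) (by positivity) (8 / c),
    h1 (7 / 12) (by norm_num) (8 / c)] with n hn hA hB hC
  have hnR : (1 : ℝ) ≤ n := by exact_mod_cast hn
  have hn0 : (0 : ℝ) < n := by linarith
  constructor
  · have e1 : (n : ℝ) = (n : ℝ) ^ (1 + -d) * (n : ℝ) ^ d := by
      rw [← Real.rpow_add hn0]
      rw [show 1 + -d + d = (1 : ℝ) by ring, Real.rpow_one]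
    have e2 : (1 : ℝ) ≤ (n : ℝ) ^ (1 + -d) := Real.one_le_rpow hnR (by linarith)
    rw [div_lt_iff₀ hc] at hA
    have e3 : c * n = (n : ℝ) ^ (1 + -d) * ((n : ℝ) ^ d * c) := by
      conv_lhs => rw [e1]
      ring
    rw [e3]
    have e4 : (n : ℝ) ^ (1 + -d) * 3 < (n : ℝ) ^ (1 + -d) * ((n : ℝ) ^ d * c) :=
      mul_lt_mul_of_pos_left hA (by positivity)
    linarith
  · intro e he
    have e1 : ((n : ℝ) ^ (1 + -d - d)) ^ (1 / 3 : ℝ) = (n : ℝ) ^ ((1 + -d - d) * (1 / 3)) := by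
      rw [← Real.rpow_mul hn0.le]
    have e2 : (n : ℝ) ^ d * ((n : ℝ) ^ (1 + -d - d)) ^ (1 / 3 : ℝ) =
        (n : ℝ) ^ (1 / 3 + d / 3) := by
      rw [e1, ← Real.rpow_add hn0]
      congr 1
      ring
    rw [e2]
    have e3 : 2 * e / (n : ℝ) ^ (1 + -d - d) ≤ 2 * (n : ℝ) ^ (5 / 3 - δ - (1 + -d - d)) := by
      rw [div_le_iff₀ (by positivity), mul_assoc, ← Real.rpow_add hn0,
        show 5 / 3 - δ - (1 + -d - d) + (1 + -d - d) = 5 / 3 - δ by ring]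
      linarith
    have e4 : (2 * e / (n : ℝ) ^ (1 + -d - d) + 1) * (n : ℝ) ^ (1 / 3 + d / 3) ≤
        2 * (n : ℝ) ^ (1 - 5 / 3 * d) + (n : ℝ) ^ (1 - (7 / 12 : ℝ)) := by
      have h3 : (2 * e / (n : ℝ) ^ (1 + -d - d) + 1) * (n : ℝ) ^ (1 / 3 + d / 3) ≤
          (2 * (n : ℝ) ^ (5 / 3 - δ - (1 + -d - d)) + 1) * (n : ℝ) ^ (1 / 3 + d / 3) := by
        gcongr
      refine h3.trans ?_
      have h4 : (n : ℝ) ^ (5 / 3 - δ - (1 + -d - d)) * (n : ℝ) ^ (1 / 3 + d / 3) ≤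
          (n : ℝ) ^ (1 - 5 / 3 * d) := by
        rw [← Real.rpow_add hn0]
        exact Real.rpow_le_rpow_of_exponent_le hnR (by linarith)
      have h5 : (n : ℝ) ^ (1 / 3 + d / 3) ≤ (n : ℝ) ^ (1 - (7 / 12 : ℝ)) :=
        Real.rpow_le_rpow_of_exponent_le hnR (by linarith)
      nlinarith
    refine lt_of_le_of_lt e4 ?_
    have e5 : (n : ℝ) ^ (1 - 5 / 3 * d) < c * n / 8 := by
      rw [Real.rpow_sub hn0, Real.rpow_one, div_lt_iff₀ (by positivity)]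
      rw [div_lt_iff₀ hc] at hB
      nlinarith
    have e6 : (n : ℝ) ^ (1 - (7 / 12 : ℝ)) < c * n / 8 := by
      rw [Real.rpow_sub hn0, Real.rpow_one, div_lt_iff₀ (by positivity)]
      rw [div_lt_iff₀ hc] at hC
      nlinarith
    have : 0 < c * n := by positivity
    linarith

theorem thin (A δ η : ℝ) (hδ : 0 < δ) (hη : 0 < η) :
    ∃ Δ n₀ : ℕ, ∀ n : ℕ, n₀ ≤ n →
      ∃ (H : SimpleGraph (Fin n)) (g : Sym2 (Fin n) → ℕ), Set.InjOn g H.edgeSet ∧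
        (∀ x : Fin n, (H.neighborSet x).ncard ≤ Δ) ∧
        ∀ (N : ℕ) (G : SimpleGraph (Fin N)) (f : Sym2 (Fin N) → ℕ), Function.Injective f →
          ((G.edgeSet.ncard : ℝ) ≤ (n : ℝ) ^ (5 / 3 - δ) →
            ∃ col : Sym2 (Fin N) → Bool, ∀ (b : Bool) (φ : Fin n → Fin N),
              ¬ IsColCopy H g G f col b φ) ∧
          ((G.edgeSet.ncard : ℝ) ≤ (n : ℝ) ^ A →
            ∃ col : Sym2 (Fin N) → Bool,
              (∀ φ : Fin n → Fin N, ¬ IsColCopy H g G f col true φ) ∧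
              ∀ φ : Fin n → Fin N, IsColCopy H g G f col false φ →
              ∀ x : ℝ, 1 ≤ x → x ≤ (n : ℝ) ^ (1 - δ) →
                ({e ∈ H.edgeSet | (n : ℝ) ^ δ * x ^ (1 / 3 : ℝ) <
                  (near H G f φ x e : ℝ)}.ncard : ℝ) ≤ η * H.edgeSet.ncard) := by
  obtain ⟨d, hd⟩ : ∃ d : ℝ, d = min δ 1 / 4 := ⟨_, rfl⟩
  have hmin : 0 < min δ 1 := lt_min hδ one_pos
  have hd0 : 0 < d := by rw [hd]; positivity
  have h4 : 4 * d = min δ 1 := by rw [hd]; ring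
  have hd1 : d ≤ 1 / 4 := by
    have := min_le_right δ 1
    linarith
  have hdδ : 4 * d ≤ δ := by
    rw [h4]
    exact min_le_left _ _
  obtain ⟨Δ, c, hc, ε, hε, n₀, hn₀⟩ := main (max A 2) (-d) d (min η (1 / 2)) (by linarith)
    (by linarith) hd0 (lt_min hη (by norm_num))
  obtain ⟨n₁, hn₁⟩ := eventually_atTop.mp (num_thin' δ d c hd0 hd1 hdδ hc)
  refine ⟨Δ, max (max n₀ n₁) 1, fun n hn => ?_⟩
  have hn0 : n₀ ≤ n := le_trans (le_trans (le_max_left _ _) (le_max_left _ _)) hn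
  have hn1 : n₁ ≤ n := le_trans (le_trans (le_max_right _ _) (le_max_left _ _)) hn
  have hnR : (1 : ℝ) ≤ n := by exact_mod_cast le_of_max_le_right hn
  obtain ⟨H, g, hg, hdeg, hE, hH⟩ := hn₀ n hn0
  obtain ⟨hN1, hN2⟩ := hn₁ n hn1
  have hthin : ∀ (N : ℕ) (G : SimpleGraph (Fin N)) (f : Sym2 (Fin N) → ℕ),
      Function.Injective f → (G.edgeSet.ncard : ℝ) ≤ (n : ℝ) ^ (max A 2) →
      ∃ col : Sym2 (Fin N) → Bool,
        (∀ φ : Fin n → Fin N, ¬ IsColCopy H g G f col true φ) ∧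
        ∀ φ : Fin n → Fin N, IsColCopy H g G f col false φ →
        ∀ x : ℝ, 1 ≤ x → x ≤ (n : ℝ) ^ (1 + -d - d) →
          ({e ∈ H.edgeSet | (n : ℝ) ^ d * x ^ (1 / 3 : ℝ) <
            (near H G f φ x e : ℝ)}.ncard : ℝ) ≤ min η (1 / 2) * H.edgeSet.ncard := by
    intro N G f hf hG
    obtain ⟨col, hcol1, hcol2⟩ := hH N G f hf hG
    exact ⟨col, fun φ hφ => not_compressed H G f hf φ hφ.1 hφ.2.1 (-d) c hc hN1 (hcol1 φ hφ),
      fun φ hφ => (hcol2 φ hφ).1⟩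
  refine ⟨H, g, hg, hdeg, fun N G f hf => ⟨fun hG => ?_, fun hG => ?_⟩⟩
  · obtain ⟨col, hcol1, hcol2⟩ :=
      hthin N G f hf (hG.trans (Real.rpow_le_rpow_of_exponent_le hnR (by
      have := le_max_right A 2
      linarith)))
    refine ⟨col, fun b φ hφ => ?_⟩
    cases b with
    | true => exact hcol1 φ hφ
    | false =>
    have hx1 : (1 : ℝ) ≤ (n : ℝ) ^ (1 + -d - d) := Real.one_le_rpow hnR (by linarith)
    have h1 := hcol2 φ hφ _ hx1 le_rfl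
    have h2 := few_thin H G f hf φ hφ.2.1 _ ((n : ℝ) ^ d * ((n : ℝ) ^ (1 + -d - d)) ^ (1 / 3 : ℝ))
      hx1 (by positivity)
    have h3 := hN2 _ hG
    have h5 : (H.edgeSet.ncard : ℝ) ≤
        ({e ∈ H.edgeSet | (n : ℝ) ^ d * ((n : ℝ) ^ (1 + -d - d)) ^ (1 / 3 : ℝ) <
            (near H G f φ ((n : ℝ) ^ (1 + -d - d)) e : ℝ)}.ncard : ℝ) +
        ({e ∈ H.edgeSet | (near H G f φ ((n : ℝ) ^ (1 + -d - d)) e : ℝ) ≤
          (n : ℝ) ^ d * ((n : ℝ) ^ (1 + -d - d)) ^ (1 / 3 : ℝ)}.ncard : ℝ) := by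
      norm_cast
      refine le_trans (Set.ncard_le_ncard ?_ (Set.toFinite _)) (Set.ncard_union_le _ _)
      intro e he
      rcases lt_or_ge ((n : ℝ) ^ d * ((n : ℝ) ^ (1 + -d - d)) ^ (1 / 3 : ℝ))
        (near H G f φ ((n : ℝ) ^ (1 + -d - d)) e : ℝ) with h6 | h6
      · exact Or.inl ⟨he, h6⟩
      · exact Or.inr ⟨he, h6⟩
    have h6 : min η (1 / 2) * (H.edgeSet.ncard : ℝ) ≤ 1 / 2 * H.edgeSet.ncard :=
      mul_le_mul_of_nonneg_right (min_le_right _ _) (Nat.cast_nonneg _)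
    linarith
  · obtain ⟨col, hcol1, hcol2⟩ := hthin N G f hf
      (hG.trans (Real.rpow_le_rpow_of_exponent_le hnR (le_max_left _ _)))
    refine ⟨col, hcol1, fun φ hφ x hx1 hx2 => ?_⟩
    have h1 := hcol2 φ hφ x hx1
      (hx2.trans (Real.rpow_le_rpow_of_exponent_le hnR (by linarith)))
    have h2 : min η (1 / 2) * (H.edgeSet.ncard : ℝ) ≤ η * H.edgeSet.ncard :=
      mul_le_mul_of_nonneg_right (min_le_left _ _) (Nat.cast_nonneg _)
    refine le_trans ?_ (h1.trans h2)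
    norm_cast
    refine Set.ncard_le_ncard ?_ (Set.toFinite _)
    rintro e ⟨he, h3⟩
    refine ⟨he, lt_of_le_of_lt ?_ h3⟩
    have h5 : (n : ℝ) ^ d ≤ (n : ℝ) ^ δ := Real.rpow_le_rpow_of_exponent_le hnR (by linarith)
    exact mul_le_mul_of_nonneg_right h5 (by positivity)

end Pool.Agent.UCT
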